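import Mathlib

/-! Distance from a fixed point to a point moving on the unit circle: derivatives. -/

namespace Pool.Agent.Lib.MP_55cb2c_co

open Real Set

/-- The point of the unit circle with argument `s`. -/
noncomputable def yy (s : ℝ) : ℂ := ⟨cos s, sin s⟩

noncomputable def dd (x : ℂ) (s : ℝ) : ℝ := dist x (yy s)
noncomputable def pp (x : ℂ) (s : ℝ) : ℝ := x.re * cos s + x.im * sin s
noncomputable def qq (x : ℂ) (s : ℝ) : ℝ := x.re * sin s - x.im * cos s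
noncomputable def d1 (x : ℂ) (s : ℝ) : ℝ := qq x s / dd x s
noncomputable def kk (x : ℂ) (s : ℝ) : ℝ := (1 - ‖x‖ ^ 2) ^ 2 / (4 * dd x s ^ 3)

lemma normsq (x : ℂ) : ‖x‖ ^ 2 = x.re ^ 2 + x.im ^ 2 := by
  rw [Complex.sq_norm, Complex.normSq_apply]; ring

lemma norm_yy (s : ℝ) : ‖yy s‖ = 1 := by
  have h : ‖yy s‖ ^ 2 = 1 := by rw [normsq]; simp [yy]
  have := norm_nonneg (yy s)
  nlinarith

lemma dd_nonneg (x : ℂ) (s : ℝ) : 0 ≤ dd x s := dist_nonneg

lemma dd_sq (x : ℂ) (s : ℝ) : dd x s ^ 2 = 1 + ‖x‖ ^ 2 - 2 * pp x s := by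
  unfold dd pp
  rw [dist_eq_norm, normsq, normsq]
  simp only [yy, Complex.sub_re, Complex.sub_im]
  nlinarith [sin_sq_add_cos_sq s]

lemma dd_eq_sqrt (x : ℂ) (s : ℝ) : dd x s = √(1 + ‖x‖ ^ 2 - 2 * pp x s) := by
  rw [← dd_sq, sqrt_sq (dd_nonneg x s)]

lemma pp_sq_add_qq_sq (x : ℂ) (s : ℝ) : pp x s ^ 2 + qq x s ^ 2 = ‖x‖ ^ 2 := by
  unfold pp qq
  rw [normsq]
  nlinarith [sin_sq_add_cos_sq s]

lemma continuous_yy : Continuous yy := by
  have : yy = fun s => ((cos s : ℝ) : ℂ) + ((sin s : ℝ) : ℂ) * Complex.I := by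
    funext s; apply Complex.ext <;> simp [yy, -Complex.ofReal_cos, -Complex.ofReal_sin]
  rw [this]; fun_prop

lemma continuous_dd : Continuous fun p : ℂ × ℝ => dd p.1 p.2 := by
  unfold dd
  exact continuous_fst.dist (continuous_yy.comp continuous_snd)

lemma continuous_dd_s (x : ℂ) : Continuous (dd x) :=
  continuous_dd.comp (Continuous.prodMk_right x)

lemma continuous_dd_x (s : ℝ) : Continuous fun x => dd x s :=
  continuous_dd.comp (Continuous.prodMk_left s)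

lemma continuous_qq : Continuous fun p : ℂ × ℝ => qq p.1 p.2 := by
  unfold qq; fun_prop

lemma measurable_d1 : Measurable fun p : ℂ × ℝ => d1 p.1 p.2 :=
  continuous_qq.measurable.div continuous_dd.measurable

lemma measurable_kk : Measurable fun p : ℂ × ℝ => kk p.1 p.2 := by
  unfold kk
  apply Measurable.div
  · fun_prop
  · exact (continuous_dd.measurable.pow_const 3).const_mul 4

lemma kk_nonneg (x : ℂ) (s : ℝ) : 0 ≤ kk x s := by
  unfold kk
  have := dd_nonneg x s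
  positivity

lemma hasDerivAt_pp (x : ℂ) (s : ℝ) : HasDerivAt (pp x) (-qq x s) s := by
  unfold pp qq
  exact (((hasDerivAt_cos s).const_mul x.re).add ((hasDerivAt_sin s).const_mul x.im)).congr_deriv
    (by ring)

lemma hasDerivAt_qq (x : ℂ) (s : ℝ) : HasDerivAt (qq x) (pp x s) s := by
  unfold pp qq
  exact (((hasDerivAt_sin s).const_mul x.re).sub ((hasDerivAt_cos s).const_mul x.im)).congr_deriv
    (by ring)

lemma hasDerivAt_dd (x : ℂ) (s : ℝ) (h : dd x s ≠ 0) : HasDerivAt (dd x) (d1 x s) s := by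
  have e : dd x = fun s => √(1 + ‖x‖ ^ 2 - 2 * pp x s) := funext (dd_eq_sqrt x)
  have h1 : HasDerivAt (fun s => 1 + ‖x‖ ^ 2 - 2 * pp x s) (2 * qq x s) s := by
    exact (((hasDerivAt_pp x s).const_mul 2).const_sub (1 + ‖x‖ ^ 2)).congr_deriv (by ring)
  have h2 : 1 + ‖x‖ ^ 2 - 2 * pp x s ≠ 0 := by
    rw [← dd_sq]; exact pow_ne_zero 2 h
  have h3 := h1.sqrt h2
  rw [e]
  refine h3.congr_deriv ?_
  rw [← dd_eq_sqrt]
  unfold d1
  field_simp

lemma hasDerivAt_d1 (x : ℂ) (s : ℝ) (h : dd x s ≠ 0) :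
    HasDerivAt (d1 x) (kk x s - dd x s / 4) s := by
  have h3 := (hasDerivAt_qq x s).div (hasDerivAt_dd x s h) h
  have e : d1 x = qq x / dd x := by funext s; rfl
  rw [e]
  refine h3.congr_deriv ?_
  unfold kk d1
  have h1 := dd_sq x s
  have h2 := pp_sq_add_qq_sq x s
  have hp : pp x s = (1 + ‖x‖ ^ 2 - dd x s ^ 2) / 2 := by linarith
  have hq : qq x s ^ 2 = ‖x‖ ^ 2 - ((1 + ‖x‖ ^ 2 - dd x s ^ 2) / 2) ^ 2 := by
    rw [← hp]; linarith
  field_simp
  rw [hq, hp]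
  ring

lemma hasDerivAt_kk (x : ℂ) (s : ℝ) (h : dd x s ≠ 0) :
    HasDerivAt (kk x) (-(3 * kk x s * d1 x s / dd x s)) s := by
  have h3 := ((hasDerivAt_dd x s h).pow 3).const_mul 4
  have h4 : 4 * dd x s ^ 3 ≠ 0 := by positivity
  have h5 := (h3.inv h4).const_mul ((1 - ‖x‖ ^ 2) ^ 2)
  have e : kk x = fun y => (1 - ‖x‖ ^ 2) ^ 2 * (4 * dd x y ^ 3)⁻¹ := by
    funext s; unfold kk; rw [div_eq_mul_inv]
  rw [e]
  refine h5.congr_deriv ?_
  simp only [Pi.pow_apply]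
  field_simp
  ring

lemma abs_d1_le_one (x : ℂ) (s : ℝ) : |d1 x s| ≤ 1 := by
  unfold d1
  rcases (dd_nonneg x s).eq_or_lt with h | h
  · rw [← h]; simp
  · rw [abs_div, abs_of_pos h, div_le_one h]
    apply abs_le_of_sq_le_sq' _ h.le |> fun h => abs_le.mpr h
    nlinarith [dd_sq x s, pp_sq_add_qq_sq x s, sq_nonneg (pp x s - 1)]

lemma abs_d1_le_norm (x : ℂ) (s : ℝ) : |d1 x s| ≤ ‖x‖ := by
  unfold d1
  rcases (dd_nonneg x s).eq_or_lt with h | h
  · rw [← h]; simp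
  · rw [abs_div, abs_of_pos h, div_le_iff₀ h]
    apply abs_le_of_sq_le_sq' _ (by positivity) |> fun h => abs_le.mpr h
    rw [mul_pow, dd_sq]
    nlinarith [pp_sq_add_qq_sq x s, sq_nonneg (pp x s - ‖x‖ ^ 2)]

lemma dist_yy (s t : ℝ) : dist (yy t) (yy s) = 2 * |sin ((s - t) / 2)| := by
  have h : dd (yy t) s ^ 2 = (2 * |sin ((s - t) / 2)|) ^ 2 := by
    rw [dd_sq, norm_yy, mul_pow, sq_abs]
    unfold pp
    simp only [yy]
    have h1 : cos (s - t) = 1 - 2 * sin ((s - t) / 2) ^ 2 := by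
      have := cos_two_mul ((s - t) / 2)
      have h2 := sin_sq_add_cos_sq ((s - t) / 2)
      rw [show 2 * ((s - t) / 2) = s - t by ring] at this
      linarith
    have h2 := cos_sub s t
    nlinarith
  exact (pow_left_inj₀ (dd_nonneg _ _) (by positivity) two_ne_zero).mp h

lemma dd_yy (s t : ℝ) : dd (yy t) s = 2 * |sin ((s - t) / 2)| := dist_yy s t

lemma qq_yy (s t : ℝ) : qq (yy t) s = 2 * sin ((s - t) / 2) * cos ((s - t) / 2) := by
  rw [← sin_two_mul, show 2 * ((s - t) / 2) = s - t by ring, sin_sub]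
  simp only [qq, yy]; ring

lemma kk_of_norm (x : ℂ) (s : ℝ) (h : ‖x‖ = 1) : kk x s = 0 := by
  unfold kk; rw [h]; simp

lemma d1_yy_of_lt {s t : ℝ} (h1 : t < s) (h2 : s - t < 2 * π) :
    d1 (yy t) s = cos ((s - t) / 2) := by
  have h : 0 < sin ((s - t) / 2) := sin_pos_of_pos_of_lt_pi (by linarith) (by linarith)
  unfold d1
  rw [dd_yy, qq_yy, abs_of_pos h]
  field_simp

lemma d1_yy_of_gt {s t : ℝ} (h1 : s < t) (h2 : t - s < 2 * π) :
    d1 (yy t) s = -cos ((s - t) / 2) := by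
  have h : 0 < sin ((t - s) / 2) := sin_pos_of_pos_of_lt_pi (by linarith) (by linarith)
  have h' : sin ((s - t) / 2) = -sin ((t - s) / 2) := by
    rw [← sin_neg]; congr 1; ring
  unfold d1
  rw [dd_yy, qq_yy, h', abs_neg, abs_of_pos h]
  field_simp

lemma dist_yy_le (s t : ℝ) : dist (yy t) (yy s) ≤ |s - t| := by
  rw [dist_yy]
  have := abs_sin_le_abs (x := (s - t) / 2)
  rw [abs_div, abs_two] at this
  linarith

lemma abs_dd_sub_le (x : ℂ) (s t : ℝ) : |dd x s - dd x t| ≤ |s - t| := by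
  unfold dd
  calc |dist x (yy s) - dist x (yy t)| ≤ dist (yy s) (yy t) := by
        rw [dist_comm x, dist_comm x]; exact abs_dist_sub_le _ _ _
    _ ≤ |s - t| := by rw [dist_comm]; exact dist_yy_le s t

/-- Wronskian of the distance with `sin (s/2)`. -/
noncomputable def psi (x : ℂ) (s : ℝ) : ℝ := d1 x s * sin (s / 2) - dd x s * cos (s / 2) / 2

lemma hasDerivAt_psi (x : ℂ) (s : ℝ) (h : dd x s ≠ 0) :
    HasDerivAt (psi x) (sin (s / 2) * kk x s) s := by
  have hs : HasDerivAt (fun s : ℝ => sin (s / 2)) (cos (s / 2) * (1 / 2)) s :=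
    ((hasDerivAt_id s).div_const 2).sin
  have hc : HasDerivAt (fun s : ℝ => cos (s / 2)) (-sin (s / 2) * (1 / 2)) s :=
    ((hasDerivAt_id s).div_const 2).cos
  have := ((hasDerivAt_d1 x s h).mul hs).sub (((hasDerivAt_dd x s h).mul hc).div_const 2)
  exact this.congr_deriv (by ring)

lemma continuousOn_kk (x : ℂ) (S : Set ℝ) (h : ∀ s ∈ S, dd x s ≠ 0) : ContinuousOn (kk x) S :=
  fun s hs => (hasDerivAt_kk x s (h s hs)).continuousAt.continuousWithinAt

lemma integral_kk (x : ℂ) {β : ℝ} (hβ : 0 ≤ β) (h : ∀ s ∈ Icc 0 β, dd x s ≠ 0) :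
    ∫ s in (0 : ℝ)..β, sin (s / 2) * kk x s = psi x β - psi x 0 := by
  apply intervalIntegral.integral_eq_sub_of_hasDerivAt
  · intro s hs
    rw [uIcc_of_le hβ] at hs
    exact hasDerivAt_psi x s (h s hs)
  · apply ContinuousOn.intervalIntegrable
    rw [uIcc_of_le hβ]
    exact (by fun_prop : ContinuousOn (fun s : ℝ => sin (s / 2)) _).mul (continuousOn_kk x _ h)

lemma psi_yy_of_lt {s t : ℝ} (h1 : t < s) (h2 : s - t < 2 * π) : psi (yy t) s = sin (t / 2) := by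
  have h : 0 < sin ((s - t) / 2) := sin_pos_of_pos_of_lt_pi (by linarith) (by linarith)
  unfold psi
  rw [d1_yy_of_lt h1 h2, dd_yy, abs_of_pos h,
    show t / 2 = s / 2 - (s - t) / 2 by ring, sin_sub]
  ring

lemma psi_yy_of_gt {s t : ℝ} (h1 : s < t) (h2 : t - s < 2 * π) : psi (yy t) s = -sin (t / 2) := by
  have h : 0 < sin ((t - s) / 2) := sin_pos_of_pos_of_lt_pi (by linarith) (by linarith)
  have h' : sin ((s - t) / 2) = -sin ((t - s) / 2) := by
    rw [← sin_neg]; congr 1; ring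
  unfold psi
  rw [d1_yy_of_gt h1 h2, dd_yy, h', abs_neg, abs_of_pos h,
    show t / 2 = s / 2 - (s - t) / 2 by ring, sin_sub, h']
  ring

lemma psi_zero (x : ℂ) : psi x 0 = -(dd x 0 / 2) := by
  unfold psi; simp

end Pool.Agent.Lib.MP_55cb2c_co
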