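import Pool.Agent.Lib.MP_55cb2c_co.Symm

/-! The second order differential equation of a potential along the arc, in integrated form. -/

namespace Pool.Agent.Lib.MP_55cb2c_co

open Set MeasureTheory Real Filter Topology

lemma arg_yy {s : ℝ} (hs : s ∈ Ioc (-π) π) : Complex.arg (yy s) = s := by
  have : yy s = Complex.cos s + Complex.sin s * Complex.I := by
    apply Complex.ext <;> simp [yy, ← Complex.ofReal_cos, ← Complex.ofReal_sin]
  rw [this]
  exact Complex.arg_cos_add_sin_mul_I hs

lemma yy_arg {x : ℂ} (hx : ‖x‖ = 1) : yy (Complex.arg x) = x := by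
  apply Complex.ext <;> simp only [yy]
  · rw [← Complex.norm_mul_cos_arg x, hx, one_mul]
  · rw [← Complex.norm_mul_sin_arg x, hx, one_mul]

lemma dd_ne_zero_of_norm {x : ℂ} (hx : ‖x‖ ≠ 1) (s : ℝ) : dd x s ≠ 0 := by
  intro h
  rw [dd, dist_eq_zero] at h
  exact hx (h ▸ norm_yy s)

def HL (L : ℝ) : Set ℂ := {x | ‖x‖ = 1 ∧ Complex.arg x ∈ Ioc 0 L}

lemma measurableSet_HL (L : ℝ) : MeasurableSet (HL L) :=
  (measurableSet_eq_fun (by fun_prop) measurable_const).inter
    (Complex.measurable_arg measurableSet_Ioc)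

lemma continuous_FF (x : ℂ) : Continuous fun s => sin (s / 2) * kk x s := by
  by_cases hx : ‖x‖ = 1
  · simp only [kk_of_norm x _ hx, mul_zero]; exact continuous_const
  · exact (by fun_prop : Continuous fun s : ℝ => sin (s / 2)).mul
      (continuous_iff_continuousAt.mpr fun s =>
        (hasDerivAt_kk x s (dd_ne_zero_of_norm hx s)).continuousAt)

lemma measurable_FF : Measurable fun p : ℂ × ℝ => sin (p.2 / 2) * kk p.1 p.2 :=
  (by fun_prop : Measurable fun p : ℂ × ℝ => sin (p.2 / 2)).mul measurable_kk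

lemma psi_sub {β : ℝ} (hβ : β ∈ Icc 0 (π / 6)) {x : ℂ} (hx : x ≠ yy β) :
    psi x β - psi x 0 = (HL β).indicator (fun x => 2 * sin (Complex.arg x / 2)) x +
      ∫ s in Ioc 0 β, sin (s / 2) * kk x s := by
  have hpi := pi_pos
  rw [← intervalIntegral.integral_of_le hβ.1]
  by_cases h1 : ‖x‖ = 1
  · simp only [kk_of_norm x _ h1, mul_zero, intervalIntegral.integral_zero, add_zero]
    have ht := Complex.arg_mem_Ioc x
    have hx' := yy_arg h1
    set t := Complex.arg x with htdef
    have hne : t ≠ β := fun h => hx (by rw [← hx', h])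
    rcases lt_trichotomy t 0 with h0 | h0 | h0
    · rw [indicator_of_notMem (fun h => by linarith [h.2.1]), ← hx',
        psi_yy_of_lt (by linarith [hβ.1]) (by linarith [ht.1, hβ.2]),
        psi_yy_of_lt h0 (by linarith [ht.1]), sub_self]
    · rw [indicator_of_notMem (fun h => by linarith [h.2.1]), ← hx', h0,
        psi_yy_of_lt (lt_of_le_of_ne hβ.1 (h0 ▸ hne)) (by linarith [hβ.2]), psi_zero, dd_yy]
      simp
    · rcases lt_or_gt_of_ne hne with h2 | h2
      · rw [indicator_of_mem (show x ∈ HL β from ⟨h1, h0, h2.le⟩), ← htdef, ← hx',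
          psi_yy_of_lt h2 (by linarith [hβ.2]), psi_yy_of_gt h0 (by linarith [ht.2])]
        ring
      · rw [indicator_of_notMem (fun h => by linarith [h.2.2]), ← hx',
          psi_yy_of_gt h2 (by linarith [ht.2, hβ.1]), psi_yy_of_gt h0 (by linarith [ht.2]),
          sub_self]
  · rw [indicator_of_notMem (fun h => h1 h.1), zero_add,
      integral_kk x hβ.1 fun s _ => dd_ne_zero_of_norm h1 s]

lemma abs_psi_le (x : ℂ) (s : ℝ) : |psi x s| ≤ 2 + ‖x‖ := by
  unfold psi
  have h1 := abs_d1_le_one x s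
  have h2 : dd x s ≤ ‖x‖ + 1 := by
    rw [dd, dist_eq_norm, ← norm_yy s]; exact norm_sub_le _ _
  have h3 := dd_nonneg x s
  have h4 := abs_sin_le_one (s / 2)
  have h5 := abs_cos_le_one (s / 2)
  calc _ ≤ |d1 x s * sin (s / 2)| + |dd x s * cos (s / 2) / 2| := abs_sub _ _
    _ = |d1 x s| * |sin (s / 2)| + dd x s * |cos (s / 2)| / 2 := by
        rw [abs_mul, abs_div, abs_mul, abs_of_nonneg h3, abs_two]
    _ ≤ 1 * 1 + (‖x‖ + 1) * 1 / 2 := by gcongr
    _ ≤ 2 + ‖x‖ := by linarith [norm_nonneg x]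

lemma FF_nonneg {L : ℝ} (hL : L ∈ Icc 0 (π / 6)) (x : ℂ) {s : ℝ} (hs : s ∈ Ioc 0 L) :
    0 ≤ sin (s / 2) * kk x s :=
  mul_nonneg (half_bounds ⟨hs.1.le, hs.2.trans hL.2⟩).1 (kk_nonneg x s)

lemma integral_FF_le {L : ℝ} (hL : L ∈ Icc 0 (π / 6)) (x : ℂ) :
    ∫ s in Ioc 0 L, sin (s / 2) * kk x s ≤ 4 + 2 * ‖x‖ := by
  by_cases h1 : ‖x‖ = 1
  · simp only [kk_of_norm x _ h1, mul_zero, integral_zero]; positivity
  · rw [← intervalIntegral.integral_of_le hL.1,
      integral_kk x hL.1 fun s _ => dd_ne_zero_of_norm h1 s]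
    linarith [abs_le.mp (abs_psi_le x L), abs_le.mp (abs_psi_le x 0)]

variable {lam : Measure ℂ} [IsProbabilityMeasure lam]

lemma integrable_FF (hl : ∀ᵐ x ∂lam, x ∈ Gam) {L : ℝ} (hL : L ∈ Icc 0 (π / 6)) :
    Integrable (fun p : ℂ × ℝ => sin (p.2 / 2) * kk p.1 p.2)
      (lam.prod (volume.restrict (Ioc 0 L))) := by
  rw [integrable_prod_iff measurable_FF.aestronglyMeasurable]
  refine ⟨Eventually.of_forall fun x => (continuous_FF x).integrableOn_Ioc, ?_⟩
  refine Integrable.mono' (g := fun x => 4 + 2 * ‖x‖)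
    (integrable_of_cont isCompact_Gam hl (by fun_prop))
    (measurable_FF.norm.stronglyMeasurable.integral_prod_right').aestronglyMeasurable
    (Eventually.of_forall fun x => ?_)
  rw [Real.norm_eq_abs, abs_of_nonneg (integral_nonneg fun _ => norm_nonneg _)]
  refine le_trans (le_of_eq ?_) (integral_FF_le hL x)
  exact setIntegral_congr_fun measurableSet_Ioc fun s hs =>
    Real.norm_of_nonneg (FF_nonneg hL x hs)

noncomputable def gg (L : ℝ) (φ : ℝ → ℝ) (x : ℂ) : ℝ :=
  (HL L).indicator (fun x => 2 * sin (Complex.arg x / 2) * φ (Complex.arg x)) x +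
    ∫ s in Ioc 0 L, sin (s / 2) * kk x s * φ s

noncomputable def mm (lam : Measure ℂ) (L : ℝ) : Measure ℝ :=
  ((lam.restrict (HL L)).withDensity
      (fun x => ENNReal.ofReal (2 * sin (Complex.arg x / 2)))).map Complex.arg +
    ((lam.prod (volume.restrict (Ioc 0 L))).withDensity
      (fun p => ENNReal.ofReal (sin (p.2 / 2) * kk p.1 p.2))).map Prod.snd

lemma measurable_w : Measurable fun x : ℂ => 2 * sin (Complex.arg x / 2) :=
  (measurable_sin.comp (Complex.measurable_arg.div_const 2)).const_mul 2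

lemma fin_a (L : ℝ) : IsFiniteMeasure ((lam.restrict (HL L)).withDensity
    (fun x => ENNReal.ofReal (2 * sin (Complex.arg x / 2)))) := by
  apply isFiniteMeasure_withDensity_ofReal
  refine (Integrable.mono' (integrable_const (2 : ℝ)) measurable_w.aestronglyMeasurable
    (Eventually.of_forall fun x => ?_)).hasFiniteIntegral
  rw [Real.norm_eq_abs, abs_mul, abs_two]
  linarith [abs_sin_le_one (Complex.arg x / 2)]

lemma fin_mm (hl : ∀ᵐ x ∂lam, x ∈ Gam) {L : ℝ} (hL : L ∈ Icc 0 (π / 6)) :
    IsFiniteMeasure (mm lam L) := by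
  have h1 := fin_a (lam := lam) L
  have h2 := isFiniteMeasure_withDensity_ofReal (integrable_FF hl hL).hasFiniteIntegral
  unfold mm
  infer_instance

lemma integrable_bdd {α : Type} [MeasurableSpace α] {m : Measure α} [IsFiniteMeasure m]
    {φ : α → ℝ} (hφ : Measurable φ) {C : ℝ} (hC : ∀ s, |φ s| ≤ C) : Integrable φ m :=
  Integrable.mono' (integrable_const C) hφ.aestronglyMeasurable (Eventually.of_forall hC)

lemma integrable_gg_a (L : ℝ) {φ : ℝ → ℝ} (hφ : Measurable φ) {C : ℝ} (hC : ∀ s, |φ s| ≤ C) :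
    Integrable ((HL L).indicator
      (fun x => 2 * sin (Complex.arg x / 2) * φ (Complex.arg x))) lam := by
  refine Integrable.indicator ?_ (measurableSet_HL L)
  refine integrable_bdd (measurable_w.mul (hφ.comp Complex.measurable_arg)) (C := 2 * C) fun x => ?_
  rw [abs_mul, abs_mul, abs_two]
  have h1 := abs_sin_le_one (Complex.arg x / 2)
  have h2 := hC (Complex.arg x)
  have h3 := abs_nonneg (φ (Complex.arg x))
  nlinarith

lemma integrable_FFφ (hl : ∀ᵐ x ∂lam, x ∈ Gam) {L : ℝ} (hL : L ∈ Icc 0 (π / 6)) {φ : ℝ → ℝ}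
    (hφ : Measurable φ) {C : ℝ} (hC : ∀ s, |φ s| ≤ C) :
    Integrable (fun p : ℂ × ℝ => sin (p.2 / 2) * kk p.1 p.2 * φ p.2)
      (lam.prod (volume.restrict (Ioc 0 L))) :=
  (integrable_FF hl hL).mul_bdd (c := C) (hφ.comp measurable_snd).aestronglyMeasurable
    (Eventually.of_forall fun p => hC p.2)

lemma integrable_gg (hl : ∀ᵐ x ∂lam, x ∈ Gam) {L : ℝ} (hL : L ∈ Icc 0 (π / 6)) {φ : ℝ → ℝ}
    (hφ : Measurable φ) {C : ℝ} (hC : ∀ s, |φ s| ≤ C) : Integrable (gg L φ) lam :=
  (integrable_gg_a L hφ hC).add (integrable_FFφ hl hL hφ hC).integral_prod_left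

lemma integral_mm (hl : ∀ᵐ x ∂lam, x ∈ Gam) {L : ℝ} (hL : L ∈ Icc 0 (π / 6)) {φ : ℝ → ℝ}
    (hφ : Measurable φ) {C : ℝ} (hC : ∀ s, |φ s| ≤ C) :
    ∫ s, φ s ∂(mm lam L) = ∫ x, gg L φ x ∂lam := by
  have h1 := fin_a (lam := lam) L
  have h2 := isFiniteMeasure_withDensity_ofReal (integrable_FF hl hL).hasFiniteIntegral
  unfold mm gg
  rw [integral_add_measure (integrable_bdd hφ hC) (integrable_bdd hφ hC),
    integral_add (integrable_gg_a L hφ hC) (integrable_FFφ hl hL hφ hC).integral_prod_left,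
    integral_map Complex.measurable_arg.aemeasurable hφ.aestronglyMeasurable,
    integral_map measurable_snd.aemeasurable hφ.aestronglyMeasurable,
    integral_withDensity_eq_integral_toReal_smul measurable_w.ennreal_ofReal
      (Eventually.of_forall fun _ => ENNReal.ofReal_lt_top),
    integral_withDensity_eq_integral_toReal_smul measurable_FF.ennreal_ofReal
      (Eventually.of_forall fun _ => ENNReal.ofReal_lt_top),
    integral_indicator (measurableSet_HL L), ← integral_prod _ (integrable_FFφ hl hL hφ hC)]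
  congr 1
  · refine setIntegral_congr_fun (measurableSet_HL L) fun x hx => ?_
    have := (half_bounds ⟨hx.2.1.le, hx.2.2.trans hL.2⟩).1
    simp only [smul_eq_mul]
    rw [ENNReal.toReal_ofReal (by linarith)]
  · refine integral_congr_ae ?_
    have h3 : ∀ᵐ p ∂(lam.prod (volume.restrict (Ioc 0 L))), p.2 ∈ Ioc 0 L :=
      Measure.quasiMeasurePreserving_snd.ae (ae_restrict_mem measurableSet_Ioc)
    filter_upwards [h3] with p hp
    rw [ENNReal.toReal_ofReal (FF_nonneg hL p.1 hp), smul_eq_mul]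

lemma gg_Iic {L β : ℝ} (hL : L ∈ Icc 0 (π / 6)) (hβ : β ∈ Icc 0 L) {x : ℂ} (hx : x ≠ yy β) :
    gg L ((Iic β).indicator 1) x = psi x β - psi x 0 := by
  rw [psi_sub ⟨hβ.1, hβ.2.trans hL.2⟩ hx]
  unfold gg
  congr 1
  · by_cases h1 : x ∈ HL β
    · rw [indicator_of_mem h1, indicator_of_mem (show x ∈ HL L from
        ⟨h1.1, h1.2.1, h1.2.2.trans hβ.2⟩), indicator_of_mem (show _ ∈ Iic β from h1.2.2)]
      simp
    · rw [indicator_of_notMem h1]
      by_cases h2 : x ∈ HL L
      · rw [indicator_of_mem h2, indicator_of_notMem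
          (show Complex.arg x ∉ Iic β from fun h => h1 ⟨h2.1, h2.2.1, h⟩), mul_zero]
      · rw [indicator_of_notMem h2]
  · have : ∀ s, sin (s / 2) * kk x s * (Iic β).indicator 1 s =
        (Iic β).indicator (fun s => sin (s / 2) * kk x s) s := by
      intro s; by_cases h : s ∈ Iic β <;> simp [h]
    simp only [this]
    rw [setIntegral_indicator measurableSet_Iic, Ioc_inter_Iic, min_eq_right hβ.2]

lemma integrable_d1 (s : ℝ) : Integrable (fun x => d1 x s) lam :=
  integrable_bdd (measurable_d1.comp (measurable_prodMk_right)) fun x => abs_d1_le_one x s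

lemma one_sided (hl : ∀ᵐ x ∂lam, x ∈ Gam) {β : ℝ} (hmax : IsLocalMax (fun s => pot lam (yy s)) β)
    {ε : ℝ} (hε : ε = 1 ∨ ε = -1) : ε * ∫ x, d1 x β ∂lam + lam.real {yy β} ≤ 0 := by
  have hε0 : ε ≠ 0 := by rcases hε with h | h <;> rw [h] <;> norm_num
  have hε1 : |ε| = 1 := by rcases hε with h | h <;> rw [h] <;> norm_num
  let u : ℕ → ℝ := fun n => 1 / ((n : ℝ) + 1)
  have hu0 : ∀ n, 0 < u n := fun n => by positivity
  have hu : Tendsto u atTop (𝓝 0) := tendsto_one_div_add_atTop_nhds_zero_nat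
  have hεu : Tendsto (fun n => ε * u n) atTop (𝓝 0) := by simpa using hu.const_mul ε
  have hεu' : Tendsto (fun n => ε * u n) atTop (𝓝[≠] 0) :=
    tendsto_nhdsWithin_iff.mpr ⟨hεu, Eventually.of_forall fun n => mul_ne_zero hε0 (hu0 n).ne'⟩
  have hu' : Tendsto u atTop (𝓝[≠] 0) :=
    tendsto_nhdsWithin_iff.mpr ⟨hu, Eventually.of_forall fun n => (hu0 n).ne'⟩
  have hlim : Tendsto (fun n => ∫ x, (u n)⁻¹ * (dd x (β + ε * u n) - dd x β) ∂lam) atTop
      (𝓝 (∫ x, ε * d1 x β + ({yy β} : Set ℂ).indicator 1 x ∂lam)) := by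
    refine tendsto_integral_of_dominated_convergence (fun _ => 1) (fun n => ?_)
      (integrable_const _) (fun n => Eventually.of_forall fun x => ?_)
      (Eventually.of_forall fun x => ?_)
    · exact (((continuous_dd_x _).sub (continuous_dd_x _)).const_mul _).aestronglyMeasurable
    · have := abs_dd_sub_le x (β + ε * u n) β
      rw [add_sub_cancel_left, abs_mul, hε1, one_mul, abs_of_pos (hu0 n)] at this
      rw [Real.norm_eq_abs, abs_mul, abs_inv, abs_of_pos (hu0 n), inv_mul_le_iff₀ (hu0 n)]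
      linarith
    · by_cases hx : x = yy β
      · subst hx
        have hd : HasDerivAt (fun t : ℝ => 2 * sin (t / 2)) 1 0 := by
          have := (((hasDerivAt_id (0 : ℝ)).div_const 2).sin).const_mul 2
          exact this.congr_deriv (by simp)
        have h2 := (hasDerivAt_iff_tendsto_slope_zero.mp hd).comp hu'
        have h3 : d1 (yy β) β = 0 := by simp [d1, dd]
        simp only [h3, mul_zero, zero_add, indicator_of_mem (mem_singleton _), Pi.one_apply]
        refine h2.congr fun n => ?_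
        have h4 : 0 ≤ sin (u n / 2) := by
          apply sin_nonneg_of_nonneg_of_le_pi (by linarith [hu0 n])
          have : u n ≤ 1 := by
            simp only [u]; rw [div_le_one (by positivity)]; linarith [Nat.cast_nonneg (α := ℝ) n]
          linarith [pi_gt_three]
        have h5 : |sin (ε * u n / 2)| = sin (u n / 2) := by
          rcases hε with h | h <;> rw [h]
          · rw [one_mul, abs_of_nonneg h4]
          · rw [show -1 * u n / 2 = -(u n / 2) by ring, sin_neg, abs_neg, abs_of_nonneg h4]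
        simp only [Function.comp, dd_yy, add_sub_cancel_left, h5, smul_eq_mul]
        simp
      · have hd : dd x β ≠ 0 := fun h => hx (dist_eq_zero.mp h)
        have h2 := ((hasDerivAt_iff_tendsto_slope_zero.mp (hasDerivAt_dd x β hd)).comp hεu').const_mul ε
        rw [indicator_of_notMem (by simpa using hx), add_zero]
        refine h2.congr fun n => ?_
        simp only [Function.comp, smul_eq_mul]
        field_simp
  have hi : Integrable (({yy β} : Set ℂ).indicator (1 : ℂ → ℝ)) lam :=
    (integrable_const (1 : ℝ)).indicator (measurableSet_singleton _)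
  rw [integral_add ((integrable_d1 β).const_mul ε) hi, integral_const_mul,
    integral_indicator_one (measurableSet_singleton _)] at hlim
  refine le_of_tendsto hlim ?_
  have h3 : Tendsto (fun n => β + ε * u n) atTop (𝓝 β) := by simpa using hεu.const_add β
  filter_upwards [h3.eventually hmax] with n hn
  unfold dd
  rw [integral_const_mul, integral_sub (integrable_dist isCompact_Gam hl _)
    (integrable_dist isCompact_Gam hl _)]
  exact mul_nonpos_of_nonneg_of_nonpos (inv_nonneg.mpr (hu0 n).le) (sub_nonpos.mpr hn)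

lemma local_max (hl : ∀ᵐ x ∂lam, x ∈ Gam) {β : ℝ}
    (hmax : IsLocalMax (fun s => pot lam (yy s)) β) :
    lam {yy β} = 0 ∧ ∫ x, d1 x β ∂lam = 0 := by
  have h1 := one_sided hl hmax (Or.inl rfl)
  have h2 := one_sided hl hmax (Or.inr rfl)
  have h3 : 0 ≤ lam.real {yy β} := measureReal_nonneg
  refine ⟨(measureReal_eq_zero_iff (measure_ne_top _ _)).mp (by linarith), by linarith⟩

lemma mm_Iic (hl : ∀ᵐ x ∂lam, x ∈ Gam) {L β a : ℝ} (hL : L ∈ Icc 0 (π / 6)) (hβ : β ∈ Icc 0 L)
    (h0 : pot lam (yy 0) = a) (h1 : pot lam (yy β) = a)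
    (hmax : 0 < β → IsLocalMax (fun s => pot lam (yy s)) β) :
    (mm lam L).real (Iic β) = a * (1 - cos (β / 2)) / 2 := by
  rw [← integral_indicator_one measurableSet_Iic,
    integral_mm hl hL (measurable_one.indicator measurableSet_Iic) (C := 1)
      (fun s => by by_cases h : s ∈ Iic β <;> simp [h])]
  rcases hβ.1.eq_or_lt with h | h
  · subst h
    have : ∀ x, gg L ((Iic 0).indicator 1) x = 0 := by
      intro x
      by_cases hx : x = yy 0
      · unfold gg
        rw [indicator_of_notMem, zero_add]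
        · simp [hx, kk_of_norm _ _ (norm_yy 0)]
        · intro h
          have := h.2.1
          rw [hx, arg_yy ⟨by linarith [pi_pos], pi_pos.le⟩] at this
          exact lt_irrefl _ this
      · rw [gg_Iic hL hβ hx, sub_self]
    simp [this]
  · obtain ⟨h2, h3⟩ := local_max hl (hmax h)
    have h4 : ∀ᵐ x ∂lam, gg L ((Iic β).indicator 1) x =
        d1 x β * sin (β / 2) - (dist x (yy β) * (cos (β / 2) / 2) - dist x (yy 0) * (1 / 2)) := by
      have : ∀ᵐ x ∂lam, x ∉ ({yy β} : Set ℂ) := measure_eq_zero_iff_ae_notMem.mp h2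
      filter_upwards [this] with x hx
      rw [gg_Iic hL hβ (by simpa using hx), psi_zero, psi, dd, dd]; ring
    have h5 : Integrable
        (fun x => dist x (yy β) * (cos (β / 2) / 2) - dist x (yy 0) * (1 / 2)) lam :=
      ((integrable_dist isCompact_Gam hl _).mul_const _).sub
        ((integrable_dist isCompact_Gam hl _).mul_const _)
    rw [integral_congr_ae h4, integral_sub ((integrable_d1 β).mul_const _) h5,
      integral_sub ((integrable_dist isCompact_Gam hl _).mul_const _)
        ((integrable_dist isCompact_Gam hl _).mul_const _),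
      integral_mul_const, integral_mul_const, integral_mul_const, h3]
    unfold pot at h0 h1
    rw [h0, h1]; ring

lemma mm_compl (lam : Measure ℂ) (L : ℝ) : mm lam L (Ioc 0 L)ᶜ = 0 := by
  unfold mm
  rw [Measure.add_apply, Measure.map_apply Complex.measurable_arg measurableSet_Ioc.compl,
    Measure.map_apply measurable_snd measurableSet_Ioc.compl, add_eq_zero]
  constructor
  · apply withDensity_absolutelyContinuous
    rw [Measure.restrict_apply (Complex.measurable_arg measurableSet_Ioc.compl)]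
    convert measure_empty (μ := lam)
    ext x
    simp only [mem_inter_iff, mem_preimage, mem_compl_iff, mem_empty_iff_false, iff_false, not_and]
    exact fun h h2 => h h2.2
  · apply withDensity_absolutelyContinuous
    have h3 : ∀ᵐ p ∂(lam.prod (volume.restrict (Ioc 0 L))), p.2 ∈ Ioc 0 L :=
      Measure.quasiMeasurePreserving_snd.ae (ae_restrict_mem measurableSet_Ioc)
    exact ae_iff.mp h3

end Pool.Agent.Lib.MP_55cb2c_co
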