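import Mathlib

namespace Pool.Agent.Lib.MP_55cb2c_co

/-- The rendezvous value `a(E)`: the supremum, over all finite families `x₁, …, xₙ` of points of
`E`, of the minimum over `y ∈ E` of the average distance from `y` to the `xᵢ`. -/
noncomputable def rdv {X : Type} [MetricSpace X] (E : Set X) : ℝ :=
  sSup {r : ℝ | ∃ (n : ℕ) (x : Fin n → X), 0 < n ∧ (∀ i, x i ∈ E) ∧
    r = sInf ((fun y => (∑ i, dist (x i) y) / (n : ℝ)) '' E)}

/-- The maximal average distance `b(E)`: the supremum, over all finite families `x₁, …, xₙ` of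
points of `E`, of the average of all the distances `|xᵢ - xⱼ|`. -/
noncomputable def avg {X : Type} [MetricSpace X] (E : Set X) : ℝ :=
  sSup {r : ℝ | ∃ (n : ℕ) (x : Fin n → X), 0 < n ∧ (∀ i, x i ∈ E) ∧
    r = (∑ i, ∑ j, dist (x i) (x j)) / (n : ℝ) ^ 2}

end Pool.Agent.Lib.MP_55cb2c_co
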