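import Pool.Agent.Lib.MP_55cb2c_co.Game

/-! Potentials, energy, sampling, and the negative type of the Euclidean distance. -/

namespace Pool.Agent.Lib.MP_55cb2c_co

open Set MeasureTheory ProbabilityTheory Real

noncomputable def pot (μ : Measure ℂ) (y : ℂ) : ℝ := ∫ x, dist x y ∂μ
noncomputable def en (μ : Measure ℂ) : ℝ := ∫ y, pot μ y ∂μ

lemma integrable_of_cont {Y : Type} [TopologicalSpace Y] [MeasurableSpace Y] [T2Space Y]
    [OpensMeasurableSpace Y] {μ : Measure Y} [IsFiniteMeasure μ] {E : Set Y} (hE : IsCompact E)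
    (hμ : ∀ᵐ x ∂μ, x ∈ E) {f : Y → ℝ} (hf : Continuous f) : Integrable f μ := by
  have := hf.continuousOn.integrableOn_compact hE (μ := μ)
  rwa [IntegrableOn, Measure.restrict_eq_self_of_ae_mem hμ] at this

variable {μ : Measure ℂ} {E : Set ℂ}

lemma integrable_dist [IsFiniteMeasure μ] (hE : IsCompact E) (hμ : ∀ᵐ x ∂μ, x ∈ E) (y : ℂ) :
    Integrable (fun x => dist x y) μ := integrable_of_cont hE hμ (by fun_prop)

lemma abs_pot_sub_le [IsProbabilityMeasure μ] (hE : IsCompact E) (hμ : ∀ᵐ x ∂μ, x ∈ E)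
    (y z : ℂ) : |pot μ y - pot μ z| ≤ dist y z := by
  unfold pot
  rw [← integral_sub (integrable_dist hE hμ y) (integrable_dist hE hμ z)]
  have := norm_integral_le_of_norm_le_const (μ := μ) (f := fun x => dist x y - dist x z)
    (C := dist y z) (Filter.Eventually.of_forall fun x => by
      rw [dist_comm x, dist_comm x]; exact abs_dist_sub_le _ _ _)
  simpa using this

lemma continuous_pot [IsProbabilityMeasure μ] (hE : IsCompact E) (hμ : ∀ᵐ x ∂μ, x ∈ E) :
    Continuous (pot μ) := by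
  have : LipschitzWith 1 (pot μ) := LipschitzWith.of_dist_le_mul fun y z => by
    simpa [Real.dist_eq] using abs_pot_sub_le hE hμ y z
  exact this.continuous

lemma ae_prod_mem {ν : Measure ℂ} [IsFiniteMeasure μ] [IsFiniteMeasure ν] (hμ : ∀ᵐ x ∂μ, x ∈ E)
    (hν : ∀ᵐ x ∂ν, x ∈ E) : ∀ᵐ p ∂(μ.prod ν), p ∈ E ×ˢ E := by
  have h1 := (Measure.quasiMeasurePreserving_fst (μ := μ) (ν := ν)).ae hμ
  have h2 := (Measure.quasiMeasurePreserving_snd (μ := μ) (ν := ν)).ae hν
  filter_upwards [h1, h2] with p a b using ⟨a, b⟩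

lemma integral_pot_comm {ν : Measure ℂ} [IsFiniteMeasure μ] [IsFiniteMeasure ν] (hE : IsCompact E)
    (hμ : ∀ᵐ x ∂μ, x ∈ E) (hν : ∀ᵐ x ∂ν, x ∈ E) :
    ∫ y, pot μ y ∂ν = ∫ y, pot ν y ∂μ := by
  unfold pot
  have hi : Integrable (Function.uncurry fun y x : ℂ => dist x y) (ν.prod μ) :=
    integrable_of_cont (hE.prod hE) (ae_prod_mem hν hμ) (by
      show Continuous fun p : ℂ × ℂ => dist p.2 p.1
      fun_prop)
  rw [integral_integral_swap hi]
  simp only [dist_comm]

section sampling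

variable [IsProbabilityMeasure μ] {n : ℕ}

lemma ae_pi_mem (hμ : ∀ᵐ x ∂μ, x ∈ E) :
    ∀ᵐ ω ∂(Measure.pi fun _ : Fin n => μ), ∀ i, ω i ∈ E := by
  rw [ae_all_iff]
  intro i
  exact (Measure.quasiMeasurePreserving_eval (fun _ : Fin n => μ) i).ae hμ

lemma integrable_pi (hE : IsCompact E) (hμ : ∀ᵐ x ∂μ, x ∈ E) {f : (Fin n → ℂ) → ℝ}
    (hf : Continuous f) : Integrable f (Measure.pi fun _ : Fin n => μ) :=
  integrable_of_cont (isCompact_univ_pi fun _ : Fin n => hE)
    ((ae_pi_mem hμ).mono fun _ h i _ => h i) hf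

lemma integral_pi_single (i : Fin n) (y : ℂ) :
    ∫ ω, dist (ω i) y ∂(Measure.pi fun _ : Fin n => μ) = pot μ y := by
  have h := measurePreserving_eval (fun _ : Fin n => μ) i
  unfold pot
  conv_rhs => rw [← h.map_eq]
  rw [integral_map h.measurable.aemeasurable (by fun_prop)]

lemma integral_pi_pair (hE : IsCompact E) (hμ : ∀ᵐ x ∂μ, x ∈ E) {i j : Fin n} (hij : i ≠ j) :
    ∫ ω, dist (ω i) (ω j) ∂(Measure.pi fun _ : Fin n => μ) = en μ := by
  have hind := (iIndepFun_pi (μ := fun _ : Fin n => μ) (X := fun _ => id)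
    (fun _ => aemeasurable_id)).indepFun hij
  have hi := measurePreserving_eval (fun _ : Fin n => μ) i
  have hj := measurePreserving_eval (fun _ : Fin n => μ) j
  have hmap := (indepFun_iff_map_prod_eq_prod_map_map hi.measurable.aemeasurable
    hj.measurable.aemeasurable).mp hind
  rw [hi.map_eq, hj.map_eq] at hmap
  have h1 : ∫ ω, dist (ω i) (ω j) ∂(Measure.pi fun _ : Fin n => μ) =
      ∫ p : ℂ × ℂ, dist p.1 p.2 ∂(μ.prod μ) := by
    rw [← hmap, integral_map (by fun_prop) (by fun_prop)]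
  rw [h1, integral_prod_symm _
    (integrable_of_cont (hE.prod hE) (ae_prod_mem hμ hμ) (by fun_prop))]
  rfl

lemma integral_pi_sum (hE : IsCompact E) (hμ : ∀ᵐ x ∂μ, x ∈ E) :
    ∫ ω, ∑ i, ∑ j, dist (ω i) (ω j) ∂(Measure.pi fun _ : Fin n => μ) =
      ((n : ℝ) ^ 2 - n) * en μ := by
  rw [integral_finsetSum _ fun i _ => integrable_pi hE hμ (by fun_prop)]
  have : ∀ i : Fin n, ∫ ω, ∑ j, dist (ω i) (ω j) ∂(Measure.pi fun _ : Fin n => μ) =
      ((n : ℝ) - 1) * en μ := by
    intro i
    rw [integral_finsetSum _ fun j _ => integrable_pi hE hμ (by fun_prop)]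
    have h2 : ∀ j : Fin n, ∫ ω, dist (ω i) (ω j) ∂(Measure.pi fun _ : Fin n => μ) =
        en μ - if i = j then en μ else 0 := by
      intro j
      by_cases h : i = j
      · subst h; simp
      · rw [integral_pi_pair hE hμ h]; simp [h]
    simp only [h2, Finset.sum_sub_distrib, Finset.sum_const, Finset.card_univ, Fintype.card_fin,
      nsmul_eq_mul, Finset.sum_ite_eq, Finset.mem_univ, if_true]
    ring
  simp only [this, Finset.sum_const, Finset.card_univ, Fintype.card_fin, nsmul_eq_mul]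
  ring

end sampling

theorem pot_le_avg [IsProbabilityMeasure μ] (hE : IsCompact E) (hμ : ∀ᵐ x ∂μ, x ∈ E)
    (h : avg E ≤ en μ) {y : ℂ} (hy : y ∈ E) : pot μ y ≤ avg E := by
  have hb : 0 ≤ avg E := by
    have := le_avg hE (fun _ : Fin 1 => y) (fun _ => hy)
    simpa using this
  have key : ∀ m : ℕ, 0 < m → pot μ y ≤ avg E + avg E * (1 / (m : ℝ)) := by
    intro m hm
    have hm' : (0 : ℝ) < m := by exact_mod_cast hm
    have hne : Nonempty (Fin (m ^ 2) ⊕ Fin m) := ⟨Sum.inr ⟨0, hm⟩⟩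
    have h1 : ∀ᵐ ω ∂(Measure.pi fun _ : Fin (m ^ 2) => μ),
        ∑ i, ∑ j, dist (ω i) (ω j) + 2 * m * ∑ i, dist (ω i) y ≤ avg E * (m ^ 2 + m) ^ 2 := by
      filter_upwards [ae_pi_mem hμ] with ω hω
      have := le_avg hE (Sum.elim ω (fun _ : Fin m => y)) (by rintro (i | i) <;> simp [hω, hy])
      rw [div_le_iff₀ (by simp; positivity)] at this
      simp only [Fintype.sum_sum_type, Sum.elim_inl, Sum.elim_inr, Finset.sum_add_distrib,
        Finset.sum_const, Finset.card_univ, Fintype.card_fin, nsmul_eq_mul, dist_self,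
        Fintype.card_sum, dist_comm y] at this
      rw [← Finset.mul_sum] at this
      push_cast at this
      linarith
    have h2 := integral_mono_ae (integrable_pi hE hμ (by fun_prop)) (integrable_const _) h1
    rw [integral_add (integrable_pi hE hμ (by fun_prop)) (integrable_pi hE hμ (by fun_prop)),
      integral_pi_sum hE hμ, integral_const_mul,
      integral_finsetSum _ fun i _ => integrable_pi hE hμ (by fun_prop)] at h2
    simp only [integral_pi_single, Finset.sum_const, Finset.card_univ, Fintype.card_fin,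
      nsmul_eq_mul, integral_const, probReal_univ, smul_eq_mul, one_mul] at h2
    push_cast at h2
    have hm1 : (1 : ℝ) ≤ m := by exact_mod_cast hm
    have h3 : (((m : ℝ) ^ 2) ^ 2 - m ^ 2) * avg E ≤ (((m : ℝ) ^ 2) ^ 2 - m ^ 2) * en μ :=
      mul_le_mul_of_nonneg_left h (by nlinarith)
    have h4 : 2 * (m : ℝ) ^ 3 * pot μ y ≤ 2 * (m : ℝ) ^ 3 * (avg E + avg E * (1 / (m : ℝ))) := by
      have e : 2 * (m : ℝ) ^ 3 * (avg E + avg E * (1 / (m : ℝ))) =
          avg E * (2 * m ^ 3 + 2 * m ^ 2) := by field_simp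
      rw [e]; nlinarith
    exact le_of_mul_le_mul_left h4 (by positivity)
  have hlim : Filter.Tendsto (fun m : ℕ => avg E + avg E * (1 / (m : ℝ))) Filter.atTop
      (nhds (avg E + avg E * 0)) :=
    (tendsto_one_div_atTop_nhds_zero_nat.const_mul _).const_add _
  rw [mul_zero, add_zero] at hlim
  refine ge_of_tendsto hlim ?_
  filter_upwards [Filter.eventually_gt_atTop 0] with m hm using key m hm

lemma negtype_real {ι : Type} [Fintype ι] (c : ι → ℝ) (hc : ∑ i, c i = 0) (u : ι → ℝ) :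
    ∑ i, ∑ j, c i * c j * |u i - u j| ≤ 0 := by
  let f : ι → ι → ℝ → ℝ := fun i j => (Ico (min (u i) (u j)) (max (u i) (u j))).indicator 1
  have hint : ∀ i j, Integrable (f i j) := fun i j =>
    (integrable_indicator_iff measurableSet_Ico).mpr (integrableOn_const (by simp))
  have hval : ∀ i j, ∫ r, f i j r = |u i - u j| := by
    intro i j
    simp only [f]
    rw [integral_indicator_one measurableSet_Ico, Real.volume_real_Ico,
      max_eq_left (by simp), max_sub_min_eq_abs, abs_sub_comm]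
  let p : ι → ℝ → ℝ := fun i r => if r < u i then 1 else 0
  have hf : ∀ i j r, f i j r = (p i r - p j r) ^ 2 := by
    intro i j r
    simp only [f, p, indicator, mem_Ico, min_le_iff, lt_max_iff, Pi.one_apply]
    by_cases h1 : r < u i <;> by_cases h2 : r < u j <;> simp [h1, h2, not_lt.mp, not_le.mpr]
  have h1 : ∑ i, ∑ j, c i * c j * |u i - u j| = ∫ r, ∑ i, ∑ j, c i * c j * f i j r := by
    rw [integral_finsetSum _ fun i _ =>
      integrable_finsetSum _ fun j _ => (hint i j).const_mul _]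
    refine Finset.sum_congr rfl fun i _ => ?_
    rw [integral_finsetSum _ fun j _ => (hint i j).const_mul _]
    exact Finset.sum_congr rfl fun j _ => by rw [integral_const_mul, hval]
  rw [h1]
  refine integral_nonpos fun r => ?_
  have h2 : ∑ i, ∑ j, c i * c j * f i j r = -2 * (∑ i, c i * p i r) ^ 2 := by
    have e : ∀ i j, c i * c j * f i j r =
        c i * p i r ^ 2 * c j + c i * (c j * p j r ^ 2) - 2 * ((c i * p i r) * (c j * p j r)) := by
      intro i j; rw [hf]; ring
    simp only [e, Finset.sum_sub_distrib, Finset.sum_add_distrib, ← Finset.mul_sum,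
      ← Finset.sum_mul, hc]
    ring
  simp only [h2, Pi.zero_apply]
  nlinarith [sq_nonneg (∑ i, c i * p i r)]

lemma integral_abs_proj (z : ℂ) :
    ∫ θ in (0 : ℝ)..2 * π, |z.re * cos θ + z.im * sin θ| =
      ‖z‖ * ∫ θ in (0 : ℝ)..2 * π, |cos θ| := by
  have e : ∀ θ, |z.re * cos θ + z.im * sin θ| = ‖z‖ * |cos (θ - z.arg)| := by
    intro θ
    rw [cos_sub, ← Complex.norm_mul_cos_arg z, ← Complex.norm_mul_sin_arg z,
      ← abs_of_nonneg (norm_nonneg z), ← abs_mul, abs_of_nonneg (norm_nonneg z)]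
    congr 1; ring
  simp only [e]
  rw [intervalIntegral.integral_const_mul,
    intervalIntegral.integral_comp_sub_right (fun θ => |cos θ|)]
  have hp : Function.Periodic (fun θ => |cos θ|) (2 * π) := fun θ => by simp
  have := hp.intervalIntegral_add_eq (0 - z.arg) 0
  rw [zero_add] at this
  rw [show 2 * π - z.arg = 0 - z.arg + 2 * π by ring, this]

lemma negtype {ι : Type} [Fintype ι] (c : ι → ℝ) (hc : ∑ i, c i = 0) (x : ι → ℂ) :
    ∑ i, ∑ j, c i * c j * dist (x i) (x j) ≤ 0 := by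
  have hk : 0 < ∫ θ in (0 : ℝ)..2 * π, |cos θ| := by
    have h1 : ∫ θ in (0 : ℝ)..2 * π, cos θ ^ 2 ≤ ∫ θ in (0 : ℝ)..2 * π, |cos θ| := by
      apply intervalIntegral.integral_mono_on (by positivity)
        ((by fun_prop : Continuous fun θ => cos θ ^ 2).intervalIntegrable _ _)
        ((by fun_prop : Continuous fun θ => |cos θ|).intervalIntegrable _ _)
      intro θ _
      rw [← sq_abs]
      nlinarith [abs_cos_le_one θ, abs_nonneg (cos θ)]
    rw [integral_cos_sq] at h1
    simp only [sin_two_pi, sin_zero, mul_zero] at h1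
    linarith [pi_pos]
  let u : ι → ℝ → ℝ := fun i θ => (x i).re * cos θ + (x i).im * sin θ
  have h1 : (∑ i, ∑ j, c i * c j * dist (x i) (x j)) * ∫ θ in (0 : ℝ)..2 * π, |cos θ| =
      ∫ θ in (0 : ℝ)..2 * π, ∑ i, ∑ j, c i * c j * |u i θ - u j θ| := by
    rw [intervalIntegral.integral_finsetSum fun i _ =>
      (by fun_prop : Continuous fun θ => ∑ j, c i * c j * |u i θ - u j θ|).intervalIntegrable _ _,
      Finset.sum_mul]
    refine Finset.sum_congr rfl fun i _ => ?_
    rw [intervalIntegral.integral_finsetSum fun j _ =>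
      (by fun_prop : Continuous fun θ => c i * c j * |u i θ - u j θ|).intervalIntegrable _ _,
      Finset.sum_mul]
    refine Finset.sum_congr rfl fun j _ => ?_
    rw [intervalIntegral.integral_const_mul, mul_assoc, dist_eq_norm, ← integral_abs_proj]
    congr 2
    funext θ
    simp only [u, Complex.sub_re, Complex.sub_im]
    congr 1; ring
  have h2 : ∫ θ in (0 : ℝ)..2 * π, ∑ i, ∑ j, c i * c j * |u i θ - u j θ| ≤ 0 := by
    rw [← neg_nonneg, ← intervalIntegral.integral_neg]
    exact intervalIntegral.integral_nonneg (by positivity) fun θ _ =>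
      neg_nonneg.mpr (negtype_real c hc fun i => u i θ)
  rw [← h1] at h2
  by_contra hcon
  push Not at hcon
  linarith [mul_pos hcon hk]

theorem avg_le_of_pot [IsProbabilityMeasure μ] (hE : IsCompact E) (hne : E.Nonempty)
    (hμ : ∀ᵐ x ∂μ, x ∈ E) {a : ℝ} (h1 : ∀ y ∈ E, pot μ y ≤ a) (h2 : en μ = a) : avg E ≤ a := by
  refine avg_le hne a fun n x hn hx => ?_
  have hn' : (0 : ℝ) < n := by exact_mod_cast hn
  have key : ∀ m : ℕ, 0 < m →
      (∑ i, ∑ j, dist (x i) (x j)) / (n : ℝ) ^ 2 ≤ a + a * (1 / (m : ℝ)) := by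
    intro m hm
    have hm' : (0 : ℝ) < m := by exact_mod_cast hm
    have h3 : ∀ ω : Fin m → ℂ, (∑ i, ∑ j, dist (x i) (x j)) / (n : ℝ) ^ 2 +
        (1 / (m : ℝ) ^ 2) * ∑ i, ∑ j, dist (ω i) (ω j) ≤
        2 / ((n : ℝ) * m) * ∑ i, ∑ j, dist (ω j) (x i) := by
      intro ω
      have := negtype (Sum.elim (fun _ : Fin n => 1 / (n : ℝ)) (fun _ : Fin m => -(1 / (m : ℝ))))
        (by simp [Fintype.sum_sum_type]; field_simp; ring) (Sum.elim x ω)
      simp only [Fintype.sum_sum_type, Sum.elim_inl, Sum.elim_inr, Finset.sum_add_distrib,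
        ← Finset.mul_sum] at this
      have e1 : ∑ i, ∑ j, dist (x i) (ω j) = ∑ i, ∑ j, dist (ω j) (x i) := by
        simp only [dist_comm]
      have e2 : ∑ j, ∑ i, dist (ω j) (x i) = ∑ i, ∑ j, dist (ω j) (x i) := Finset.sum_comm
      rw [e1, e2] at this
      have e3 : (∑ i, ∑ j, dist (x i) (x j)) / (n : ℝ) ^ 2 =
          1 / (n : ℝ) * (1 / n) * ∑ i, ∑ j, dist (x i) (x j) := by field_simp
      have e4 : 1 / (m : ℝ) ^ 2 = -(1 / (m : ℝ)) * -(1 / m) := by field_simp
      have e5 : 2 / ((n : ℝ) * m) = -(1 / (n : ℝ) * -(1 / m)) - -(1 / (m : ℝ)) * (1 / n) := by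
        field_simp; ring
      rw [e3, e4, e5]
      linarith
    have h4 := integral_mono (μ := Measure.pi fun _ : Fin m => μ)
      (integrable_pi hE hμ (by fun_prop)) (integrable_pi hE hμ (by fun_prop)) h3
    rw [integral_add (integrable_const _) (integrable_pi hE hμ (by fun_prop)), integral_const_mul,
      integral_const_mul, integral_pi_sum hE hμ,
      integral_finsetSum _ fun i _ => integrable_pi hE hμ (by fun_prop)] at h4
    have h5 : ∀ i, ∫ ω, ∑ j, dist (ω j) (x i) ∂(Measure.pi fun _ : Fin m => μ) ≤ m * a := by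
      intro i
      rw [integral_finsetSum _ fun j _ => integrable_pi hE hμ (by fun_prop)]
      simp only [integral_pi_single, Finset.sum_const, Finset.card_univ, Fintype.card_fin,
        nsmul_eq_mul]
      exact mul_le_mul_of_nonneg_left (h1 _ (hx i)) hm'.le
    have h6 : ∑ i, ∫ ω, ∑ j, dist (ω j) (x i) ∂(Measure.pi fun _ : Fin m => μ) ≤ n * (m * a) := by
      calc _ ≤ ∑ _i : Fin n, (m : ℝ) * a := Finset.sum_le_sum fun i _ => h5 i
        _ = _ := by simp
    simp only [integral_const, probReal_univ, smul_eq_mul, one_mul] at h4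
    have h7 : 2 / ((n : ℝ) * m) * ∑ i, ∫ ω, ∑ j, dist (ω j) (x i)
        ∂(Measure.pi fun _ : Fin m => μ) ≤ 2 * a := by
      calc _ ≤ 2 / ((n : ℝ) * m) * (n * (m * a)) := by gcongr
        _ = 2 * a := by field_simp
    have e6 : 1 / (m : ℝ) ^ 2 * (((m : ℝ) ^ 2 - m) * en μ) = a - a * (1 / (m : ℝ)) := by
      rw [h2]; field_simp
    linarith
  have hlim : Filter.Tendsto (fun m : ℕ => a + a * (1 / (m : ℝ))) Filter.atTop
      (nhds (a + a * 0)) :=
    (tendsto_one_div_atTop_nhds_zero_nat.const_mul _).const_add _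
  rw [mul_zero, add_zero] at hlim
  refine ge_of_tendsto hlim ?_
  filter_upwards [Filter.eventually_gt_atTop 0] with m hm using key m hm

end Pool.Agent.Lib.MP_55cb2c_co
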