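import Pool.Agent.Lib.MP_55cb2c_co.Defs

/-! Optimal measures for the rendezvous game on a compact set. -/

namespace Pool.Agent.Lib.MP_55cb2c_co

open Set MeasureTheory

section finite

variable {X : Type} [MetricSpace X] {E : Set X}

lemma bddAbove_rdv (hE : IsCompact E) (hne : E.Nonempty) :
    BddAbove {r : ℝ | ∃ (n : ℕ) (x : Fin n → X), 0 < n ∧ (∀ i, x i ∈ E) ∧
      r = sInf ((fun y => (∑ i, dist (x i) y) / (n : ℝ)) '' E)} := by
  refine ⟨Metric.diam E, ?_⟩
  rintro r ⟨n, x, hn, hx, rfl⟩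
  obtain ⟨y, hy⟩ := hne
  have hb : BddBelow ((fun y => (∑ i, dist (x i) y) / (n : ℝ)) '' E) :=
    ⟨0, by rintro _ ⟨y, -, rfl⟩; positivity⟩
  refine (csInf_le hb ⟨y, hy, rfl⟩).trans ?_
  have hn' : (0 : ℝ) < n := by exact_mod_cast hn
  rw [div_le_iff₀ hn']
  calc ∑ i, dist (x i) y ≤ ∑ _i : Fin n, Metric.diam E :=
        Finset.sum_le_sum fun i _ => Metric.dist_le_diam_of_mem hE.isBounded (hx i) hy
    _ = Metric.diam E * n := by simp [mul_comm]

lemma le_rdv (hE : IsCompact E) (hne : E.Nonempty) {ι : Type} [Fintype ι] [Nonempty ι]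
    (x : ι → X) (hx : ∀ i, x i ∈ E) (c : ℝ)
    (h : ∀ y ∈ E, c ≤ (∑ i, dist (x i) y) / (Fintype.card ι : ℝ)) : c ≤ rdv E := by
  let e := (Fintype.equivFin ι).symm
  refine le_trans ?_ (le_csSup (bddAbove_rdv hE hne)
    ⟨Fintype.card ι, x ∘ e, Fintype.card_pos, fun i => hx _, rfl⟩)
  refine le_csInf (hne.image _) ?_
  rintro _ ⟨y, hy, rfl⟩
  have : ∑ i, dist ((x ∘ e) i) y = ∑ i, dist (x i) y :=
    Equiv.sum_comp e (fun i => dist (x i) y)
  simp only [this]
  exact h y hy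

lemma exists_config (hne : E.Nonempty) {ε : ℝ} (hε : 0 < ε) :
    ∃ (n : ℕ) (x : Fin n → X), 0 < n ∧ (∀ i, x i ∈ E) ∧
      ∀ y ∈ E, rdv E - ε ≤ (∑ i, dist (x i) y) / (n : ℝ) := by
  obtain ⟨y0, hy0⟩ := hne
  have hS : {r : ℝ | ∃ (n : ℕ) (x : Fin n → X), 0 < n ∧ (∀ i, x i ∈ E) ∧
      r = sInf ((fun y => (∑ i, dist (x i) y) / (n : ℝ)) '' E)}.Nonempty :=
    ⟨_, 1, fun _ => y0, one_pos, fun _ => hy0, rfl⟩
  obtain ⟨r, ⟨n, x, hn, hx, rfl⟩, hr⟩ :=
    exists_lt_of_lt_csSup hS (show rdv E - ε < rdv E by linarith)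
  refine ⟨n, x, hn, hx, fun y hy => hr.le.trans ?_⟩
  exact csInf_le ⟨0, by rintro _ ⟨y, -, rfl⟩; positivity⟩ ⟨y, hy, rfl⟩

lemma rdv_le (hne : E.Nonempty) (c : ℝ)
    (h : ∀ (n : ℕ) (x : Fin n → X), 0 < n → (∀ i, x i ∈ E) →
      ∃ y ∈ E, (∑ i, dist (x i) y) / (n : ℝ) ≤ c) : rdv E ≤ c := by
  obtain ⟨y0, hy0⟩ := hne
  refine csSup_le ⟨_, 1, fun _ => y0, one_pos, fun _ => hy0, rfl⟩ ?_
  rintro r ⟨n, x, hn, hx, rfl⟩
  obtain ⟨y, hy, hc⟩ := h n x hn hx
  refine le_trans ?_ hc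
  exact csInf_le ⟨0, by rintro _ ⟨y, -, rfl⟩; positivity⟩ ⟨y, hy, rfl⟩

lemma le_avg (hE : IsCompact E) {ι : Type} [Fintype ι] [Nonempty ι]
    (x : ι → X) (hx : ∀ i, x i ∈ E) :
    (∑ i, ∑ j, dist (x i) (x j)) / (Fintype.card ι : ℝ) ^ 2 ≤ avg E := by
  let e := (Fintype.equivFin ι).symm
  have hb : BddAbove {r : ℝ | ∃ (n : ℕ) (x : Fin n → X), 0 < n ∧ (∀ i, x i ∈ E) ∧
      r = (∑ i, ∑ j, dist (x i) (x j)) / (n : ℝ) ^ 2} := by
    refine ⟨Metric.diam E, ?_⟩
    rintro r ⟨n, x, hn, hx, rfl⟩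
    have hn' : (0 : ℝ) < n := by exact_mod_cast hn
    rw [div_le_iff₀ (by positivity)]
    calc ∑ i, ∑ j, dist (x i) (x j) ≤ ∑ _i : Fin n, ∑ _j : Fin n, Metric.diam E :=
          Finset.sum_le_sum fun i _ => Finset.sum_le_sum fun j _ =>
            Metric.dist_le_diam_of_mem hE.isBounded (hx i) (hx j)
      _ = Metric.diam E * n ^ 2 := by simp; ring
  refine le_trans (le_of_eq ?_) (le_csSup hb
    ⟨Fintype.card ι, x ∘ e, Fintype.card_pos, fun i => hx _, rfl⟩)
  congr 1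
  rw [← Equiv.sum_comp e (fun i => ∑ j, dist (x i) (x j))]
  exact Finset.sum_congr rfl fun i _ => (Equiv.sum_comp e (fun j => dist (x (e i)) (x j))).symm

lemma avg_le (hne : E.Nonempty) (c : ℝ)
    (h : ∀ (n : ℕ) (x : Fin n → X), 0 < n → (∀ i, x i ∈ E) →
      (∑ i, ∑ j, dist (x i) (x j)) / (n : ℝ) ^ 2 ≤ c) : avg E ≤ c := by
  obtain ⟨y0, hy0⟩ := hne
  refine csSup_le ⟨_, 1, fun _ => y0, one_pos, fun _ => hy0, rfl⟩ ?_
  rintro r ⟨n, x, hn, hx, rfl⟩
  exact h n x hn hx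

lemma le_rdv_weights (hE : IsCompact E) (hne : E.Nonempty) {ι : Type} [Fintype ι]
    (x : ι → X) (hx : ∀ i, x i ∈ E) (p : ι → ℝ) (hp : ∀ i, 0 ≤ p i) (hp1 : ∑ i, p i = 1) (c : ℝ)
    (h : ∀ y ∈ E, c ≤ ∑ i, p i * dist (x i) y) : c ≤ rdv E := by
  have key : ∀ N : ℕ, 0 < N → c * (N / (N + Fintype.card ι)) ≤ rdv E ∨ c ≤ 0 := by
    intro N hN
    by_cases hc : c ≤ 0
    · exact Or.inr hc
    left
    push Not at hc
    have hN' : (0 : ℝ) < N := by exact_mod_cast hN
    let k : ι → ℕ := fun i => ⌈(N : ℝ) * p i⌉₊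
    have hk1 : ∀ i, (N : ℝ) * p i ≤ k i := fun i => Nat.le_ceil _
    have hk2 : ∀ i, (k i : ℝ) ≤ N * p i + 1 := fun i =>
      (Nat.ceil_lt_add_one (mul_nonneg hN'.le (hp i))).le
    have hM1 : (N : ℝ) ≤ ∑ i, (k i : ℝ) := by
      calc (N : ℝ) = ∑ i, N * p i := by rw [← Finset.mul_sum, hp1, mul_one]
        _ ≤ _ := Finset.sum_le_sum fun i _ => hk1 i
    have hM2 : ∑ i, (k i : ℝ) ≤ N + Fintype.card ι := by
      calc ∑ i, (k i : ℝ) ≤ ∑ i, (N * p i + 1) := Finset.sum_le_sum fun i _ => hk2 i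
        _ = N + Fintype.card ι := by
          rw [Finset.sum_add_distrib, ← Finset.mul_sum, hp1]; simp
    have hcard : (Fintype.card (Σ i, Fin (k i)) : ℝ) = ∑ i, (k i : ℝ) := by simp
    have hne' : Nonempty (Σ i, Fin (k i)) := by
      apply Fintype.card_pos_iff.mp
      have : (0 : ℝ) < Fintype.card (Σ i, Fin (k i)) := by rw [hcard]; linarith
      exact_mod_cast this
    refine le_rdv hE hne (fun a : (Σ i, Fin (k i)) => x a.1) (fun a => hx _) _ fun y hy => ?_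
    rw [hcard, Fintype.sum_sigma]
    simp only [Finset.sum_const, Finset.card_univ, Fintype.card_fin, nsmul_eq_mul]
    rw [le_div_iff₀ (by linarith)]
    have h1 : c * N ≤ ∑ i, (k i : ℝ) * dist (x i) y := by
      calc c * N ≤ (∑ i, p i * dist (x i) y) * N := by gcongr; exact h y hy
        _ = ∑ i, (N * p i) * dist (x i) y := by
          rw [Finset.sum_mul]; exact Finset.sum_congr rfl fun i _ => by ring
        _ ≤ _ := Finset.sum_le_sum fun i _ => by gcongr; exact hk1 i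
    have h2 : (N / (N + Fintype.card ι) : ℝ) * ∑ i, (k i : ℝ) ≤ N := by
      rw [div_mul_eq_mul_div, div_le_iff₀ (by positivity)]
      gcongr
    nlinarith
  have h0 : 0 ≤ rdv E := by
    obtain ⟨y0, hy0⟩ := hne
    exact le_rdv hE ⟨y0, hy0⟩ (fun _ : Fin 1 => y0) (fun _ => hy0) 0 fun y _ => by positivity
  by_cases hc : c ≤ 0
  · exact hc.trans h0
  have hlim : Filter.Tendsto (fun N : ℕ => c * ((N : ℝ) / (N + Fintype.card ι))) Filter.atTop
      (nhds (c * 1)) :=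
    (tendsto_natCast_div_add_atTop (Fintype.card ι : ℝ)).const_mul c
  rw [mul_one] at hlim
  refine le_of_tendsto hlim ?_
  filter_upwards [Filter.eventually_gt_atTop 0] with N hN
  exact (key N hN).resolve_right hc

lemma exists_dual_weights (hE : IsCompact E) (hne : E.Nonempty) {ε : ℝ} (hε : 0 < ε) :
    ∃ (n : ℕ) (x : Fin n → X) (q : Fin n → ℝ), (∀ i, x i ∈ E) ∧ (∀ i, 0 ≤ q i) ∧ ∑ i, q i = 1 ∧
      ∀ y ∈ E, ∑ i, q i * dist (x i) y ≤ rdv E + ε := by
  obtain ⟨t, ht, htf, hcov⟩ := hE.finite_cover_balls (half_pos hε)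
  obtain ⟨n, x, hxr⟩ : ∃ (n : ℕ) (x : Fin n → X), range x = t := by
    obtain ⟨n, f, -, hf⟩ := htf.fin_param
    exact ⟨n, f, hf⟩
  have hx : ∀ i, x i ∈ E := fun i => ht (hxr ▸ mem_range_self i)
  have hnet : ∀ y ∈ E, ∃ i, dist (x i) y < ε / 2 := by
    intro y hy
    obtain ⟨z, hz, hyz⟩ := mem_iUnion₂.mp (hcov hy)
    rw [← hxr] at hz
    obtain ⟨i, rfl⟩ := hz
    exact ⟨i, by rw [dist_comm]; exact hyz⟩
  obtain ⟨i0, -⟩ := hnet _ hne.some_mem
  have : Nonempty (Fin n) := ⟨i0⟩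
  let f : (Fin n → ℝ) → (Fin n → ℝ) → ℝ := fun q p => ∑ i, ∑ j, q i * p j * dist (x i) (x j)
  have hlin1 : ∀ p, IsLinearMap ℝ (fun q => f q p) := fun p =>
    ⟨fun a b => by simp only [f, Pi.add_apply, add_mul, Finset.sum_add_distrib],
     fun c a => by simp only [f, Pi.smul_apply, smul_eq_mul, Finset.mul_sum, mul_assoc]⟩
  have hlin2 : ∀ q, IsLinearMap ℝ (fun p => f q p) := fun q =>
    ⟨fun a b => by simp only [f, Pi.add_apply, add_mul, mul_add, Finset.sum_add_distrib],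
     fun c a => by
      simp only [f, Pi.smul_apply, smul_eq_mul, Finset.mul_sum]
      exact Finset.sum_congr rfl fun i _ => Finset.sum_congr rfl fun j _ => by ring⟩
  have hS : (stdSimplex ℝ (Fin n)).Nonempty := ⟨_, single_mem_stdSimplex ℝ i0⟩
  obtain ⟨q, hq, p, hp, hsad⟩ := Sion.exists_isSaddlePointOn (f := f) hS
    (convex_stdSimplex ℝ (Fin n)) (isCompact_stdSimplex ℝ (Fin n))
    (fun p _ => (by fun_prop : Continuous fun q => f q p).lowerSemicontinuous.lowerSemicontinuousOn _)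
    (fun p _ => (((hlin1 p).mk' _).convexOn (convex_stdSimplex ℝ (Fin n))).quasiconvexOn)
    (convex_stdSimplex ℝ (Fin n)) hS (isCompact_stdSimplex ℝ (Fin n))
    (fun q _ => (by fun_prop : Continuous fun p => f q p).upperSemicontinuous.upperSemicontinuousOn _)
    (fun q _ => (((hlin2 q).mk' _).concaveOn (convex_stdSimplex ℝ (Fin n))).quasiconcaveOn)
  have hkey : ∀ i j, ∑ k, q k * dist (x k) (x j) ≤ ∑ k, p k * dist (x k) (x i) := by
    intro i j
    have := hsad _ (single_mem_stdSimplex ℝ i) _ (single_mem_stdSimplex ℝ j)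
    simp only [f, Pi.single_apply, mul_ite, mul_one, mul_zero, ite_mul, zero_mul, one_mul,
      Finset.sum_ite_eq', Finset.mem_univ, if_true] at this
    rw [Finset.sum_comm] at this
    simp only [Finset.sum_ite_eq', Finset.mem_univ, if_true] at this
    simpa only [dist_comm (x i)] using this
  have hlip : ∀ (r : Fin n → ℝ), (∀ i, 0 ≤ r i) → ∑ i, r i = 1 → ∀ y z : X,
      ∑ k, r k * dist (x k) y ≤ ∑ k, r k * dist (x k) z + dist z y := by
    intro r hr hr1 y z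
    calc ∑ k, r k * dist (x k) y ≤ ∑ k, r k * (dist (x k) z + dist z y) :=
          Finset.sum_le_sum fun k _ => mul_le_mul_of_nonneg_left (dist_triangle _ _ _) (hr k)
      _ = _ := by
          simp only [mul_add, Finset.sum_add_distrib]
          rw [← Finset.sum_mul, hr1, one_mul]
  refine ⟨n, x, q, hx, hq.1, hq.2, fun y hy => ?_⟩
  obtain ⟨j, hj⟩ := hnet y hy
  have h1 : ∑ k, q k * dist (x k) (x j) - ε / 2 ≤ rdv E := by
    refine le_rdv_weights hE hne x hx p hp.1 hp.2 _ fun z hz => ?_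
    obtain ⟨i, hi⟩ := hnet z hz
    have := hlip p hp.1 hp.2 (x i) z
    rw [dist_comm z] at this
    linarith [hkey i j]
  linarith [hlip q hq.1 hq.2 y (x j)]

end finite

section measures

lemma exists_limit_measure {Y : Type} [MetricSpace Y] [CompactSpace Y] [MeasurableSpace Y]
    [BorelSpace Y] {ι : Type} (f : ι → Y → ℝ) (hf : ∀ i, Continuous (f i))
    (h : ∀ ε : ℝ, 0 < ε → ∃ μ : Measure Y, IsProbabilityMeasure μ ∧ ∀ i, -ε ≤ ∫ x, f i x ∂μ) :
    ∃ μ : Measure Y, IsProbabilityMeasure μ ∧ ∀ i, 0 ≤ ∫ x, f i x ∂μ := by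
  let K : ℕ → Set (ProbabilityMeasure Y) := fun n =>
    {μ | ∀ i, -(1 / ((n : ℝ) + 1)) ≤ ∫ x, f i x ∂(μ : Measure Y)}
  have hcl : ∀ n, IsClosed (K n) := by
    intro n
    have : K n = ⋂ i, {μ : ProbabilityMeasure Y |
        -(1 / ((n : ℝ) + 1)) ≤ ∫ x, f i x ∂(μ : Measure Y)} := by
      ext μ; simp [K]
    rw [this]
    refine isClosed_iInter fun i => isClosed_le continuous_const ?_
    exact ProbabilityMeasure.continuous_integral_boundedContinuousFunction
      (BoundedContinuousFunction.mkOfCompact ⟨f i, hf i⟩)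
  have hmono : ∀ n, K (n + 1) ⊆ K n := by
    intro n μ hμ i
    refine le_trans ?_ (hμ i)
    rw [neg_le_neg_iff]
    apply one_div_le_one_div_of_le (by positivity)
    push_cast; linarith
  have hne : ∀ n, (K n).Nonempty := by
    intro n
    obtain ⟨μ, hμ, hi⟩ := h (1 / ((n : ℝ) + 1)) (by positivity)
    exact ⟨⟨μ, hμ⟩, hi⟩
  obtain ⟨μ, hμ⟩ := IsCompact.nonempty_iInter_of_sequence_nonempty_isCompact_isClosed K hmono hne
    (hcl 0).isCompact hcl
  refine ⟨μ, inferInstance, fun i => ?_⟩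
  have hlim : Filter.Tendsto (fun n : ℕ => -(1 / ((n : ℝ) + 1))) Filter.atTop (nhds (-0)) :=
    tendsto_one_div_add_atTop_nhds_zero_nat.neg
  rw [neg_zero] at hlim
  exact le_of_tendsto' hlim fun n => (mem_iInter.mp hμ n) i

lemma exists_weight_measure {Y : Type} [MetricSpace Y] [MeasurableSpace Y]
    [BorelSpace Y] {n : ℕ} (x : Fin n → Y) (q : Fin n → ℝ) (hq : ∀ i, 0 ≤ q i)
    (hq1 : ∑ i, q i = 1) :
    ∃ μ : Measure Y, IsProbabilityMeasure μ ∧ ∀ f : Y → ℝ, ∫ y, f y ∂μ = ∑ i, q i * f (x i) := by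
  refine ⟨∑ i, ENNReal.ofReal (q i) • Measure.dirac (x i), ⟨?_⟩, fun f => ?_⟩
  · simp only [Measure.coe_finsetSum, Finset.sum_apply, Measure.smul_apply, measure_univ,
      smul_eq_mul, mul_one]
    rw [← ENNReal.ofReal_sum_of_nonneg fun i _ => hq i, hq1, ENNReal.ofReal_one]
  · rw [integral_finsetSum_measure fun i _ =>
      (integrable_dirac (by simp)).smul_measure ENNReal.ofReal_ne_top]
    exact Finset.sum_congr rfl fun i _ => by
      rw [integral_smul_measure, integral_dirac, ENNReal.toReal_ofReal (hq i), smul_eq_mul]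

variable {X : Type} [MetricSpace X] [MeasurableSpace X] [BorelSpace X] {E : Set X}

lemma push_measure (hE : IsCompact E) (μ : Measure E) [IsProbabilityMeasure μ] :
    ∃ ν : Measure X, IsProbabilityMeasure ν ∧ (∀ᵐ x ∂ν, x ∈ E) ∧
      ∀ y : X, ∫ x, dist x y ∂ν = ∫ x : E, dist (x : X) y ∂μ := by
  have hm : MeasurableEmbedding (Subtype.val : E → X) :=
    MeasurableEmbedding.subtype_coe hE.measurableSet
  refine ⟨μ.map Subtype.val, Measure.isProbabilityMeasure_map hm.measurable.aemeasurable, ?_,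
    fun y => hm.integral_map _⟩
  rw [hm.ae_map_iff]
  exact Filter.Eventually.of_forall fun x => x.2

theorem exists_primal (hE : IsCompact E) (hne : E.Nonempty) :
    ∃ μ : Measure X, IsProbabilityMeasure μ ∧ (∀ᵐ x ∂μ, x ∈ E) ∧
      ∀ y ∈ E, rdv E ≤ ∫ x, dist x y ∂μ := by
  have : CompactSpace E := isCompact_iff_compactSpace.mp hE
  obtain ⟨μ, hμ, h⟩ := exists_limit_measure (Y := E) (fun (y : E) (x : E) => dist (x : X) y - rdv E)
    (fun y => by fun_prop) (by
      intro ε hε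
      obtain ⟨n, x, hn, hx, h⟩ := exists_config hne hε
      have hn' : (0 : ℝ) < n := by exact_mod_cast hn
      obtain ⟨μ, hμ, hint⟩ := exists_weight_measure (Y := E) (fun i => ⟨x i, hx i⟩)
        (fun _ => 1 / (n : ℝ)) (fun _ => by positivity) (by simp; field_simp)
      refine ⟨μ, hμ, fun y => ?_⟩
      rw [hint]
      have := h y y.2
      simp only [mul_sub, Finset.sum_sub_distrib, Finset.sum_const, Finset.card_univ,
        Fintype.card_fin, nsmul_eq_mul]
      rw [← Finset.mul_sum]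
      have e1 : (n : ℝ) * (1 / n * rdv E) = rdv E := by field_simp
      have e2 : 1 / (n : ℝ) * ∑ i, dist (x i) (y : X) = (∑ i, dist (x i) (y : X)) / n := by ring
      linarith)
  obtain ⟨ν, hν, hE', hint⟩ := push_measure hE μ
  refine ⟨ν, hν, hE', fun y hy => ?_⟩
  have := h ⟨y, hy⟩
  rw [integral_sub ((by fun_prop : Continuous fun x : E => dist (x : X) y).integrable_of_hasCompactSupport
    (HasCompactSupport.of_compactSpace _)) (integrable_const _)] at this
  simp only [integral_const, probReal_univ, smul_eq_mul, one_mul] at this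
  rw [hint]; linarith

theorem exists_dual (hE : IsCompact E) (hne : E.Nonempty) :
    ∃ ν : Measure X, IsProbabilityMeasure ν ∧ (∀ᵐ x ∂ν, x ∈ E) ∧
      ∀ y ∈ E, ∫ x, dist x y ∂ν ≤ rdv E := by
  have : CompactSpace E := isCompact_iff_compactSpace.mp hE
  obtain ⟨μ, hμ, h⟩ := exists_limit_measure (Y := E) (fun (y : E) (x : E) => rdv E - dist (x : X) y)
    (fun y => by fun_prop) (by
      intro ε hε
      obtain ⟨n, x, q, hx, hq, hq1, h⟩ := exists_dual_weights hE hne hε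
      obtain ⟨μ, hμ, hint⟩ := exists_weight_measure (Y := E) (fun i => ⟨x i, hx i⟩) q hq hq1
      refine ⟨μ, hμ, fun y => ?_⟩
      rw [hint]
      have := h y y.2
      simp only [mul_sub, Finset.sum_sub_distrib]
      rw [← Finset.sum_mul, hq1]
      linarith)
  obtain ⟨ν, hν, hE', hint⟩ := push_measure hE μ
  refine ⟨ν, hν, hE', fun y hy => ?_⟩
  have := h ⟨y, hy⟩
  rw [integral_sub (integrable_const _)
    ((by fun_prop : Continuous fun x : E => dist (x : X) y).integrable_of_hasCompactSupport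
    (HasCompactSupport.of_compactSpace _))] at this
  simp only [integral_const, probReal_univ, smul_eq_mul, one_mul] at this
  rw [hint]; linarith

end measures

end Pool.Agent.Lib.MP_55cb2c_co
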