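import Pool.Agent.Lib.MP_55cb2c_co.Arc

/-! The Reuleaux curve with vertices `0`, `1`, `e^{i pi/3}` and its six symmetries. -/

namespace Pool.Agent.Lib.MP_55cb2c_co

open Real Set

noncomputable def rho (z : ℂ) : ℂ := ⟨1 - z.re / 2 - √3 / 2 * z.im, √3 / 2 * z.re - z.im / 2⟩
noncomputable def sg (z : ℂ) : ℂ := ⟨z.re / 2 + √3 / 2 * z.im, √3 / 2 * z.re - z.im / 2⟩

lemma r3_sq : √3 ^ 2 = (3 : ℝ) := sq_sqrt (by norm_num)
lemma r3_gt : (173 / 100 : ℝ) < √3 := lt_sqrt_of_sq_lt (by norm_num)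
lemma r3_lt : √3 < (174 / 100 : ℝ) := (sqrt_lt' (by norm_num)).mpr (by norm_num)

lemma rho_rho (z : ℂ) : rho (rho z) =
    ⟨1 / 2 - z.re / 2 + √3 / 2 * z.im, √3 / 2 - √3 / 2 * z.re - z.im / 2⟩ := by
  apply Complex.ext <;> simp only [rho]
  · linear_combination (-z.re / 4) * r3_sq
  · linear_combination (-z.im / 4) * r3_sq

lemma rho3 (z : ℂ) : rho (rho (rho z)) = z := by
  rw [rho_rho]
  apply Complex.ext <;> simp only [rho]
  · linear_combination (z.re / 4) * r3_sq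
  · linear_combination (z.im / 4) * r3_sq

lemma sg_sg (z : ℂ) : sg (sg z) = z := by
  apply Complex.ext <;> simp only [sg]
  · linear_combination (z.re / 4) * r3_sq
  · linear_combination (z.im / 4) * r3_sq

lemma sg_rho (z : ℂ) : sg (rho z) = rho (rho (sg z)) := by
  rw [rho_rho]
  apply Complex.ext <;> simp only [rho, sg] <;> ring

lemma sg_rho_rho (z : ℂ) : sg (rho (rho z)) = rho (sg z) := by
  rw [sg_rho, sg_rho, rho3]

lemma dist_eq_of_sq {a b c d : ℂ}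
    (h : (a.re - b.re) ^ 2 + (a.im - b.im) ^ 2 = (c.re - d.re) ^ 2 + (c.im - d.im) ^ 2) :
    dist a b = dist c d := by
  rw [dist_eq_norm, dist_eq_norm]
  apply (pow_left_inj₀ (norm_nonneg _) (norm_nonneg _) two_ne_zero).mp
  rw [normsq, normsq]
  simpa using h

lemma dist_rho (a b : ℂ) : dist (rho a) (rho b) = dist a b := by
  apply dist_eq_of_sq
  simp only [rho]
  linear_combination (((a.re - b.re) ^ 2 + (a.im - b.im) ^ 2) / 4) * r3_sq

lemma dist_sg (a b : ℂ) : dist (sg a) (sg b) = dist a b := by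
  apply dist_eq_of_sq
  simp only [sg]
  linear_combination (((a.re - b.re) ^ 2 + (a.im - b.im) ^ 2) / 4) * r3_sq

lemma isometry_rho : Isometry rho := Isometry.of_dist_eq dist_rho
lemma isometry_sg : Isometry sg := Isometry.of_dist_eq dist_sg

lemma sg_yy (t : ℝ) : sg (yy t) = yy (π / 3 - t) := by
  apply Complex.ext <;> simp only [sg, yy, cos_sub, sin_sub, cos_pi_div_three, sin_pi_div_three] <;>
    ring

/-- The six symmetries. -/
noncomputable def GG : Fin 6 → ℂ → ℂ :=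
  ![fun z => z, rho, fun z => rho (rho z), sg, fun z => rho (sg z), fun z => rho (rho (sg z))]

noncomputable def osum (F : ℂ → ℝ) (x : ℂ) : ℝ :=
  F x + F (rho x) + F (rho (rho x)) + F (sg x) + F (rho (sg x)) + F (rho (rho (sg x)))

lemma osum_eq (F : ℂ → ℝ) (x : ℂ) : osum F x = ∑ j, F (GG j x) := by
  simp [osum, GG, Fin.sum_univ_succ]; ring

lemma osum_rho (F : ℂ → ℝ) (x : ℂ) : osum F (rho x) = osum F x := by
  simp only [osum, rho3, sg_rho]; ring

lemma osum_sg (F : ℂ → ℝ) (x : ℂ) : osum F (sg x) = osum F x := by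
  simp only [osum, sg_sg]; ring

lemma osum_GG (F : ℂ → ℝ) (j : Fin 6) (x : ℂ) : osum F (GG j x) = osum F x := by
  fin_cases j <;> simp [GG, osum_rho, osum_sg]

lemma isometry_GG (j : Fin 6) : Isometry (GG j) := by
  fin_cases j
  · exact isometry_id
  · exact isometry_rho
  · exact isometry_rho.comp isometry_rho
  · exact isometry_sg
  · exact isometry_rho.comp isometry_sg
  · exact isometry_rho.comp (isometry_rho.comp isometry_sg)

lemma GG_inv (i : Fin 6) : ∃ j : Fin 6, (∀ x, GG i (GG j x) = x) ∧ ∀ x, GG j (GG i x) = x := by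
  fin_cases i
  · exact ⟨0, by simp [GG], by simp [GG]⟩
  · exact ⟨2, by simp [GG, rho3], by simp [GG, rho3]⟩
  · exact ⟨1, by simp [GG, rho3], by simp [GG, rho3]⟩
  · exact ⟨3, by simp [GG, sg_sg], by simp [GG, sg_sg]⟩
  · exact ⟨4, by simp [GG, sg_rho, rho3, sg_sg], by simp [GG, sg_rho, rho3, sg_sg]⟩
  · exact ⟨5, by simp [GG, sg_rho, rho3, sg_sg], by simp [GG, sg_rho, rho3, sg_sg]⟩

lemma GG_comp (i j : Fin 6) : ∃ k : Fin 6, ∀ x, GG i (GG j x) = GG k x := by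
  have hr : ∀ j : Fin 6, ∃ k : Fin 6, ∀ x, rho (GG j x) = GG k x := by
    intro j
    fin_cases j
    · exact ⟨1, by simp [GG]⟩
    · exact ⟨2, by simp [GG]⟩
    · exact ⟨0, by simp [GG, rho3]⟩
    · exact ⟨4, by simp [GG]⟩
    · exact ⟨5, by simp [GG]⟩
    · exact ⟨3, by simp [GG, rho3]⟩
  have hs : ∀ j : Fin 6, ∃ k : Fin 6, ∀ x, sg (GG j x) = GG k x := by
    intro j
    fin_cases j
    · exact ⟨3, by simp [GG]⟩
    · exact ⟨5, by simp [GG, sg_rho]⟩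
    · exact ⟨4, by simp [GG, sg_rho_rho]⟩
    · exact ⟨0, by simp [GG, sg_sg]⟩
    · exact ⟨2, by simp [GG, sg_rho, sg_sg]⟩
    · exact ⟨1, by simp [GG, sg_rho_rho, sg_sg]⟩
  fin_cases i
  · exact ⟨j, by simp [GG]⟩
  · exact hr j
  · obtain ⟨k, hk⟩ := hr j
    obtain ⟨l, hl⟩ := hr k
    exact ⟨l, fun x => by rw [← hl, ← hk]; rfl⟩
  · exact hs j
  · obtain ⟨k, hk⟩ := hs j
    obtain ⟨l, hl⟩ := hr k
    exact ⟨l, fun x => by rw [← hl, ← hk]; rfl⟩
  · obtain ⟨k, hk⟩ := hs j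
    obtain ⟨l, hl⟩ := hr k
    obtain ⟨m, hm⟩ := hr l
    exact ⟨m, fun x => by rw [← hm, ← hl, ← hk]; rfl⟩

/-- The Reuleaux curve, as the union of the six images of a half arc. -/
def Gam : Set ℂ := {x | ∃ j : Fin 6, ∃ t ∈ Icc 0 (π / 6), x = GG j (yy t)}

lemma GG_mem_Gam {x : ℂ} (hx : x ∈ Gam) (i : Fin 6) : GG i x ∈ Gam := by
  obtain ⟨j, t, ht, rfl⟩ := hx
  obtain ⟨k, hk⟩ := GG_comp i j
  exact ⟨k, t, ht, hk _⟩

lemma yy_mem_Gam {s : ℝ} (hs : s ∈ Icc 0 (π / 3)) : yy s ∈ Gam := by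
  rcases le_total s (π / 6) with h | h
  · exact ⟨0, s, ⟨hs.1, h⟩, rfl⟩
  · refine ⟨3, π / 3 - s, ⟨by linarith [hs.2], by linarith⟩, ?_⟩
    show yy s = sg (yy (π / 3 - s))
    rw [sg_yy]; congr 1; ring

lemma isCompact_Gam : IsCompact Gam := by
  have : Gam = ⋃ j : Fin 6, (fun t => GG j (yy t)) '' Icc 0 (π / 6) := by
    ext x
    simp only [Gam, mem_ofPred_eq, mem_iUnion, mem_image]
    constructor
    · rintro ⟨j, t, ht, rfl⟩; exact ⟨j, t, ht, rfl⟩
    · rintro ⟨j, t, ht, rfl⟩; exact ⟨j, t, ht, rfl⟩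
  rw [this]
  exact isCompact_iUnion fun j =>
    isCompact_Icc.image ((isometry_GG j).continuous.comp continuous_yy)

lemma osum_of_mem {x : ℂ} (hx : x ∈ Gam) :
    ∃ t ∈ Icc 0 (π / 6), (∃ j, x = GG j (yy t)) ∧ ∀ F, osum F x = osum F (yy t) := by
  obtain ⟨j, t, ht, rfl⟩ := hx
  exact ⟨t, ht, ⟨j, rfl⟩, fun F => osum_GG F j _⟩

/-! Half angle coordinates. -/

lemma cos_eq_half (s : ℝ) : cos s = 1 - 2 * sin (s / 2) ^ 2 := by
  have := cos_two_mul (s / 2)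
  have h2 := sin_sq_add_cos_sq (s / 2)
  rw [show 2 * (s / 2) = s by ring] at this
  linarith

lemma sin_eq_half (s : ℝ) : sin s = 2 * sin (s / 2) * cos (s / 2) := by
  rw [← sin_two_mul]; congr 1; ring

lemma sin_pi_div_twelve_le : sin (π / 6 / 2) ≤ 26 / 100 := by
  have h := cos_eq_half (π / 6)
  rw [cos_pi_div_six] at h
  have := r3_gt
  by_contra hc
  push Not at hc
  nlinarith

lemma half_bounds {s : ℝ} (hs : s ∈ Icc 0 (π / 6)) :
    0 ≤ sin (s / 2) ∧ sin (s / 2) ≤ 26 / 100 ∧ 96 / 100 ≤ cos (s / 2) ∧ cos (s / 2) ≤ 1 ∧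
      cos (s / 2) = √(1 - sin (s / 2) ^ 2) := by
  have hpi := pi_pos
  obtain ⟨h0, h1⟩ := hs
  have a1 : 0 ≤ sin (s / 2) := sin_nonneg_of_nonneg_of_le_pi (by linarith) (by linarith)
  have a2 : sin (s / 2) ≤ 26 / 100 :=
    (sin_le_sin_of_le_of_le_pi_div_two (by linarith) (by linarith) (by linarith)).trans
      sin_pi_div_twelve_le
  have a3 : 0 ≤ cos (s / 2) := cos_nonneg_of_neg_pi_div_two_le_of_le (by linarith) (by linarith)
  have a4 := sin_sq_add_cos_sq (s / 2)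
  refine ⟨a1, a2, ?_, cos_le_one _, ?_⟩
  · by_contra hc
    push Not at hc
    nlinarith
  · rw [show 1 - sin (s / 2) ^ 2 = cos (s / 2) ^ 2 by linarith, sqrt_sq a3]

section coords

variable (t : ℝ)

noncomputable def R3 : ℝ := cos (t / 2) - √3 * sin (t / 2)
noncomputable def w3 : ℝ := sin (t / 2) * (√3 * cos (t / 2) - sin (t / 2))
noncomputable def w5 : ℝ := 1 / 2 - 2 * sin (t / 2) ^ 2

lemma x3_eq : rho (rho (sg (yy t))) = ⟨R3 t * cos (t / 2), -(R3 t * sin (t / 2))⟩ := by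
  rw [rho_rho]
  have h := sin_sq_add_cos_sq (t / 2)
  apply Complex.ext <;> simp only [sg, yy, R3] <;> rw [cos_eq_half t, sin_eq_half t]
  · linear_combination ((1 - 2 * sin (t / 2) ^ 2) / 4) * r3_sq - h
  · linear_combination (-(sin (t / 2) * cos (t / 2)) / 2) * r3_sq

lemma x4_eq : rho (yy t) = ⟨R3 t * (cos (t / 2) - √3 * sin (t / 2)) / 2,
    R3 t * (√3 * cos (t / 2) + sin (t / 2)) / 2⟩ := by
  have h := sin_sq_add_cos_sq (t / 2)
  apply Complex.ext <;> simp only [rho, yy, R3] <;> rw [cos_eq_half t, sin_eq_half t]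
  · linear_combination (-(sin (t / 2) ^ 2) / 2) * r3_sq - (1 / 2) * h
  · linear_combination (sin (t / 2) * cos (t / 2) / 2) * r3_sq - (√3 / 2) * h

lemma x5_eq : rho (rho (yy t)) = ⟨sin (t / 2) * (√3 * cos (t / 2) + sin (t / 2)),
    -(sin (t / 2) * (cos (t / 2) - √3 * sin (t / 2)))⟩ := by
  rw [rho_rho]
  apply Complex.ext <;> simp only [yy] <;> rw [cos_eq_half t, sin_eq_half t] <;> ring

lemma x6_eq : rho (sg (yy t)) = ⟨2 * sin (t / 2) * sin (t / 2), 2 * sin (t / 2) * cos (t / 2)⟩ := by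
  apply Complex.ext <;> simp only [rho, sg, yy] <;> rw [cos_eq_half t, sin_eq_half t]
  · linear_combination (-(1 - 2 * sin (t / 2) ^ 2) / 4) * r3_sq
  · linear_combination (sin (t / 2) * cos (t / 2) / 2) * r3_sq

lemma R3_sq : R3 t ^ 2 = 1 - 2 * w3 t := by
  have h := sin_sq_add_cos_sq (t / 2)
  simp only [R3, w3]
  linear_combination (sin (t / 2) ^ 2) * r3_sq + h

lemma norm_x3 : ‖rho (rho (sg (yy t)))‖ ^ 2 = 1 - 2 * w3 t := by
  rw [normsq, x3_eq, ← R3_sq]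
  have h := sin_sq_add_cos_sq (t / 2)
  simp only
  linear_combination (R3 t ^ 2) * h

lemma norm_x4 : ‖rho (yy t)‖ ^ 2 = 1 - 2 * w3 t := by
  rw [normsq, x4_eq, ← R3_sq]
  have h := sin_sq_add_cos_sq (t / 2)
  simp only
  linear_combination (R3 t ^ 2) * h + (R3 t ^ 2 * (sin (t / 2) ^ 2 + cos (t / 2) ^ 2) / 4) * r3_sq

lemma norm_x5 : ‖rho (rho (yy t))‖ ^ 2 = 1 - 2 * w5 t := by
  rw [normsq, x5_eq]
  have h := sin_sq_add_cos_sq (t / 2)
  simp only [w5]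
  linear_combination (4 * sin (t / 2) ^ 2) * h +
    (sin (t / 2) ^ 2 * (sin (t / 2) ^ 2 + cos (t / 2) ^ 2)) * r3_sq

lemma norm_x6 : ‖rho (sg (yy t))‖ ^ 2 = 1 - 2 * w5 t := by
  rw [normsq, x6_eq]
  have h := sin_sq_add_cos_sq (t / 2)
  simp only [w5]
  linear_combination (4 * sin (t / 2) ^ 2) * h

end coords

end Pool.Agent.Lib.MP_55cb2c_co
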