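import Mathlib

/-! A small verified interval arithmetic checker (fixed point, scale 2^32). -/

namespace Pool.Agent.Lib.MP_55cb2c_co

set_option linter.unusedSimpArgs false

inductive Ex where
  | v : ℕ → Ex
  | c : ℤ → ℕ → Ex
  | add : Ex → Ex → Ex
  | sub : Ex → Ex → Ex
  | mul : Ex → Ex → Ex
  | inv : Ex → Ex
  | sqrt : Ex → Ex
  | sq : Ex → Ex
  | abs : Ex → Ex
  | lt : Ex → Ex → Ex

noncomputable def Ex.evalR : Ex → List ℝ → ℝ
  | .v i, e => e.getD i 0
  | .c n d, _ => (n : ℝ) / (d : ℝ)
  | .add a b, e => a.evalR e + b.evalR e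
  | .sub a b, e => a.evalR e - b.evalR e
  | .mul a b, e => a.evalR e * b.evalR e
  | .inv a, e => (a.evalR e)⁻¹
  | .sqrt a, e => Real.sqrt (a.evalR e)
  | .sq a, e => (a.evalR e) ^ 2
  | .abs a, e => |a.evalR e|
  | .lt a b, e => b.evalR (a.evalR e :: e)

def SC : ℤ := 4294967296

def fl (n : ℤ) : ℤ := n / SC
def ce (n : ℤ) : ℤ := n / SC + 1

def zle : ℤ → ℤ → Bool
  | .ofNat a, .ofNat b => Nat.ble a b
  | .ofNat _, .negSucc _ => false
  | .negSucc _, .ofNat _ => true
  | .negSucc a, .negSucc b => Nat.ble b a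

def nneg (n : ℕ) : ℤ := cond (Nat.beq n 0) (.ofNat 0) (.negSucc (Nat.pred n))

def zneg : ℤ → ℤ
  | .ofNat a => nneg a
  | .negSucc a => .ofNat (Nat.succ a)

def nsub (a b : ℕ) : ℤ := cond (Nat.ble b a) (.ofNat (Nat.sub a b)) (.negSucc (Nat.pred (Nat.sub b a)))

def zadd : ℤ → ℤ → ℤ
  | .ofNat a, .ofNat b => .ofNat (Nat.add a b)
  | .ofNat a, .negSucc b => nsub a (Nat.succ b)
  | .negSucc a, .ofNat b => nsub b (Nat.succ a)
  | .negSucc a, .negSucc b => .negSucc (Nat.succ (Nat.add a b))

def zsub : ℤ → ℤ → ℤ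
  | .ofNat a, .ofNat b => nsub a b
  | .ofNat a, .negSucc b => .ofNat (Nat.succ (Nat.add a b))
  | .negSucc a, .ofNat b => .negSucc (Nat.add a b)
  | .negSucc a, .negSucc b => nsub b a

def zmul : ℤ → ℤ → ℤ
  | .ofNat a, .ofNat b => .ofNat (Nat.mul a b)
  | .ofNat a, .negSucc b => nneg (Nat.mul a (Nat.succ b))
  | .negSucc a, .ofNat b => nneg (Nat.mul (Nat.succ a) b)
  | .negSucc a, .negSucc b => .ofNat (Nat.mul (Nat.succ a) (Nat.succ b))

def zfl : ℤ → ℤ
  | .ofNat a => .ofNat (Nat.div a 4294967296)
  | .negSucc a => .negSucc (Nat.div a 4294967296)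

def zce : ℤ → ℤ
  | .ofNat a => .ofNat (Nat.succ (Nat.div a 4294967296))
  | .negSucc a => nneg (Nat.div a 4294967296)

def zmin (a b : ℤ) : ℤ := cond (zle a b) a b
def zmax (a b : ℤ) : ℤ := cond (zle a b) b a

lemma zle_eq (a b : ℤ) : zle a b = decide (a ≤ b) := by
  cases a <;> cases b <;> simp only [zle, Int.ofNat_eq_natCast, Int.negSucc_eq] <;>
    rw [Bool.eq_iff_iff] <;> simp [Nat.ble_eq] <;> omega

lemma nneg_eq (n : ℕ) : nneg n = -(n : ℤ) := by
  cases n with
  | zero => rfl
  | succ n => rfl

lemma zneg_eq (a : ℤ) : zneg a = -a := by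
  cases a with
  | ofNat a => simp [zneg, nneg_eq]
  | negSucc a => simp [zneg, Int.negSucc_eq]

lemma nsub_eq (a b : ℕ) : nsub a b = (a : ℤ) - b := by
  unfold nsub
  by_cases h : b ≤ a
  · have : Nat.ble b a = true := Nat.ble_eq ▸ h
    simp only [this, cond_true, Int.ofNat_eq_natCast, Nat.sub_eq]
    omega
  · have : Nat.ble b a = false := by
      rw [← Bool.not_eq_true, Nat.ble_eq]; exact h
    simp only [this, cond_false, Int.negSucc_eq, Nat.sub_eq, Nat.pred_eq_sub_one]
    omega

lemma zadd_eq (a b : ℤ) : zadd a b = a + b := by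
  cases a <;> cases b <;>
    simp only [zadd, nsub_eq, Int.ofNat_eq_natCast, Int.negSucc_eq, Nat.add_eq, Nat.succ_eq_add_one] <;>
    push_cast <;> ring

lemma zsub_eq (a b : ℤ) : zsub a b = a - b := by
  cases a <;> cases b <;>
    simp only [zsub, nsub_eq, Int.ofNat_eq_natCast, Int.negSucc_eq, Nat.add_eq, Nat.succ_eq_add_one] <;>
    push_cast <;> ring

lemma zmul_eq (a b : ℤ) : zmul a b = a * b := by
  cases a <;> cases b <;>
    simp only [zmul, nneg_eq, Int.ofNat_eq_natCast, Int.negSucc_eq, Nat.mul_eq, Nat.succ_eq_add_one] <;>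
    push_cast <;> ring

lemma zfl_eq (a : ℤ) : zfl a = fl a := by
  cases a with
  | ofNat a =>
    have : Nat.div a 4294967296 = a / 4294967296 := rfl
    simp only [zfl, fl, SC, Int.ofNat_eq_natCast, this]; omega
  | negSucc a =>
    have : Nat.div a 4294967296 = a / 4294967296 := rfl
    simp only [zfl, fl, SC, Int.negSucc_eq, this]; omega

lemma zce_eq (a : ℤ) : zce a = ce a := by
  cases a with
  | ofNat a =>
    have : Nat.div a 4294967296 = a / 4294967296 := rfl
    simp only [zce, ce, SC, Int.ofNat_eq_natCast, this, Nat.succ_eq_add_one]; omega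
  | negSucc a =>
    have : Nat.div a 4294967296 = a / 4294967296 := rfl
    simp only [zce, ce, SC, Int.negSucc_eq, this, nneg_eq]; omega

lemma zmin_eq (a b : ℤ) : zmin a b = min a b := by
  unfold zmin; rw [zle_eq]; by_cases h : a ≤ b <;> simp [h]; omega

lemma zmax_eq (a b : ℤ) : zmax a b = max a b := by
  unfold zmax; rw [zle_eq]; by_cases h : a ≤ b <;> simp [h]; omega

def forceN {α : Type} (n : ℕ) (k : ℕ → α) : α :=
  match n with
  | 0 => k 0
  | m + 1 => k (Nat.succ m)

def forceZ {α : Type} (a : ℤ) (k : ℤ → α) : α :=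
  match a with
  | .ofNat n => forceN n fun n => k (.ofNat n)
  | .negSucc n => forceN n fun n => k (.negSucc n)

lemma forceN_eq {α : Type} (n : ℕ) (k : ℕ → α) : forceN n k = k n := by
  cases n <;> rfl

lemma forceZ_eq {α : Type} (a : ℤ) (k : ℤ → α) : forceZ a k = k a := by
  cases a <;> simp [forceZ, forceN_eq]

def mk (a b : ℤ) : Option (ℤ × ℤ) := forceZ a fun a => forceZ b fun b => some (a, b)

lemma mk_eq (a b : ℤ) : mk a b = some (a, b) := by simp [mk, forceZ_eq]

def newton : ℕ → ℕ → ℕ → ℕ
  | 0, _, g => g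
  | f + 1, n, g =>
    forceN (Nat.div (Nat.add g (Nat.div n g)) 2) fun g' => cond (Nat.ble g g') g (newton f n g')

def isq (n : ℕ) : ℕ := forceN n fun n => newton 80 n (Nat.add (Nat.div n 8589934592) 2147483649)

def getI : List (ℤ × ℤ) → ℕ → Option (ℤ × ℤ)
  | [], _ => none
  | x :: _, 0 => some x
  | _ :: l, n + 1 => getI l n

lemma getI_eq (l : List (ℤ × ℤ)) (n : ℕ) : getI l n = l[n]? := by
  induction l generalizing n with
  | nil => simp [getI]
  | cons x l ih => cases n <;> simp [getI, ih]

def mulI (x1 x2 y1 y2 : ℤ) : Option (ℤ × ℤ) :=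
  cond (zle (.ofNat 0) x1 && zle (.ofNat 0) y1) (mk (zfl (zmul x1 y1)) (zce (zmul x2 y2)))
    (forceZ (zmul x1 y1) fun p => forceZ (zmul x1 y2) fun q =>
      forceZ (zmul x2 y1) fun r => forceZ (zmul x2 y2) fun s =>
      mk (zfl (zmin (zmin p q) (zmin r s))) (zce (zmax (zmax p q) (zmax r s))))

def Ex.evalI : Ex → List (ℤ × ℤ) → Option (ℤ × ℤ)
  | .v i, e => getI e i
  | .c n d, _ => if 0 < d then mk ((n * SC) / d) (-((-(n * SC)) / d)) else none
  | .add a b, e =>
    match a.evalI e, b.evalI e with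
    | some x, some y => mk (zadd x.1 y.1) (zadd x.2 y.2)
    | _, _ => none
  | .sub a b, e =>
    match a.evalI e, b.evalI e with
    | some x, some y => mk (zsub x.1 y.2) (zsub x.2 y.1)
    | _, _ => none
  | .mul a b, e =>
    match a.evalI e, b.evalI e with
    | some x, some y => mulI x.1 x.2 y.1 y.2
    | _, _ => none
  | .inv a, e =>
    match a.evalI e with
    | some x => if 0 < x.1 then mk ((SC * SC) / x.2) (-((-(SC * SC)) / x.1)) else none
    | none => none
  | .sqrt a, e =>
    match a.evalI e with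
    | some x =>
      forceN (isq (x.1 * SC).toNat) fun l => forceN (isq (x.2 * SC).toNat + 1) fun h =>
      if (l : ℤ) * l ≤ max (x.1 * SC) 0 ∧ x.2 * SC ≤ (h : ℤ) * h then some (l, h) else none
    | none => none
  | .sq a, e =>
    match a.evalI e with
    | some x =>
      cond (zle (.ofNat 0) x.1) (mk (zfl (zmul x.1 x.1)) (zce (zmul x.2 x.2)))
        (cond (zle x.2 (.ofNat 0)) (mk (zfl (zmul x.2 x.2)) (zce (zmul x.1 x.1)))
          (mk 0 (zce (zmax (zmul x.1 x.1) (zmul x.2 x.2)))))
    | none => none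
  | .abs a, e =>
    match a.evalI e with
    | some x =>
      if 0 ≤ x.1 then some x
      else if x.2 ≤ 0 then mk (-x.2) (-x.1)
      else mk 0 (max (-x.1) x.2)
    | none => none
  | .lt a b, e =>
    match a.evalI e with
    | some x => b.evalI (x :: e)
    | none => none

def Mem (r : ℝ) (x : ℤ × ℤ) : Prop := (x.1 : ℝ) ≤ r * SC ∧ r * SC ≤ (x.2 : ℝ)

lemma SC_pos : (0 : ℝ) < (SC : ℝ) := by norm_num [SC]
lemma SC_posZ : (0 : ℤ) < SC := by norm_num [SC]

lemma ediv_le_real (n d : ℤ) (hd : 0 < d) : ((n / d : ℤ) : ℝ) * d ≤ n := by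
  have := Int.ediv_mul_le n hd.ne'
  exact_mod_cast this

lemma le_cediv_real (n d : ℤ) (hd : 0 < d) : (n : ℝ) ≤ ((-((-n) / d) : ℤ) : ℝ) * d := by
  have := ediv_le_real (-n) d hd
  push_cast at this ⊢
  linarith

lemma fl_le (n : ℤ) (r : ℝ) (h : (n : ℝ) ≤ r * SC * SC) : (fl n : ℝ) ≤ r * SC := by
  have h1 := ediv_le_real n SC SC_posZ
  have := SC_pos
  unfold fl
  by_contra hc
  push Not at hc
  nlinarith

lemma le_ce (n : ℤ) (r : ℝ) (h : r * SC * SC ≤ (n : ℝ)) : r * SC ≤ (ce n : ℝ) := by
  have h1 : n < (n / SC + 1) * SC := Int.lt_ediv_add_one_mul_self n SC_posZ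
  have h2 : (n : ℝ) < ((n / SC + 1 : ℤ) : ℝ) * SC := by exact_mod_cast h1
  have := SC_pos
  unfold ce
  by_contra hc
  push Not at hc
  nlinarith

lemma mul_lower {a b x1 x2 y1 y2 : ℝ} (h1 : x1 ≤ a) (h2 : a ≤ x2) (h3 : y1 ≤ b) (h4 : b ≤ y2) :
    min (min (x1 * y1) (x1 * y2)) (min (x2 * y1) (x2 * y2)) ≤ a * b := by
  rcases le_total 0 b with hb | hb
  · have e1 : x1 * b ≤ a * b := by nlinarith
    rcases le_total 0 x1 with hx | hx
    · exact (min_le_left _ _).trans ((min_le_left _ _).trans (by nlinarith))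
    · exact (min_le_left _ _).trans ((min_le_right _ _).trans (by nlinarith))
  · have e1 : x2 * b ≤ a * b := by nlinarith
    rcases le_total 0 x2 with hx | hx
    · exact (min_le_right _ _).trans ((min_le_left _ _).trans (by nlinarith))
    · exact (min_le_right _ _).trans ((min_le_right _ _).trans (by nlinarith))

lemma mul_upper {a b x1 x2 y1 y2 : ℝ} (h1 : x1 ≤ a) (h2 : a ≤ x2) (h3 : y1 ≤ b) (h4 : b ≤ y2) :
    a * b ≤ max (max (x1 * y1) (x1 * y2)) (max (x2 * y1) (x2 * y2)) := by
  rcases le_total 0 b with hb | hb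
  · have e1 : a * b ≤ x2 * b := by nlinarith
    rcases le_total 0 x2 with hx | hx
    · exact le_trans (le_trans (by nlinarith) (le_max_right _ _)) (le_max_right _ _)
    · exact le_trans (le_trans (by nlinarith) (le_max_left _ _)) (le_max_right _ _)
  · have e1 : a * b ≤ x1 * b := by nlinarith
    rcases le_total 0 x1 with hx | hx
    · exact le_trans (le_trans (by nlinarith) (le_max_right _ _)) (le_max_left _ _)
    · exact le_trans (le_trans (by nlinarith) (le_max_left _ _)) (le_max_left _ _)

theorem Ex.sound : ∀ (t : Ex) (e : List ℝ) (E : List (ℤ × ℤ)) (_ : List.Forall₂ Mem e E)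
    (x : ℤ × ℤ) (_ : t.evalI E = some x), Mem (t.evalR e) x := by
  intro t
  induction t with
  | v i =>
    intro e E h x hx
    simp only [Ex.evalI, mk_eq, forceZ_eq, forceN_eq, getI_eq, zadd_eq, zsub_eq, zmul_eq, zfl_eq,
      zce_eq, zmin_eq, zmax_eq, zle_eq, mulI, Bool.cond_eq_ite, decide_eq_true_eq,
      Int.ofNat_eq_natCast, Nat.cast_zero, Bool.and_eq_true] at hx
    simp only [Ex.evalR]
    induction h generalizing i with
    | nil => simp at hx
    | cons h1 _ ih =>
      cases i with
      | zero => simp at hx; subst hx; simpa using h1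
      | succ j => simp at hx; simpa using ih j hx
  | c n d =>
    intro e E _ x hx
    simp only [Ex.evalI, mk_eq, forceZ_eq, forceN_eq, getI_eq, zadd_eq, zsub_eq, zmul_eq, zfl_eq,
      zce_eq, zmin_eq, zmax_eq, zle_eq, mulI, Bool.cond_eq_ite, decide_eq_true_eq,
      Int.ofNat_eq_natCast, Nat.cast_zero, Bool.and_eq_true] at hx
    split_ifs at hx with hd
    cases hx
    have hd' : (0 : ℤ) < (d : ℤ) := by exact_mod_cast hd
    have hdR : (0 : ℝ) < (d : ℝ) := by exact_mod_cast hd
    have h1 := ediv_le_real (n * SC) d hd'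
    have h2 := le_cediv_real (n * SC) d hd'
    simp only [Ex.evalR, Mem]
    push_cast at h1 h2 ⊢
    constructor
    · rw [div_mul_eq_mul_div, le_div_iff₀ hdR]; exact h1
    · rw [div_mul_eq_mul_div, div_le_iff₀ hdR]; exact h2
  | add a b iha ihb =>
    intro e E h x hx
    simp only [Ex.evalI, mk_eq, forceZ_eq, forceN_eq, getI_eq, zadd_eq, zsub_eq, zmul_eq, zfl_eq,
      zce_eq, zmin_eq, zmax_eq, zle_eq, mulI, Bool.cond_eq_ite, decide_eq_true_eq,
      Int.ofNat_eq_natCast, Nat.cast_zero, Bool.and_eq_true] at hx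
    split at hx
    · rename_i p q hp hq
      cases hx
      have h1 := iha e E h p hp
      have h2 := ihb e E h q hq
      simp only [Ex.evalR, Mem] at *
      push_cast
      constructor <;> nlinarith [h1.1, h1.2, h2.1, h2.2]
    · cases hx
  | sub a b iha ihb =>
    intro e E h x hx
    simp only [Ex.evalI, mk_eq, forceZ_eq, forceN_eq, getI_eq, zadd_eq, zsub_eq, zmul_eq, zfl_eq,
      zce_eq, zmin_eq, zmax_eq, zle_eq, mulI, Bool.cond_eq_ite, decide_eq_true_eq,
      Int.ofNat_eq_natCast, Nat.cast_zero, Bool.and_eq_true] at hx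
    split at hx
    · rename_i p q hp hq
      cases hx
      have h1 := iha e E h p hp
      have h2 := ihb e E h q hq
      simp only [Ex.evalR, Mem] at *
      push_cast
      constructor <;> nlinarith [h1.1, h1.2, h2.1, h2.2]
    · cases hx
  | mul a b iha ihb =>
    intro e E h x hx
    simp only [Ex.evalI, mk_eq, forceZ_eq, forceN_eq, getI_eq, zadd_eq, zsub_eq, zmul_eq, zfl_eq,
      zce_eq, zmin_eq, zmax_eq, zle_eq, mulI, Bool.cond_eq_ite, decide_eq_true_eq,
      Int.ofNat_eq_natCast, Nat.cast_zero, Bool.and_eq_true] at hx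
    split at hx
    · rename_i p q hp hq
      have h1 := iha e E h p hp
      have h2 := ihb e E h q hq
      simp only [Ex.evalR, Mem] at *
      split_ifs at hx with h0
      · cases hx
        have hp0 : (0 : ℝ) ≤ p.1 := by exact_mod_cast h0.1
        have hq0 : (0 : ℝ) ≤ q.1 := by exact_mod_cast h0.2
        constructor
        · apply fl_le
          push_cast
          have := mul_le_mul h1.1 h2.1 hq0 (hp0.trans h1.1)
          linarith
        · apply le_ce
          push_cast
          have := mul_le_mul h1.2 h2.2 (hq0.trans h2.1) (hp0.trans (h1.1.trans h1.2))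
          linarith
      · cases hx
        constructor
        · apply fl_le
          push_cast
          have := mul_lower h1.1 h1.2 h2.1 h2.2
          linarith
        · apply le_ce
          push_cast
          have := mul_upper h1.1 h1.2 h2.1 h2.2
          linarith
    · cases hx
  | inv a iha =>
    intro e E h x hx
    simp only [Ex.evalI, mk_eq, forceZ_eq, forceN_eq, getI_eq, zadd_eq, zsub_eq, zmul_eq, zfl_eq,
      zce_eq, zmin_eq, zmax_eq, zle_eq, mulI, Bool.cond_eq_ite, decide_eq_true_eq,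
      Int.ofNat_eq_natCast, Nat.cast_zero, Bool.and_eq_true] at hx
    split at hx
    · rename_i p hp
      split_ifs at hx with h0
      cases hx
      have h1 := iha e E h p hp
      simp only [Ex.evalR, Mem] at *
      have hS := SC_pos
      have h0R : (0 : ℝ) < p.1 := by exact_mod_cast h0
      have hr : 0 < a.evalR e := by
        by_contra hc
        push Not at hc
        nlinarith [h1.1]
      have h2R : (0 : ℝ) < p.2 := by nlinarith [h1.2]
      have h2Z : 0 < p.2 := by exact_mod_cast h2R
      have h3 := ediv_le_real (SC * SC) p.2 h2Z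
      have h4 := le_cediv_real (SC * SC) p.1 h0
      set r := a.evalR e
      have hri : r⁻¹ * r = 1 := inv_mul_cancel₀ hr.ne'
      have hrp : 0 < r⁻¹ := inv_pos.mpr hr
      constructor
      · by_contra hc
        push Not at hc
        have e1 : r⁻¹ * SC * p.2 < ((SC * SC / p.2 : ℤ) : ℝ) * p.2 := by nlinarith
        have e2 : r⁻¹ * SC * (r * SC) ≤ r⁻¹ * SC * p.2 :=
          mul_le_mul_of_nonneg_left h1.2 (by positivity)
        have e3 : r⁻¹ * SC * (r * SC) = SC * SC := by
          calc r⁻¹ * SC * (r * SC) = (r⁻¹ * r) * (SC * SC) := by ring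
            _ = SC * SC := by rw [hri, one_mul]
        push_cast at h3
        linarith
      · by_contra hc
        push Not at hc
        have e1 : ((-(-(SC * SC) / p.1) : ℤ) : ℝ) * p.1 < r⁻¹ * SC * p.1 := by nlinarith
        have e2 : r⁻¹ * SC * p.1 ≤ r⁻¹ * SC * (r * SC) :=
          mul_le_mul_of_nonneg_left h1.1 (by positivity)
        have e3 : r⁻¹ * SC * (r * SC) = SC * SC := by
          calc r⁻¹ * SC * (r * SC) = (r⁻¹ * r) * (SC * SC) := by ring
            _ = SC * SC := by rw [hri, one_mul]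
        have h5 : ((SC * SC : ℤ) : ℝ) = (SC : ℝ) * SC := by push_cast; ring
        linarith
    · cases hx
  | sqrt a iha =>
    intro e E h x hx
    simp only [Ex.evalI, mk_eq, forceZ_eq, forceN_eq, getI_eq, zadd_eq, zsub_eq, zmul_eq, zfl_eq,
      zce_eq, zmin_eq, zmax_eq, zle_eq, mulI, Bool.cond_eq_ite, decide_eq_true_eq,
      Int.ofNat_eq_natCast, Nat.cast_zero, Bool.and_eq_true] at hx
    split at hx
    · rename_i p hp
      split_ifs at hx with h0
      cases hx
      have h1 := iha e E h p hp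
      simp only [Ex.evalR, Mem] at *
      have hS := SC_pos
      obtain ⟨hl, hh⟩ := h0
      set l : ℕ := isq (p.1 * SC).toNat
      set u : ℕ := isq (p.2 * SC).toNat + 1
      set r := a.evalR e
      have hlR : (l : ℝ) * l ≤ max ((p.1 : ℝ) * SC) 0 := by exact_mod_cast hl
      have hhR : (p.2 : ℝ) * SC ≤ (u : ℝ) * u := by exact_mod_cast hh
      have hs : Real.sqrt r * SC = Real.sqrt (r * (SC * SC)) := by
        rw [Real.sqrt_mul' _ (by positivity), Real.sqrt_mul_self hS.le]
      rw [hs]
      constructor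
      · push_cast
        rcases le_total ((p.1 : ℝ) * SC) 0 with h3 | h3
        · rw [max_eq_right h3] at hlR
          have : (l : ℝ) = 0 := by nlinarith [Nat.cast_nonneg (α := ℝ) l]
          rw [this]; exact Real.sqrt_nonneg _
        · rw [max_eq_left h3] at hlR
          apply Real.le_sqrt_of_sq_le
          nlinarith [h1.1]
      · push_cast
        apply Real.sqrt_le_iff.mpr
        refine ⟨Nat.cast_nonneg _, ?_⟩
        nlinarith [h1.2]
    · cases hx
  | sq a iha =>
    intro e E h x hx
    simp only [Ex.evalI, mk_eq, forceZ_eq, forceN_eq, getI_eq, zadd_eq, zsub_eq, zmul_eq, zfl_eq,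
      zce_eq, zmin_eq, zmax_eq, zle_eq, mulI, Bool.cond_eq_ite, decide_eq_true_eq,
      Int.ofNat_eq_natCast, Nat.cast_zero, Bool.and_eq_true] at hx
    split at hx
    · rename_i p hp
      have h1 := iha e E h p hp
      simp only [Ex.evalR, Mem] at *
      have hS := SC_pos
      set r := a.evalR e
      split_ifs at hx with h0 h2
      · cases hx
        have h0R : (0 : ℝ) ≤ p.1 := by exact_mod_cast h0
        constructor
        · apply fl_le; push_cast; nlinarith [h1.1]
        · apply le_ce; push_cast; nlinarith [h1.1, h1.2]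
      · cases hx
        have h2R : (p.2 : ℝ) ≤ 0 := by exact_mod_cast h2
        constructor
        · apply fl_le; push_cast; nlinarith [h1.2]
        · apply le_ce; push_cast; nlinarith [h1.1, h1.2]
      · cases hx
        constructor
        · push_cast; positivity
        · apply le_ce; push_cast
          rcases le_total 0 (r * SC) with h3 | h3
          · exact le_trans (by nlinarith [h1.2]) (le_max_right _ _)
          · exact le_trans (by nlinarith [h1.1]) (le_max_left _ _)
    · cases hx
  | abs a iha =>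
    intro e E h x hx
    simp only [Ex.evalI, mk_eq, forceZ_eq, forceN_eq, getI_eq, zadd_eq, zsub_eq, zmul_eq, zfl_eq,
      zce_eq, zmin_eq, zmax_eq, zle_eq, mulI, Bool.cond_eq_ite, decide_eq_true_eq,
      Int.ofNat_eq_natCast, Nat.cast_zero, Bool.and_eq_true] at hx
    split at hx
    · rename_i p hp
      have h1 := iha e E h p hp
      simp only [Ex.evalR, Mem] at *
      have hS := SC_pos
      set r := a.evalR e
      have hab : |r| * SC = |r * SC| := by rw [abs_mul, abs_of_pos hS]
      rw [hab]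
      split_ifs at hx with h0 h2
      · have h0R : (0 : ℝ) ≤ p.1 := by exact_mod_cast h0
        cases hx
        rw [abs_of_nonneg (by linarith [h1.1])]; exact h1
      · cases hx
        have h2R : (p.2 : ℝ) ≤ 0 := by exact_mod_cast h2
        rw [abs_of_nonpos (by linarith [h1.2])]
        push_cast
        constructor <;> linarith [h1.1, h1.2]
      · cases hx
        constructor
        · push_cast; exact abs_nonneg _
        · push_cast
          rcases le_total 0 (r * SC) with h3 | h3
          · rw [abs_of_nonneg h3]; exact le_trans h1.2 (le_max_right _ _)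
          · rw [abs_of_nonpos h3]; exact le_trans (by linarith [h1.1]) (le_max_left _ _)
    · cases hx
  | lt a b iha ihb =>
    intro e E h x hx
    simp only [Ex.evalI, mk_eq, forceZ_eq, forceN_eq, getI_eq, zadd_eq, zsub_eq, zmul_eq, zfl_eq,
      zce_eq, zmin_eq, zmax_eq, zle_eq, mulI, Bool.cond_eq_ite, decide_eq_true_eq,
      Int.ofNat_eq_natCast, Nat.cast_zero, Bool.and_eq_true] at hx
    split at hx
    · rename_i p hp
      exact ihb _ _ (List.Forall₂.cons (iha e E h p hp) h) x hx
    · cases hx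

def posOn (t : Ex) (x y : ℤ × ℤ) : Bool :=
  match t.evalI [x, y] with
  | some z => decide (0 < z.1)
  | none => false

/-- Adaptive bisection. The flag says which side is split next; `one` means only the second
variable is split. -/
def chk (t : Ex) (one : Bool) : ℕ → Bool → ℤ × ℤ → ℤ × ℤ → Bool
  | 0, _, x, y => posOn t x y
  | f + 1, b, x, y =>
    posOn t x y ||
      (if b then
        forceZ ((x.1 + x.2) / 2) fun m =>
          chk t one f false (x.1, m) y && chk t one f false (m, x.2) y
      else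
        forceZ ((y.1 + y.2) / 2) fun m =>
          chk t one f (!one) x (y.1, m) && chk t one f (!one) x (m, y.2))

lemma posOn_sound (t : Ex) (x y : ℤ × ℤ) (h : posOn t x y = true) (a b : ℝ)
    (ha : Mem a x) (hb : Mem b y) : 0 < t.evalR [a, b] := by
  unfold posOn at h
  split at h
  · rename_i z hz
    have h1 := Ex.sound t [a, b] [x, y]
      (List.Forall₂.cons ha (List.Forall₂.cons hb List.Forall₂.nil)) z hz
    have h2 : (0 : ℝ) < z.1 := by exact_mod_cast (of_decide_eq_true h)
    have := SC_pos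
    by_contra hc
    push Not at hc
    nlinarith [h1.1]
  · cases h

lemma mem_split (a : ℝ) (x : ℤ × ℤ) (m : ℤ) (ha : Mem a x) :
    Mem a (x.1, m) ∨ Mem a (m, x.2) := by
  rcases le_total (a * SC) m with h | h
  · exact Or.inl ⟨ha.1, h⟩
  · exact Or.inr ⟨h, ha.2⟩

theorem chk_sound (t : Ex) (one : Bool) : ∀ (f : ℕ) (b : Bool) (x y : ℤ × ℤ),
    chk t one f b x y = true → ∀ p q : ℝ, Mem p x → Mem q y → 0 < t.evalR [p, q] := by
  intro f
  induction f with
  | zero => intro b x y h p q hp hq; exact posOn_sound t x y h p q hp hq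
  | succ f ih =>
    intro b x y h p q hp hq
    simp only [chk, Bool.or_eq_true, forceZ_eq] at h
    rcases h with h | h
    · exact posOn_sound t x y h p q hp hq
    · split_ifs at h with hb
      · simp only [Bool.and_eq_true] at h
        rcases mem_split p x ((x.1 + x.2) / 2) hp with h1 | h1
        · exact ih _ _ _ h.1 p q h1 hq
        · exact ih _ _ _ h.2 p q h1 hq
      · simp only [Bool.and_eq_true] at h
        rcases mem_split q y ((y.1 + y.2) / 2) hq with h1 | h1
        · exact ih _ _ _ h.1 p q hp h1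
        · exact ih _ _ _ h.2 p q hp h1

/-- The box with sides `[a/100, b/100]`. -/
def box (a b : ℤ) : ℤ × ℤ := ((a * SC) / 100, -((-(b * SC)) / 100))

lemma mem_box (a b : ℤ) (r : ℝ) (h1 : (a : ℝ) / 100 ≤ r) (h2 : r ≤ (b : ℝ) / 100) :
    Mem r (box a b) := by
  have e1 := ediv_le_real (a * SC) 100 (by norm_num)
  have e2 := le_cediv_real (b * SC) 100 (by norm_num)
  have := SC_pos
  simp only [Mem, box]
  push_cast at e1 e2 ⊢
  constructor <;> nlinarith

end Pool.Agent.Lib.MP_55cb2c_co
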