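import Pool.Agent.Lib.MP_55cb2c_co.IA

/-! Numerical inequalities, checked by interval arithmetic. -/

namespace Pool.Agent.Lib.MP_55cb2c_co

def exI3a : Ex :=
    (.lt (.mul (.v 0) (.v 1)) (.lt (.sqrt (.sub (.c 1 1) (.sq (.v 0)))) (.lt (.sqrt (.sub (.c 1
    1) (.sq (.v 3)))) (.lt (.sqrt (.c 3 1)) (.lt (.sub (.v 1) (.mul (.v 0) (.v 5))) (.lt (.mul
    (.v 6) (.sub (.mul (.v 1) (.v 2)) (.v 6))) (.lt (.sub (.c 1 2) (.mul (.c 2 1) (.sq (.v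
    7)))) (.lt (.sub (.c 1 1) (.mul (.c 2 1) (.sq (.v 6)))) (.lt (.mul (.mul (.c 2 1) (.v 7))
    (.v 6)) (.lt (.sub (.sub (.mul (.v 7) (.v 6)) (.mul (.v 8) (.v 10))) (.mul (.v 5) (.add
    (.mul (.v 8) (.v 6)) (.mul (.v 7) (.v 10))))) (.lt (.add (.mul (.v 2) (.v 7)) (.mul (.v 1)
    (.v 11))) (.lt (.sub (.mul (.v 2) (.v 8)) (.mul (.v 3) (.v 12))) (.lt (.sqrt (.mul (.c 2 1)
    (.sub (.sub (.c 1 1) (.v 6)) (.mul (.v 7) (.mul (.c 1 2) (.add (.v 1) (.mul (.v 8) (.v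
    0)))))))) (.lt (.sqrt (.mul (.c 2 1) (.sub (.sub (.c 1 1) (.v 6)) (.mul (.mul (.c 2 1) (.v
    14)) (.mul (.c 1 2) (.sub (.mul (.v 9) (.v 2)) (.v 1))))))) (.lt (.sqrt (.mul (.c 2 1)
    (.sub (.sub (.c 1 1) (.v 7)) (.mul (.mul (.c 2 1) (.v 15)) (.add (.mul (.v 5) (.v 11))
    (.mul (.v 6) (.v 15))))))) (.lt (.sqrt (.add (.add (.c 1 1) (.sq (.v 15))) (.mul (.v 15)
    (.v 5)))) (.add (.mul (.mul (.mul (.mul (.mul (.c 3 32) (.sq (.sub (.mul (.v 12) (.v 13))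
    (.v 17)))) (.v 11)) (.add (.mul (.mul (.mul (.c 2 1) (.v 16)) (.v 14)) (.v 13)) (.v 8)))
    (.inv (.v 0))) (.sq (.sq (.inv (.v 0))))) (.mul (.sq (.v 17)) (.sub (.add (.add (.mul (.mul
    (.mul (.v 11) (.mul (.c 1 2) (.sub (.v 4) (.mul (.v 12) (.v 5))))) (.inv (.v 3))) (.add
    (.mul (.mul (.c 3 1) (.sq (.v 10))) (.sq (.sq (.inv (.v 3))))) (.c 1 4))) (.mul (.mul (.mul
    (.mul (.c 2 1) (.v 17)) (.mul (.c 1 2) (.add (.mul (.v 12) (.v 4)) (.v 5)))) (.inv (.v 2)))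
    (.add (.mul (.mul (.c 3 1) (.sq (.v 9))) (.sq (.sq (.inv (.v 2))))) (.c 1 4)))) (.mul (.mul
    (.mul (.mul (.c 2 1) (.v 17)) (.sub (.mul (.v 7) (.v 17)) (.mul (.v 8) (.v 13)))) (.inv (.v
    1))) (.add (.mul (.mul (.c 3 1) (.sq (.v 9))) (.sq (.sq (.inv (.v 1))))) (.c 1 4)))) (.c 1
    2))))))))))))))))))))

theorem chkI3a : chk exI3a false 30 true (box 0 100) (box 0 9) = true := by
  decide +kernel

theorem numI3a (z Y : ℝ) (ha0 : 0 / 100 ≤ z) (ha1 : z ≤ 100 / 100)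
    (hb0 : 0 / 100 ≤ Y) (hb1 : Y ≤ 9 / 100)
    (X cX cY r R3 w3 w5 cs ss k3 cm sm d4 d5 d6 e : ℝ)
    (hX : X = (z * Y))
    (hcX : cX = (Real.sqrt (1 - (X ^ 2))))
    (hcY : cY = (Real.sqrt (1 - (Y ^ 2))))
    (hr : r = (Real.sqrt 3))
    (hR3 : R3 = (cY - (r * Y)))
    (hw3 : w3 = (Y * ((r * cY) - Y)))
    (hw5 : w5 = ((1 / 2) - (2 * (Y ^ 2))))
    (hcs : cs = (1 - (2 * (X ^ 2))))
    (hss : ss = ((2 * X) * cX))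
    (hk3 : k3 = (((cX * cY) - (X * Y)) - (r * ((X * cY) + (cX * Y)))))
    (hcm : cm = ((cs * cY) + (ss * Y)))
    (hsm : sm = ((ss * cY) - (cs * Y)))
    (hd4 : d4 = (Real.sqrt (2 * ((1 - w3) - (R3 * ((1 / 2) * (cm + (r * sm))))))))
    (hd5 : d5 = (Real.sqrt (2 * ((1 - w5) - ((2 * Y) * ((1 / 2) * ((r * cm) - sm)))))))
    (hd6 : d6 = (Real.sqrt (2 * ((1 - w5) - ((2 * Y) * ((ss * cY) + (cs * Y)))))))
    (he : e = (Real.sqrt ((1 + (z ^ 2)) + (z * k3))))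
    : 0 <
    (((((((3 / 32) * (((r * cY) - Y) ^ 2)) * R3) * ((((2 * z) * cX) * cY) + cs)) * (e)⁻¹) *
    (((e)⁻¹ ^ 2) ^ 2)) + ((Y ^ 2) * ((((((R3 * ((1 / 2) * (sm - (r * cm)))) * (d4)⁻¹) * (((3 *
    (w3 ^ 2)) * (((d4)⁻¹ ^ 2) ^ 2)) + (1 / 4))) + ((((2 * Y) * ((1 / 2) * ((r * sm) + cm))) *
    (d5)⁻¹) * (((3 * (w5 ^ 2)) * (((d5)⁻¹ ^ 2) ^ 2)) + (1 / 4)))) + ((((2 * Y) * ((ss * Y) -
    (cs * cY))) * (d6)⁻¹) * (((3 * (w5 ^ 2)) * (((d6)⁻¹ ^ 2) ^ 2)) + (1 / 4)))) - (1 / 2)))) := by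
  have h := chk_sound _ _ _ _ _ _ chkI3a z Y
    (mem_box _ _ _ (by push_cast; linarith) (by push_cast; linarith))
    (mem_box _ _ _ (by push_cast; linarith) (by push_cast; linarith))
  simp only [exI3a, Ex.evalR, List.getD_cons_zero, List.getD_cons_succ, Nat.cast_ofNat,
    Int.cast_ofNat, Nat.cast_one, Int.cast_one, div_one] at h
  subst hX hcX hcY hr hR3 hw3 hw5 hcs hss hk3 hcm hsm hd4 hd5 hd6 he
  exact h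

def exI3c : Ex :=
    (.lt (.sqrt (.sub (.c 1 1) (.sq (.v 0)))) (.lt (.sqrt (.sub (.c 1 1) (.sq (.v 2)))) (.lt
    (.sqrt (.c 3 1)) (.lt (.sub (.v 1) (.mul (.v 0) (.v 4))) (.lt (.mul (.v 5) (.sub (.mul (.v
    1) (.v 2)) (.v 5))) (.lt (.sub (.c 1 2) (.mul (.c 2 1) (.sq (.v 6)))) (.lt (.sub (.c 1 1)
    (.mul (.c 2 1) (.sq (.v 6)))) (.lt (.mul (.mul (.c 2 1) (.v 7)) (.v 6)) (.lt (.sub (.sub
    (.mul (.v 7) (.v 6)) (.mul (.v 8) (.v 9))) (.mul (.v 5) (.add (.mul (.v 8) (.v 6)) (.mul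
    (.v 7) (.v 9))))) (.lt (.add (.mul (.v 2) (.v 7)) (.mul (.v 1) (.v 10))) (.lt (.sub (.mul
    (.v 2) (.v 8)) (.mul (.v 3) (.v 11))) (.lt (.sqrt (.mul (.c 2 1) (.sub (.sub (.c 1 1) (.v
    6)) (.mul (.v 7) (.mul (.c 1 2) (.add (.v 1) (.mul (.v 8) (.v 0)))))))) (.lt (.sqrt (.mul
    (.c 2 1) (.sub (.sub (.c 1 1) (.v 6)) (.mul (.mul (.c 2 1) (.v 13)) (.mul (.c 1 2) (.sub
    (.mul (.v 9) (.v 2)) (.v 1))))))) (.lt (.sqrt (.mul (.c 2 1) (.sub (.sub (.c 1 1) (.v 7))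
    (.mul (.mul (.c 2 1) (.v 14)) (.add (.mul (.v 5) (.v 11)) (.mul (.v 6) (.v 14))))))) (.lt
    (.sqrt (.mul (.c 4 1) (.add (.add (.sq (.v 14)) (.sq (.v 15))) (.mul (.mul (.v 14) (.v 15))
    (.v 5))))) (.sub (.add (.mul (.mul (.mul (.v 11) (.add (.mul (.v 7) (.v 13)) (.mul (.v 8)
    (.v 16)))) (.inv (.v 0))) (.add (.mul (.mul (.c 3 1) (.sq (.v 10))) (.sq (.sq (.inv (.v
    0))))) (.c 1 4))) (.add (.add (.mul (.mul (.mul (.v 11) (.mul (.c 1 2) (.sub (.v 4) (.mul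
    (.v 12) (.v 5))))) (.inv (.v 3))) (.add (.mul (.mul (.c 3 1) (.sq (.v 10))) (.sq (.sq (.inv
    (.v 3))))) (.c 1 4))) (.mul (.mul (.mul (.mul (.c 2 1) (.v 16)) (.mul (.c 1 2) (.add (.mul
    (.v 12) (.v 4)) (.v 5)))) (.inv (.v 2))) (.add (.mul (.mul (.c 3 1) (.sq (.v 9))) (.sq (.sq
    (.inv (.v 2))))) (.c 1 4)))) (.mul (.mul (.mul (.mul (.c 2 1) (.v 16)) (.sub (.mul (.v 7)
    (.v 16)) (.mul (.v 8) (.v 13)))) (.inv (.v 1))) (.add (.mul (.mul (.c 3 1) (.sq (.v 9)))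
    (.sq (.sq (.inv (.v 1))))) (.c 1 4))))) (.c 1 2)))))))))))))))))

theorem chkI3c : chk exI3c false 30 true (box 0 9) (box 9 26) = true := by
  decide +kernel

theorem numI3c (X Y : ℝ) (ha0 : 0 / 100 ≤ X) (ha1 : X ≤ 9 / 100)
    (hb0 : 9 / 100 ≤ Y) (hb1 : Y ≤ 26 / 100)
    (cX cY r R3 w3 w5 cs ss k3 cm sm d4 d5 d6 d3 : ℝ)
    (hcX : cX = (Real.sqrt (1 - (X ^ 2))))
    (hcY : cY = (Real.sqrt (1 - (Y ^ 2))))
    (hr : r = (Real.sqrt 3))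
    (hR3 : R3 = (cY - (r * Y)))
    (hw3 : w3 = (Y * ((r * cY) - Y)))
    (hw5 : w5 = ((1 / 2) - (2 * (Y ^ 2))))
    (hcs : cs = (1 - (2 * (X ^ 2))))
    (hss : ss = ((2 * X) * cX))
    (hk3 : k3 = (((cX * cY) - (X * Y)) - (r * ((X * cY) + (cX * Y)))))
    (hcm : cm = ((cs * cY) + (ss * Y)))
    (hsm : sm = ((ss * cY) - (cs * Y)))
    (hd4 : d4 = (Real.sqrt (2 * ((1 - w3) - (R3 * ((1 / 2) * (cm + (r * sm))))))))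
    (hd5 : d5 = (Real.sqrt (2 * ((1 - w5) - ((2 * Y) * ((1 / 2) * ((r * cm) - sm)))))))
    (hd6 : d6 = (Real.sqrt (2 * ((1 - w5) - ((2 * Y) * ((ss * cY) + (cs * Y)))))))
    (hd3 : d3 = (Real.sqrt (4 * (((X ^ 2) + (Y ^ 2)) + ((X * Y) * k3)))))
    : 0 <
    (((((R3 * ((ss * cY) + (cs * Y))) * (d3)⁻¹) * (((3 * (w3 ^ 2)) * (((d3)⁻¹ ^ 2) ^ 2)) + (1 /
    4))) + (((((R3 * ((1 / 2) * (sm - (r * cm)))) * (d4)⁻¹) * (((3 * (w3 ^ 2)) * (((d4)⁻¹ ^ 2)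
    ^ 2)) + (1 / 4))) + ((((2 * Y) * ((1 / 2) * ((r * sm) + cm))) * (d5)⁻¹) * (((3 * (w5 ^ 2))
    * (((d5)⁻¹ ^ 2) ^ 2)) + (1 / 4)))) + ((((2 * Y) * ((ss * Y) - (cs * cY))) * (d6)⁻¹) * (((3
    * (w5 ^ 2)) * (((d6)⁻¹ ^ 2) ^ 2)) + (1 / 4))))) - (1 / 2)) := by
  have h := chk_sound _ _ _ _ _ _ chkI3c X Y
    (mem_box _ _ _ (by push_cast; linarith) (by push_cast; linarith))
    (mem_box _ _ _ (by push_cast; linarith) (by push_cast; linarith))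
  simp only [exI3c, Ex.evalR, List.getD_cons_zero, List.getD_cons_succ, Nat.cast_ofNat,
    Int.cast_ofNat, Nat.cast_one, Int.cast_one, div_one] at h
  subst hcX hcY hr hR3 hw3 hw5 hcs hss hk3 hcm hsm hd4 hd5 hd6 hd3
  exact h

def exI3b : Ex :=
    (.lt (.mul (.v 1) (.v 0)) (.lt (.sqrt (.sub (.c 1 1) (.sq (.v 1)))) (.lt (.sqrt (.sub (.c 1
    1) (.sq (.v 1)))) (.lt (.sqrt (.c 3 1)) (.lt (.sub (.v 1) (.mul (.v 0) (.v 3))) (.lt (.mul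
    (.v 4) (.sub (.mul (.v 1) (.v 2)) (.v 4))) (.lt (.sub (.c 1 2) (.mul (.c 2 1) (.sq (.v
    5)))) (.lt (.sub (.c 1 1) (.mul (.c 2 1) (.sq (.v 7)))) (.lt (.mul (.mul (.c 2 1) (.v 8))
    (.v 6)) (.lt (.sub (.sub (.mul (.v 7) (.v 6)) (.mul (.v 9) (.v 8))) (.mul (.v 5) (.add
    (.mul (.v 9) (.v 6)) (.mul (.v 7) (.v 8))))) (.lt (.add (.mul (.v 2) (.v 7)) (.mul (.v 1)
    (.v 9))) (.lt (.sub (.mul (.v 2) (.v 8)) (.mul (.v 3) (.v 10))) (.lt (.sqrt (.mul (.c 2 1)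
    (.sub (.sub (.c 1 1) (.v 6)) (.mul (.v 7) (.mul (.c 1 2) (.add (.v 1) (.mul (.v 8) (.v
    0)))))))) (.lt (.sqrt (.mul (.c 2 1) (.sub (.sub (.c 1 1) (.v 6)) (.mul (.mul (.c 2 1) (.v
    12)) (.mul (.c 1 2) (.sub (.mul (.v 9) (.v 2)) (.v 1))))))) (.lt (.sqrt (.mul (.c 2 1)
    (.sub (.sub (.c 1 1) (.v 7)) (.mul (.mul (.c 2 1) (.v 13)) (.add (.mul (.v 5) (.v 11))
    (.mul (.v 6) (.v 13))))))) (.lt (.sqrt (.add (.add (.c 1 1) (.sq (.v 16))) (.mul (.v 16)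
    (.v 5)))) (.sub (.add (.add (.mul (.mul (.mul (.v 11) (.add (.mul (.mul (.c 2 1) (.v 14))
    (.v 13)) (.mul (.v 8) (.v 17)))) (.inv (.v 0))) (.add (.mul (.mul (.c 625 54) (.sq (.mul
    (.v 17) (.sub (.mul (.v 12) (.v 13)) (.v 15))))) (.sq (.sq (.inv (.v 0))))) (.c 1 8)))
    (.add (.add (.mul (.mul (.mul (.v 11) (.mul (.c 1 2) (.sub (.v 4) (.mul (.v 12) (.v 5)))))
    (.inv (.v 3))) (.add (.mul (.mul (.c 3 1) (.sq (.v 10))) (.sq (.sq (.inv (.v 3))))) (.c 1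
    4))) (.mul (.mul (.mul (.mul (.c 2 1) (.v 15)) (.mul (.c 1 2) (.add (.mul (.v 12) (.v 4))
    (.v 5)))) (.inv (.v 2))) (.add (.mul (.mul (.c 3 1) (.sq (.v 9))) (.sq (.sq (.inv (.v
    2))))) (.c 1 4)))) (.mul (.mul (.mul (.mul (.c 2 1) (.v 15)) (.sub (.mul (.v 7) (.v 15))
    (.mul (.v 8) (.v 13)))) (.inv (.v 1))) (.add (.mul (.mul (.c 3 1) (.sq (.v 9))) (.sq (.sq
    (.inv (.v 1))))) (.c 1 4))))) (.mul (.c 1 4) (.add (.mul (.v 14) (.v 13)) (.mul (.v 16) (.v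
    15))))) (.mul (.c 1 8) (.add (.mul (.v 12) (.sub (.mul (.v 14) (.v 13)) (.mul (.v 16) (.v
    15)))) (.add (.mul (.v 16) (.v 13)) (.mul (.v 14) (.v 15))))))))))))))))))))))

theorem chkI3b : chk exI3b false 30 true (box 0 9) (box 0 100) = true := by
  decide +kernel

theorem numI3b (X z : ℝ) (ha0 : 0 / 100 ≤ X) (ha1 : X ≤ 9 / 100)
    (hb0 : 0 / 100 ≤ z) (hb1 : z ≤ 100 / 100)
    (Y cX cY r R3 w3 w5 cs ss k3 cm sm d4 d5 d6 e : ℝ)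
    (hY : Y = (z * X))
    (hcX : cX = (Real.sqrt (1 - (X ^ 2))))
    (hcY : cY = (Real.sqrt (1 - (Y ^ 2))))
    (hr : r = (Real.sqrt 3))
    (hR3 : R3 = (cY - (r * Y)))
    (hw3 : w3 = (Y * ((r * cY) - Y)))
    (hw5 : w5 = ((1 / 2) - (2 * (Y ^ 2))))
    (hcs : cs = (1 - (2 * (X ^ 2))))
    (hss : ss = ((2 * X) * cX))
    (hk3 : k3 = (((cX * cY) - (X * Y)) - (r * ((X * cY) + (cX * Y)))))
    (hcm : cm = ((cs * cY) + (ss * Y)))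
    (hsm : sm = ((ss * cY) - (cs * Y)))
    (hd4 : d4 = (Real.sqrt (2 * ((1 - w3) - (R3 * ((1 / 2) * (cm + (r * sm))))))))
    (hd5 : d5 = (Real.sqrt (2 * ((1 - w5) - ((2 * Y) * ((1 / 2) * ((r * cm) - sm)))))))
    (hd6 : d6 = (Real.sqrt (2 * ((1 - w5) - ((2 * Y) * ((ss * cY) + (cs * Y)))))))
    (he : e = (Real.sqrt ((1 + (z ^ 2)) + (z * k3))))
    : 0 <
    ((((((R3 * (((2 * cX) * cY) + (cs * z))) * (e)⁻¹) * ((((625 / 54) * ((z * ((r * cY) - Y)) ^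
    2)) * (((e)⁻¹ ^ 2) ^ 2)) + (1 / 8))) + (((((R3 * ((1 / 2) * (sm - (r * cm)))) * (d4)⁻¹) *
    (((3 * (w3 ^ 2)) * (((d4)⁻¹ ^ 2) ^ 2)) + (1 / 4))) + ((((2 * Y) * ((1 / 2) * ((r * sm) +
    cm))) * (d5)⁻¹) * (((3 * (w5 ^ 2)) * (((d5)⁻¹ ^ 2) ^ 2)) + (1 / 4)))) + ((((2 * Y) * ((ss *
    Y) - (cs * cY))) * (d6)⁻¹) * (((3 * (w5 ^ 2)) * (((d6)⁻¹ ^ 2) ^ 2)) + (1 / 4))))) + ((1 /
    4) * ((cX * cY) + (X * Y)))) - ((1 / 8) * ((r * ((cX * cY) - (X * Y))) + ((X * cY) + (cX *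
    Y))))) := by
  have h := chk_sound _ _ _ _ _ _ chkI3b X z
    (mem_box _ _ _ (by push_cast; linarith) (by push_cast; linarith))
    (mem_box _ _ _ (by push_cast; linarith) (by push_cast; linarith))
  simp only [exI3b, Ex.evalR, List.getD_cons_zero, List.getD_cons_succ, Nat.cast_ofNat,
    Int.cast_ofNat, Nat.cast_one, Int.cast_one, div_one] at h
  subst hY hcX hcY hr hR3 hw3 hw5 hcs hss hk3 hcm hsm hd4 hd5 hd6 he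
  exact h

def exI4 : Ex :=
    (.lt (.sqrt (.sub (.c 1 1) (.sq (.v 0)))) (.lt (.sqrt (.sub (.c 1 1) (.sq (.v 2)))) (.lt
    (.sqrt (.c 3 1)) (.lt (.sub (.v 1) (.mul (.v 0) (.v 4))) (.lt (.mul (.v 5) (.sub (.mul (.v
    1) (.v 2)) (.v 5))) (.lt (.sub (.c 1 2) (.mul (.c 2 1) (.sq (.v 6)))) (.lt (.sub (.c 1 1)
    (.mul (.c 2 1) (.sq (.v 6)))) (.lt (.mul (.mul (.c 2 1) (.v 7)) (.v 6)) (.lt (.sub (.sub
    (.mul (.v 7) (.v 6)) (.mul (.v 8) (.v 9))) (.mul (.v 5) (.add (.mul (.v 8) (.v 6)) (.mul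
    (.v 7) (.v 9))))) (.lt (.add (.mul (.v 2) (.v 7)) (.mul (.v 1) (.v 10))) (.lt (.sub (.mul
    (.v 2) (.v 8)) (.mul (.v 3) (.v 11))) (.lt (.sqrt (.mul (.c 2 1) (.sub (.sub (.c 1 1) (.v
    6)) (.mul (.v 7) (.mul (.c 1 2) (.add (.v 1) (.mul (.v 8) (.v 0)))))))) (.lt (.sqrt (.mul
    (.c 2 1) (.sub (.sub (.c 1 1) (.v 6)) (.mul (.mul (.c 2 1) (.v 13)) (.mul (.c 1 2) (.sub
    (.mul (.v 9) (.v 2)) (.v 1))))))) (.lt (.sqrt (.mul (.c 2 1) (.sub (.sub (.c 1 1) (.v 7))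
    (.mul (.mul (.c 2 1) (.v 14)) (.add (.mul (.v 5) (.v 11)) (.mul (.v 6) (.v 14))))))) (.lt
    (.sqrt (.mul (.c 4 1) (.add (.add (.sq (.v 14)) (.sq (.v 15))) (.mul (.mul (.v 14) (.v 15))
    (.v 5))))) (.sub (.sub (.c 16 1) (.add (.add (.add (.mul (.sq (.v 10)) (.mul (.inv (.v 0))
    (.sq (.inv (.v 0))))) (.mul (.sq (.v 10)) (.mul (.inv (.v 3)) (.sq (.inv (.v 3)))))) (.mul
    (.sq (.v 9)) (.mul (.inv (.v 2)) (.sq (.inv (.v 2)))))) (.mul (.sq (.v 9)) (.mul (.inv (.v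
    1)) (.sq (.inv (.v 1))))))) (.mul (.c 15 4) (.add (.add (.add (.add (.add (.mul (.c 2 1)
    (.abs (.sub (.mul (.v 15) (.v 13)) (.mul (.v 14) (.v 16))))) (.v 6)) (.v 0)) (.v 3)) (.v
    2)) (.v 1)))))))))))))))))))

theorem chkI4 : chk exI4 false 30 true (box 8 26) (box 0 26) = true := by
  decide +kernel

theorem numI4 (X Y : ℝ) (ha0 : 8 / 100 ≤ X) (ha1 : X ≤ 26 / 100)
    (hb0 : 0 / 100 ≤ Y) (hb1 : Y ≤ 26 / 100)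
    (cX cY r R3 w3 w5 cs ss k3 cm sm d4 d5 d6 d3 : ℝ)
    (hcX : cX = (Real.sqrt (1 - (X ^ 2))))
    (hcY : cY = (Real.sqrt (1 - (Y ^ 2))))
    (hr : r = (Real.sqrt 3))
    (hR3 : R3 = (cY - (r * Y)))
    (hw3 : w3 = (Y * ((r * cY) - Y)))
    (hw5 : w5 = ((1 / 2) - (2 * (Y ^ 2))))
    (hcs : cs = (1 - (2 * (X ^ 2))))
    (hss : ss = ((2 * X) * cX))
    (hk3 : k3 = (((cX * cY) - (X * Y)) - (r * ((X * cY) + (cX * Y)))))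
    (hcm : cm = ((cs * cY) + (ss * Y)))
    (hsm : sm = ((ss * cY) - (cs * Y)))
    (hd4 : d4 = (Real.sqrt (2 * ((1 - w3) - (R3 * ((1 / 2) * (cm + (r * sm))))))))
    (hd5 : d5 = (Real.sqrt (2 * ((1 - w5) - ((2 * Y) * ((1 / 2) * ((r * cm) - sm)))))))
    (hd6 : d6 = (Real.sqrt (2 * ((1 - w5) - ((2 * Y) * ((ss * cY) + (cs * Y)))))))
    (hd3 : d3 = (Real.sqrt (4 * (((X ^ 2) + (Y ^ 2)) + ((X * Y) * k3)))))
    : 0 <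
    ((16 - (((((w3 ^ 2) * ((d3)⁻¹ * ((d3)⁻¹ ^ 2))) + ((w3 ^ 2) * ((d4)⁻¹ * ((d4)⁻¹ ^ 2)))) +
    ((w5 ^ 2) * ((d5)⁻¹ * ((d5)⁻¹ ^ 2)))) + ((w5 ^ 2) * ((d6)⁻¹ * ((d6)⁻¹ ^ 2))))) - ((15 / 4)
    * ((((((2 * |((X * cY) - (cX * Y))|) + k3) + d3) + d4) + d5) + d6))) := by
  have h := chk_sound _ _ _ _ _ _ chkI4 X Y
    (mem_box _ _ _ (by push_cast; linarith) (by push_cast; linarith))
    (mem_box _ _ _ (by push_cast; linarith) (by push_cast; linarith))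
  simp only [exI4, Ex.evalR, List.getD_cons_zero, List.getD_cons_succ, Nat.cast_ofNat,
    Int.cast_ofNat, Nat.cast_one, Int.cast_one, div_one] at h
  subst hcX hcY hr hR3 hw3 hw5 hcs hss hk3 hcm hsm hd4 hd5 hd6 hd3
  exact h

def exJ1 : Ex :=
    (.lt (.sqrt (.sub (.c 1 1) (.sq (.v 0)))) (.lt (.sqrt (.sub (.c 1 1) (.sq (.v 2)))) (.lt
    (.sqrt (.c 3 1)) (.lt (.sub (.v 1) (.mul (.v 0) (.v 4))) (.lt (.mul (.v 5) (.sub (.mul (.v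
    1) (.v 2)) (.v 5))) (.lt (.sub (.c 1 2) (.mul (.c 2 1) (.sq (.v 6)))) (.lt (.sub (.c 1 1)
    (.mul (.c 2 1) (.sq (.v 6)))) (.lt (.mul (.mul (.c 2 1) (.v 7)) (.v 6)) (.lt (.sub (.sub
    (.mul (.v 7) (.v 6)) (.mul (.v 8) (.v 9))) (.mul (.v 5) (.add (.mul (.v 8) (.v 6)) (.mul
    (.v 7) (.v 9))))) (.lt (.add (.mul (.v 2) (.v 7)) (.mul (.v 1) (.v 10))) (.lt (.sub (.mul
    (.v 2) (.v 8)) (.mul (.v 3) (.v 11))) (.lt (.sqrt (.mul (.c 2 1) (.sub (.sub (.c 1 1) (.v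
    6)) (.mul (.v 7) (.mul (.c 1 2) (.add (.v 1) (.mul (.v 8) (.v 0)))))))) (.lt (.sqrt (.mul
    (.c 2 1) (.sub (.sub (.c 1 1) (.v 6)) (.mul (.mul (.c 2 1) (.v 13)) (.mul (.c 1 2) (.sub
    (.mul (.v 9) (.v 2)) (.v 1))))))) (.lt (.sqrt (.mul (.c 2 1) (.sub (.sub (.c 1 1) (.v 7))
    (.mul (.mul (.c 2 1) (.v 14)) (.add (.mul (.v 5) (.v 11)) (.mul (.v 6) (.v 14))))))) (.lt
    (.sqrt (.mul (.c 4 1) (.add (.add (.sq (.v 14)) (.sq (.v 15))) (.mul (.mul (.v 14) (.v 15))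
    (.v 5))))) (.sub (.add (.add (.add (.add (.add (.add (.mul (.c 2 1) (.abs (.sub (.mul (.v
    15) (.v 13)) (.mul (.v 14) (.v 16))))) (.v 6)) (.v 0)) (.v 3)) (.v 2)) (.v 1)) (.mul (.c 10
    1) (.mul (.c 2 1) (.add (.add (.mul (.sub (.c 2 1) (.v 12)) (.v 16)) (.v 13)) (.c 1 1)))))
    (.c 8811 200)))))))))))))))))

theorem chkJ1 : chk exJ1 true 30 false (box 25 25) (box 0 8) = true := by
  decide +kernel

theorem numJ1 (X Y : ℝ) (ha0 : 25 / 100 ≤ X) (ha1 : X ≤ 25 / 100)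
    (hb0 : 0 / 100 ≤ Y) (hb1 : Y ≤ 8 / 100)
    (cX cY r R3 w3 w5 cs ss k3 cm sm d4 d5 d6 d3 : ℝ)
    (hcX : cX = (Real.sqrt (1 - (X ^ 2))))
    (hcY : cY = (Real.sqrt (1 - (Y ^ 2))))
    (hr : r = (Real.sqrt 3))
    (hR3 : R3 = (cY - (r * Y)))
    (hw3 : w3 = (Y * ((r * cY) - Y)))
    (hw5 : w5 = ((1 / 2) - (2 * (Y ^ 2))))
    (hcs : cs = (1 - (2 * (X ^ 2))))
    (hss : ss = ((2 * X) * cX))
    (hk3 : k3 = (((cX * cY) - (X * Y)) - (r * ((X * cY) + (cX * Y)))))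
    (hcm : cm = ((cs * cY) + (ss * Y)))
    (hsm : sm = ((ss * cY) - (cs * Y)))
    (hd4 : d4 = (Real.sqrt (2 * ((1 - w3) - (R3 * ((1 / 2) * (cm + (r * sm))))))))
    (hd5 : d5 = (Real.sqrt (2 * ((1 - w5) - ((2 * Y) * ((1 / 2) * ((r * cm) - sm)))))))
    (hd6 : d6 = (Real.sqrt (2 * ((1 - w5) - ((2 * Y) * ((ss * cY) + (cs * Y)))))))
    (hd3 : d3 = (Real.sqrt (4 * (((X ^ 2) + (Y ^ 2)) + ((X * Y) * k3)))))
    : 0 <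
    ((((((((2 * |((X * cY) - (cX * Y))|) + k3) + d3) + d4) + d5) + d6) + (10 * (2 * ((((2 - r)
    * Y) + cY) + 1)))) - (8811 / 200)) := by
  have h := chk_sound _ _ _ _ _ _ chkJ1 X Y
    (mem_box _ _ _ (by push_cast; linarith) (by push_cast; linarith))
    (mem_box _ _ _ (by push_cast; linarith) (by push_cast; linarith))
  simp only [exJ1, Ex.evalR, List.getD_cons_zero, List.getD_cons_succ, Nat.cast_ofNat,
    Int.cast_ofNat, Nat.cast_one, Int.cast_one, div_one] at h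
  subst hcX hcY hr hR3 hw3 hw5 hcs hss hk3 hcm hsm hd4 hd5 hd6 hd3
  exact h

def exJ2 : Ex :=
    (.lt (.sqrt (.sub (.c 1 1) (.sq (.v 0)))) (.lt (.sqrt (.sub (.c 1 1) (.sq (.v 2)))) (.lt
    (.sqrt (.c 3 1)) (.lt (.sub (.v 1) (.mul (.v 0) (.v 4))) (.lt (.mul (.v 5) (.sub (.mul (.v
    1) (.v 2)) (.v 5))) (.lt (.sub (.c 1 2) (.mul (.c 2 1) (.sq (.v 6)))) (.lt (.sub (.c 1 1)
    (.mul (.c 2 1) (.sq (.v 6)))) (.lt (.mul (.mul (.c 2 1) (.v 7)) (.v 6)) (.lt (.sub (.sub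
    (.mul (.v 7) (.v 6)) (.mul (.v 8) (.v 9))) (.mul (.v 5) (.add (.mul (.v 8) (.v 6)) (.mul
    (.v 7) (.v 9))))) (.lt (.add (.mul (.v 2) (.v 7)) (.mul (.v 1) (.v 10))) (.lt (.sub (.mul
    (.v 2) (.v 8)) (.mul (.v 3) (.v 11))) (.lt (.sqrt (.mul (.c 2 1) (.sub (.sub (.c 1 1) (.v
    6)) (.mul (.v 7) (.mul (.c 1 2) (.add (.v 1) (.mul (.v 8) (.v 0)))))))) (.lt (.sqrt (.mul
    (.c 2 1) (.sub (.sub (.c 1 1) (.v 6)) (.mul (.mul (.c 2 1) (.v 13)) (.mul (.c 1 2) (.sub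
    (.mul (.v 9) (.v 2)) (.v 1))))))) (.lt (.sqrt (.mul (.c 2 1) (.sub (.sub (.c 1 1) (.v 7))
    (.mul (.mul (.c 2 1) (.v 14)) (.add (.mul (.v 5) (.v 11)) (.mul (.v 6) (.v 14))))))) (.lt
    (.sqrt (.mul (.c 4 1) (.add (.add (.sq (.v 14)) (.sq (.v 15))) (.mul (.mul (.v 14) (.v 15))
    (.v 5))))) (.sub (.c 801 20) (.add (.add (.add (.add (.add (.add (.mul (.c 2 1) (.abs (.sub
    (.mul (.v 15) (.v 13)) (.mul (.v 14) (.v 16))))) (.v 6)) (.v 0)) (.v 3)) (.v 2)) (.v 1))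
    (.mul (.c 9 1) (.mul (.c 2 1) (.add (.add (.mul (.sub (.c 2 1) (.v 12)) (.v 16)) (.v 13))
    (.c 1 1)))))))))))))))))))))

theorem chkJ2 : chk exJ2 true 30 false (box 8 8) (box 0 8) = true := by
  decide +kernel

theorem numJ2 (X Y : ℝ) (ha0 : 8 / 100 ≤ X) (ha1 : X ≤ 8 / 100)
    (hb0 : 0 / 100 ≤ Y) (hb1 : Y ≤ 8 / 100)
    (cX cY r R3 w3 w5 cs ss k3 cm sm d4 d5 d6 d3 : ℝ)
    (hcX : cX = (Real.sqrt (1 - (X ^ 2))))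
    (hcY : cY = (Real.sqrt (1 - (Y ^ 2))))
    (hr : r = (Real.sqrt 3))
    (hR3 : R3 = (cY - (r * Y)))
    (hw3 : w3 = (Y * ((r * cY) - Y)))
    (hw5 : w5 = ((1 / 2) - (2 * (Y ^ 2))))
    (hcs : cs = (1 - (2 * (X ^ 2))))
    (hss : ss = ((2 * X) * cX))
    (hk3 : k3 = (((cX * cY) - (X * Y)) - (r * ((X * cY) + (cX * Y)))))
    (hcm : cm = ((cs * cY) + (ss * Y)))
    (hsm : sm = ((ss * cY) - (cs * Y)))
    (hd4 : d4 = (Real.sqrt (2 * ((1 - w3) - (R3 * ((1 / 2) * (cm + (r * sm))))))))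
    (hd5 : d5 = (Real.sqrt (2 * ((1 - w5) - ((2 * Y) * ((1 / 2) * ((r * cm) - sm)))))))
    (hd6 : d6 = (Real.sqrt (2 * ((1 - w5) - ((2 * Y) * ((ss * cY) + (cs * Y)))))))
    (hd3 : d3 = (Real.sqrt (4 * (((X ^ 2) + (Y ^ 2)) + ((X * Y) * k3)))))
    : 0 <
    ((801 / 20) - (((((((2 * |((X * cY) - (cX * Y))|) + k3) + d3) + d4) + d5) + d6) + (9 * (2 *
    ((((2 - r) * Y) + cY) + 1))))) := by
  have h := chk_sound _ _ _ _ _ _ chkJ2 X Y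
    (mem_box _ _ _ (by push_cast; linarith) (by push_cast; linarith))
    (mem_box _ _ _ (by push_cast; linarith) (by push_cast; linarith))
  simp only [exJ2, Ex.evalR, List.getD_cons_zero, List.getD_cons_succ, Nat.cast_ofNat,
    Int.cast_ofNat, Nat.cast_one, Int.cast_one, div_one] at h
  subst hcX hcY hr hR3 hw3 hw5 hcs hss hk3 hcm hsm hd4 hd5 hd6 hd3
  exact h

end Pool.Agent.Lib.MP_55cb2c_co
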