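import Pool.Agent.Lib.MP_55cb2c_co.Geom
import Pool.Agent.Lib.MP_55cb2c_co.Num

/-! Pointwise inequalities for the orbit sums of the distance and its derivatives. -/

namespace Pool.Agent.Lib.MP_55cb2c_co

open Real Set

noncomputable def g3 (x : ℂ) (s : ℝ) : ℝ := d1 x s * (3 * kk x s / dd x s + 1 / 4)

noncomputable def DD (s t : ℝ) : ℝ := osum (fun x => dd x s) (yy t)
noncomputable def D1 (s t : ℝ) : ℝ := osum (fun x => d1 x s) (yy t)
noncomputable def KK (s t : ℝ) : ℝ := osum (fun x => kk x s) (yy t)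
noncomputable def G3 (s t : ℝ) : ℝ := osum (fun x => g3 x s) (yy t)

noncomputable def k3 (s t : ℝ) : ℝ :=
  (cos (s / 2) * cos (t / 2) - sin (s / 2) * sin (t / 2)) -
    √3 * (sin (s / 2) * cos (t / 2) + cos (s / 2) * sin (t / 2))
noncomputable def cm (s t : ℝ) : ℝ := cos s * cos (t / 2) + sin s * sin (t / 2)
noncomputable def sm (s t : ℝ) : ℝ := sin s * cos (t / 2) - cos s * sin (t / 2)

lemma kk_eq {x : ℂ} {w : ℝ} (h : ‖x‖ ^ 2 = 1 - 2 * w) (s : ℝ) :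
    kk x s = w ^ 2 * ((dd x s)⁻¹ * (dd x s)⁻¹ ^ 2) := by
  unfold kk
  rw [h]
  by_cases h0 : dd x s = 0
  · simp [h0]
  · field_simp; ring

lemma g3_eq {x : ℂ} {w : ℝ} (h : ‖x‖ ^ 2 = 1 - 2 * w) (s : ℝ) :
    g3 x s = qq x s * (dd x s)⁻¹ * (3 * w ^ 2 * ((dd x s)⁻¹ ^ 2) ^ 2 + 1 / 4) := by
  unfold g3
  rw [kk_eq h]
  unfold d1
  by_cases h0 : dd x s = 0
  · simp [h0]
  · field_simp

variable (s t : ℝ)

lemma dd_x3 : dd (rho (rho (sg (yy t)))) s =
    √(4 * (sin (s / 2) ^ 2 + sin (t / 2) ^ 2 + sin (s / 2) * sin (t / 2) * k3 s t)) := by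
  rw [dd_eq_sqrt, norm_x3]
  congr 1
  rw [pp, x3_eq, cos_eq_half s, sin_eq_half s]
  have h := sin_sq_add_cos_sq (t / 2)
  simp only [R3, w3, k3]
  linear_combination (4 * sin (s / 2) ^ 2 - 2) * h

lemma dd_x4 : dd (rho (yy t)) s =
    √(2 * (1 - w3 t - R3 t * (1 / 2 * (cm s t + √3 * sm s t)))) := by
  rw [dd_eq_sqrt, norm_x4]
  congr 1
  rw [pp, x4_eq]
  simp only [cm, sm]
  ring

lemma dd_x5 : dd (rho (rho (yy t))) s =
    √(2 * (1 - w5 t - 2 * sin (t / 2) * (1 / 2 * (√3 * cm s t - sm s t)))) := by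
  rw [dd_eq_sqrt, norm_x5]
  congr 1
  rw [pp, x5_eq]
  simp only [cm, sm]
  ring

lemma dd_x6 : dd (rho (sg (yy t))) s =
    √(2 * (1 - w5 t - 2 * sin (t / 2) * (sin s * cos (t / 2) + cos s * sin (t / 2)))) := by
  rw [dd_eq_sqrt, norm_x6]
  congr 1
  rw [pp, x6_eq]
  ring

lemma qq_x3 : qq (rho (rho (sg (yy t)))) s =
    R3 t * (sin s * cos (t / 2) + cos s * sin (t / 2)) := by
  rw [qq, x3_eq]; ring

lemma qq_x4 : qq (rho (yy t)) s = R3 t * (1 / 2 * (sm s t - √3 * cm s t)) := by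
  rw [qq, x4_eq]; simp only [cm, sm]; ring

lemma qq_x5 : qq (rho (rho (yy t))) s = 2 * sin (t / 2) * (1 / 2 * (√3 * sm s t + cm s t)) := by
  rw [qq, x5_eq]; simp only [cm, sm]; ring

lemma qq_x6 : qq (rho (sg (yy t))) s =
    2 * sin (t / 2) * (sin s * sin (t / 2) - cos s * cos (t / 2)) := by
  rw [qq, x6_eq]; ring

lemma dd_x1 : dd (yy t) s = 2 * |sin (s / 2) * cos (t / 2) - cos (s / 2) * sin (t / 2)| := by
  rw [dd_yy, show (s - t) / 2 = s / 2 - t / 2 by ring, sin_sub]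

lemma k3_eq : k3 s t = 2 * sin ((π / 3 - t - s) / 2) := by
  rw [show (π / 3 - t - s) / 2 = π / 6 - (s / 2 + t / 2) by ring, sin_sub, sin_pi_div_six,
    cos_pi_div_six, cos_add, sin_add]
  simp only [k3]; ring

variable {s t}

lemma k3_nonneg (hs : s ∈ Icc 0 (π / 6)) (ht : t ∈ Icc 0 (π / 6)) : 0 ≤ k3 s t := by
  rw [k3_eq]
  have := pi_pos
  have : 0 ≤ sin ((π / 3 - t - s) / 2) :=
    sin_nonneg_of_nonneg_of_le_pi (by linarith [hs.2, ht.2]) (by linarith [hs.1, ht.1])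
  linarith

lemma dd_x2 (hs : s ∈ Icc 0 (π / 6)) (ht : t ∈ Icc 0 (π / 6)) : dd (sg (yy t)) s = k3 s t := by
  have h := k3_nonneg hs ht
  rw [sg_yy, dd_yy, ← abs_neg, ← sin_neg, show -((s - (π / 3 - t)) / 2) = (π / 3 - t - s) / 2 by
    ring]
  rw [k3_eq] at h ⊢
  rw [abs_of_nonneg (by linarith)]

lemma DD_eq (hs : s ∈ Icc 0 (π / 6)) (ht : t ∈ Icc 0 (π / 6)) :
    DD s t = 2 * |sin (s / 2) * cos (t / 2) - cos (s / 2) * sin (t / 2)| + k3 s t +
      dd (rho (rho (sg (yy t)))) s + dd (rho (yy t)) s + dd (rho (rho (yy t))) s +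
      dd (rho (sg (yy t))) s := by
  simp only [DD, osum]
  rw [dd_x1, dd_x2 hs ht]; ring

lemma norm_sg (x : ℂ) : ‖sg x‖ = ‖x‖ := by
  have := dist_sg x 0
  rwa [show sg 0 = 0 by apply Complex.ext <;> simp [sg], dist_zero_right, dist_zero_right] at this

lemma KK_eq (s t : ℝ) : KK s t = kk (rho (rho (sg (yy t)))) s + kk (rho (yy t)) s +
    kk (rho (rho (yy t))) s + kk (rho (sg (yy t))) s := by
  simp only [KK, osum]
  rw [kk_of_norm _ _ (norm_yy t), kk_of_norm _ _ ((norm_sg _).trans (norm_yy t))]; ring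

lemma R3_pos (ht : t ∈ Icc 0 (π / 6)) : 1 / 2 ≤ R3 t := by
  obtain ⟨b1, b2, b3, b4, -⟩ := half_bounds ht
  have := r3_lt
  have := r3_gt
  unfold R3; nlinarith

lemma R3_le (ht : t ∈ Icc 0 (π / 6)) : R3 t ≤ 1 := by
  obtain ⟨b1, b2, b3, b4, -⟩ := half_bounds ht
  have := r3_gt
  unfold R3; nlinarith

lemma norm_x3' (ht : t ∈ Icc 0 (π / 6)) : ‖rho (rho (sg (yy t)))‖ = R3 t := by
  apply (pow_left_inj₀ (norm_nonneg _) (by linarith [R3_pos ht]) two_ne_zero).mp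
  rw [norm_x3, R3_sq]

lemma norm_x4' (ht : t ∈ Icc 0 (π / 6)) : ‖rho (yy t)‖ = R3 t := by
  apply (pow_left_inj₀ (norm_nonneg _) (by linarith [R3_pos ht]) two_ne_zero).mp
  rw [norm_x4, R3_sq]

lemma norm_x5' (ht : t ∈ Icc 0 (π / 6)) : ‖rho (rho (yy t))‖ = 2 * sin (t / 2) := by
  apply (pow_left_inj₀ (norm_nonneg _) (by linarith [(half_bounds ht).1]) two_ne_zero).mp
  rw [norm_x5, w5]; ring

lemma norm_x6' (ht : t ∈ Icc 0 (π / 6)) : ‖rho (sg (yy t))‖ = 2 * sin (t / 2) := by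
  apply (pow_left_inj₀ (norm_nonneg _) (by linarith [(half_bounds ht).1]) two_ne_zero).mp
  rw [norm_x6, w5]; ring

lemma DD_zero (ht : t ∈ Icc 0 (π / 6)) :
    DD 0 t = 2 * ((2 - √3) * sin (t / 2) + cos (t / 2) + 1) := by
  have h0 : (0 : ℝ) ∈ Icc 0 (π / 6) := ⟨le_rfl, by positivity⟩
  obtain ⟨b1, b2, b3, b4, -⟩ := half_bounds ht
  have h := sin_sq_add_cos_sq (t / 2)
  have e3 : dd (rho (rho (sg (yy t)))) 0 = 2 * sin (t / 2) := by
    rw [dd_x3]; simp only [zero_div, sin_zero]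
    rw [show 4 * ((0 : ℝ) ^ 2 + sin (t / 2) ^ 2 + 0 * sin (t / 2) * k3 0 t) =
      (2 * sin (t / 2)) ^ 2 by ring, sqrt_sq (by linarith)]
  have e4 : dd (rho (yy t)) 0 = 1 := by
    rw [dd_x4]; simp only [cm, sm, sin_zero, cos_zero, R3, w3]
    rw [sqrt_eq_one]
    linear_combination (-1) * h - (sin (t / 2) ^ 2) * r3_sq
  have e5 : dd (rho (rho (yy t))) 0 = R3 t := by
    rw [dd_x5, ← sqrt_sq (show 0 ≤ R3 t by linarith [R3_pos ht])]
    congr 1
    simp only [cm, sm, sin_zero, cos_zero, R3, w5]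
    linear_combination (-1) * h - (sin (t / 2) ^ 2) * r3_sq
  have e6 : dd (rho (sg (yy t))) 0 = 1 := by
    rw [dd_x6]; simp only [sin_zero, cos_zero, w5]
    rw [sqrt_eq_one]; ring
  rw [DD_eq h0 ht, e3, e4, e5, e6]
  simp only [k3, R3, zero_div, sin_zero, cos_zero]
  rw [show (0 : ℝ) * cos (t / 2) - 1 * sin (t / 2) = -sin (t / 2) by ring, abs_neg,
    abs_of_nonneg b1]
  ring

theorem I4 (hs : s ∈ Icc 0 (π / 6)) (ht : t ∈ Icc 0 (π / 6)) (hX : 8 / 100 ≤ sin (s / 2)) :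
    KK s t + 15 / 4 * DD s t < 16 := by
  obtain ⟨a1, a2, a3, a4, a5⟩ := half_bounds hs
  obtain ⟨b1, b2, b3, b4, b5⟩ := half_bounds ht
  have := numI4 (sin (s / 2)) (sin (t / 2)) hX a2 (by linarith) b2 (cos (s / 2)) (cos (t / 2))
    (√3) (R3 t) (w3 t) (w5 t) (cos s) (sin s) (k3 s t) (cm s t) (sm s t) _ _ _ _ a5 b5 rfl rfl rfl
    rfl (cos_eq_half s) (sin_eq_half s) rfl rfl rfl (dd_x4 s t) (dd_x5 s t) (dd_x6 s t) (dd_x3 s t)
  rw [KK_eq, DD_eq hs ht, kk_eq (norm_x3 t), kk_eq (norm_x4 t), kk_eq (norm_x5 t),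
    kk_eq (norm_x6 t)]
  linarith

theorem J1 (hs : s ∈ Icc 0 (π / 6)) (ht : t ∈ Icc 0 (π / 6)) (hX : sin (s / 2) = 25 / 100)
    (hY : sin (t / 2) ≤ 8 / 100) : 8811 / 200 < DD s t + 10 * DD 0 t := by
  obtain ⟨a1, a2, a3, a4, a5⟩ := half_bounds hs
  obtain ⟨b1, b2, b3, b4, b5⟩ := half_bounds ht
  have := numJ1 (sin (s / 2)) (sin (t / 2)) hX.ge hX.le (by linarith) hY (cos (s / 2)) (cos (t / 2))
    (√3) (R3 t) (w3 t) (w5 t) (cos s) (sin s) (k3 s t) (cm s t) (sm s t) _ _ _ _ a5 b5 rfl rfl rfl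
    rfl (cos_eq_half s) (sin_eq_half s) rfl rfl rfl (dd_x4 s t) (dd_x5 s t) (dd_x6 s t) (dd_x3 s t)
  rw [DD_eq hs ht, DD_zero ht]
  linarith

theorem J2 (hs : s ∈ Icc 0 (π / 6)) (ht : t ∈ Icc 0 (π / 6)) (hX : sin (s / 2) = 8 / 100)
    (hY : sin (t / 2) ≤ 8 / 100) : DD s t + 9 * DD 0 t < 801 / 20 := by
  obtain ⟨a1, a2, a3, a4, a5⟩ := half_bounds hs
  obtain ⟨b1, b2, b3, b4, b5⟩ := half_bounds ht
  have := numJ2 (sin (s / 2)) (sin (t / 2)) hX.ge hX.le (by linarith) hY (cos (s / 2)) (cos (t / 2))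
    (√3) (R3 t) (w3 t) (w5 t) (cos s) (sin s) (k3 s t) (cm s t) (sm s t) _ _ _ _ a5 b5 rfl rfl rfl
    rfl (cos_eq_half s) (sin_eq_half s) rfl rfl rfl (dd_x4 s t) (dd_x5 s t) (dd_x6 s t) (dd_x3 s t)
  rw [DD_eq hs ht, DD_zero ht]
  linarith

lemma full_bounds (hs : s ∈ Icc 0 (π / 6)) :
    0 ≤ sin s ∧ sin s ≤ 1 / 2 ∧ 86 / 100 ≤ cos s ∧ cos s ≤ 1 := by
  have hpi := pi_pos
  have a1 : 0 ≤ sin s := sin_nonneg_of_nonneg_of_le_pi hs.1 (by linarith [hs.2])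
  have a2 : sin s ≤ 1 / 2 := by
    rw [← sin_pi_div_six]
    exact sin_le_sin_of_le_of_le_pi_div_two (by linarith [hs.1]) (by linarith) hs.2
  have a3 : 0 ≤ cos s :=
    cos_nonneg_of_neg_pi_div_two_le_of_le (by linarith [hs.1]) (by linarith [hs.2])
  have a4 := sin_sq_add_cos_sq s
  refine ⟨a1, a2, ?_, cos_le_one _⟩
  by_contra hc
  push Not at hc
  nlinarith

lemma d1_nonpos_of {x : ℂ} (h : qq x s ≤ 0) : d1 x s ≤ 0 :=
  div_nonpos_of_nonpos_of_nonneg h (dd_nonneg _ _)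

theorem I1 (hs : s ∈ Icc 0 (π / 6)) (ht : t ∈ Icc 0 (π / 6)) (hst : s < t) : D1 s t < 0 := by
  obtain ⟨a1, a2, a3, a4, -⟩ := half_bounds hs
  obtain ⟨b1, b2, b3, b4, -⟩ := half_bounds ht
  obtain ⟨c1, c2, c3, c4⟩ := full_bounds hs
  have hpi := pi_pos
  have hr := r3_gt
  have hr' := r3_lt
  have e1 : d1 (yy t) s ≤ -(92 / 100) := by
    rw [d1_yy_of_gt hst (by linarith [hs.1, ht.2]), show (s - t) / 2 = s / 2 - t / 2 by ring,
      cos_sub]
    nlinarith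
  have e2 : d1 (sg (yy t)) s ≤ -(86 / 100) := by
    rw [sg_yy, d1_yy_of_gt (by linarith [ht.2]) (by linarith [hs.1, ht.1]), ← cos_neg]
    have := (full_bounds (s := -((s - (π / 3 - t)) / 2))
      ⟨by linarith [hs.2, ht.2], by linarith [hs.1, ht.1]⟩).2.2.1
    linarith
  have e3 : d1 (rho (rho (sg (yy t)))) s ≤ 1 := (abs_le.mp (abs_d1_le_one _ _)).2
  have e5 : d1 (rho (rho (yy t))) s ≤ 52 / 100 := by
    have := (abs_le.mp (abs_d1_le_norm (rho (rho (yy t))) s)).2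
    rw [norm_x5' ht] at this
    linarith
  have e4 : d1 (rho (yy t)) s ≤ 0 := by
    apply d1_nonpos_of
    rw [qq_x4]
    apply mul_nonpos_of_nonneg_of_nonpos (by linarith [R3_pos ht])
    have h1 : sm s t ≤ 1 / 2 := by unfold sm; nlinarith
    have h2 : 8 / 10 ≤ cm s t := by unfold cm; nlinarith
    nlinarith
  have e6 : d1 (rho (sg (yy t))) s ≤ 0 := by
    apply d1_nonpos_of
    rw [qq_x6]
    apply mul_nonpos_of_nonneg_of_nonpos (by linarith)
    nlinarith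
  simp only [D1, osum]
  linarith

lemma g3_of_norm {x : ℂ} (h : ‖x‖ = 1) (s : ℝ) : g3 x s = d1 x s / 4 := by
  unfold g3; rw [kk_of_norm _ _ h]; ring

lemma half_mono (hs : s ∈ Icc 0 (π / 6)) (ht : t ∈ Icc 0 (π / 6)) (h : s ≤ t) :
    sin (s / 2) ≤ sin (t / 2) := by
  have hpi := pi_pos
  exact sin_le_sin_of_le_of_le_pi_div_two (by linarith [hs.1]) (by linarith [ht.2]) (by linarith)

lemma half_pos (hs : s ∈ Icc 0 (π / 6)) (h : 0 < s) : 0 < sin (s / 2) := by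
  have hpi := pi_pos
  exact sin_pos_of_pos_of_lt_pi (by linarith) (by linarith [hs.2])

theorem I3 (hs : s ∈ Icc 0 (π / 6)) (ht : t ∈ Icc 0 (π / 6)) (hs0 : 0 < s)
    (hX : sin (s / 2) ≤ 9 / 100) (hst : s ≠ t) : 0 < G3 s t := by
  obtain ⟨a1, a2, a3, a4, a5⟩ := half_bounds hs
  obtain ⟨b1, b2, b3, b4, b5⟩ := half_bounds ht
  obtain ⟨c1, c2, c3, c4⟩ := full_bounds hs
  have hpi := pi_pos
  have hk := k3_nonneg hs ht
  have hR := R3_pos ht
  have hG : G3 s t = d1 (yy t) s / 4 + d1 (sg (yy t)) s / 4 + g3 (rho (rho (sg (yy t)))) s +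
      (g3 (rho (yy t)) s + g3 (rho (rho (yy t))) s + g3 (rho (sg (yy t))) s) := by
    simp only [G3, osum]
    rw [g3_of_norm (norm_yy t), g3_of_norm ((norm_sg _).trans (norm_yy t))]; ring
  rw [hG]
  rcases lt_or_gt_of_ne hst with hlt | hlt
  · have e1 := (abs_le.mp (abs_d1_le_one (yy t) s)).1
    have e2 := (abs_le.mp (abs_d1_le_one (sg (yy t)) s)).1
    rcases le_total (sin (t / 2)) (9 / 100) with hY | hY
    · have hY0 : 0 < sin (t / 2) := half_pos ht (hs0.trans hlt)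
      have hXY := half_mono hs ht hlt.le
      set z := sin (s / 2) / sin (t / 2) with hz
      have hz0 : 0 ≤ z := div_nonneg a1 b1
      have hz1 : z ≤ 1 := (div_le_one hY0).mpr hXY
      have hXz : sin (s / 2) = z * sin (t / 2) := by rw [hz]; field_simp
      set e := √(1 + z ^ 2 + z * k3 s t) with he
      have he0 : 0 < e := sqrt_pos.mpr (by positivity)
      have := numI3a z (sin (t / 2)) (by linarith) (by linarith) (by linarith) hY (sin (s / 2))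
        (cos (s / 2)) (cos (t / 2))
        (√3) (R3 t) (w3 t) (w5 t) (cos s) (sin s) (k3 s t) (cm s t) (sm s t) _ _ _ e hXz a5 b5 rfl
        rfl rfl rfl (cos_eq_half s) (sin_eq_half s) rfl rfl rfl (dd_x4 s t) (dd_x5 s t) (dd_x6 s t)
        rfl
      rw [← qq_x4, ← qq_x5, ← qq_x6, ← g3_eq (norm_x4 t), ← g3_eq (norm_x5 t),
        ← g3_eq (norm_x6 t)] at this
      have hd : dd (rho (rho (sg (yy t)))) s = 2 * sin (t / 2) * e := by
        rw [dd_x3, he, ← sqrt_sq (show 0 ≤ 2 * sin (t / 2) by linarith), ← sqrt_mul (sq_nonneg _)]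
        congr 1
        rw [hXz]; ring
      have hq : qq (rho (rho (sg (yy t)))) s =
          R3 t * (sin (t / 2) * (2 * z * cos (s / 2) * cos (t / 2) + cos s)) := by
        rw [qq_x3, sin_eq_half s, hXz]; ring
      have hqn : 0 ≤ 2 * z * cos (s / 2) * cos (t / 2) + cos s := by positivity
      have hmain : 3 / 32 * (√3 * cos (t / 2) - sin (t / 2)) ^ 2 * R3 t *
          (2 * z * cos (s / 2) * cos (t / 2) + cos s) * e⁻¹ * (e⁻¹ ^ 2) ^ 2 ≤
          sin (t / 2) ^ 2 * g3 (rho (rho (sg (yy t)))) s := by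
        rw [g3_eq (norm_x3 t), hd, hq, w3]
        have h1 : sin (t / 2) ^ 2 * (R3 t * (sin (t / 2) *
            (2 * z * cos (s / 2) * cos (t / 2) + cos s)) * (2 * sin (t / 2) * e)⁻¹ *
            (3 * (sin (t / 2) * (√3 * cos (t / 2) - sin (t / 2))) ^ 2 *
              ((2 * sin (t / 2) * e)⁻¹ ^ 2) ^ 2 + 1 / 4)) =
            3 / 32 * (√3 * cos (t / 2) - sin (t / 2)) ^ 2 * R3 t *
          (2 * z * cos (s / 2) * cos (t / 2) + cos s) * e⁻¹ * (e⁻¹ ^ 2) ^ 2 +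
            sin (t / 2) ^ 2 * R3 t * (2 * z * cos (s / 2) * cos (t / 2) + cos s) * e⁻¹ / 8 := by
          field_simp; ring
        rw [h1]
        have : 0 ≤ sin (t / 2) ^ 2 * R3 t * (2 * z * cos (s / 2) * cos (t / 2) + cos s) * e⁻¹ / 8 := by
          positivity
        linarith
      have hY2 : 0 < sin (t / 2) ^ 2 := by positivity
      by_contra hc
      push Not at hc
      nlinarith
    · have := numI3c (sin (s / 2)) (sin (t / 2)) (by linarith) hX hY b2 (cos (s / 2)) (cos (t / 2))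
        (√3) (R3 t) (w3 t) (w5 t) (cos s) (sin s) (k3 s t) (cm s t) (sm s t) _ _ _ _ a5 b5 rfl rfl
        rfl rfl (cos_eq_half s) (sin_eq_half s) rfl rfl rfl (dd_x4 s t) (dd_x5 s t) (dd_x6 s t)
        (dd_x3 s t)
      rw [← qq_x3, ← qq_x4, ← qq_x5, ← qq_x6, ← g3_eq (norm_x3 t), ← g3_eq (norm_x4 t),
        ← g3_eq (norm_x5 t), ← g3_eq (norm_x6 t)] at this
      linarith
  · have hX0 : 0 < sin (s / 2) := half_pos hs hs0
    have hXY := half_mono ht hs hlt.le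
    set z := sin (t / 2) / sin (s / 2) with hz
    have hz0 : 0 ≤ z := div_nonneg b1 a1
    have hz1 : z ≤ 1 := (div_le_one hX0).mpr hXY
    have hYz : sin (t / 2) = z * sin (s / 2) := by rw [hz]; field_simp
    set e := √(1 + z ^ 2 + z * k3 s t) with he
    have he0 : 0 < e := sqrt_pos.mpr (by positivity)
    have := numI3b (sin (s / 2)) z (by linarith) hX (by linarith) (by linarith) (sin (t / 2))
      (cos (s / 2)) (cos (t / 2))
      (√3) (R3 t) (w3 t) (w5 t) (cos s) (sin s) (k3 s t) (cm s t) (sm s t) _ _ _ e hYz a5 b5 rfl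
      rfl rfl rfl (cos_eq_half s) (sin_eq_half s) rfl rfl rfl (dd_x4 s t) (dd_x5 s t) (dd_x6 s t)
      rfl
    rw [← qq_x4, ← qq_x5, ← qq_x6, ← g3_eq (norm_x4 t), ← g3_eq (norm_x5 t),
      ← g3_eq (norm_x6 t)] at this
    have e1 : d1 (yy t) s = cos (s / 2) * cos (t / 2) + sin (s / 2) * sin (t / 2) := by
      rw [d1_yy_of_lt hlt (by linarith [ht.1, hs.2]), show (s - t) / 2 = s / 2 - t / 2 by ring,
        cos_sub]
    have e2 : d1 (sg (yy t)) s = -(1 / 2 * (√3 * (cos (s / 2) * cos (t / 2) -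
        sin (s / 2) * sin (t / 2)) + (sin (s / 2) * cos (t / 2) + cos (s / 2) * sin (t / 2)))) := by
      rw [sg_yy, d1_yy_of_gt (by linarith [hs.2]) (by linarith [hs.1, ht.1]),
        show (s - (π / 3 - t)) / 2 = (s / 2 + t / 2) - π / 6 by ring, cos_sub, cos_add, sin_add,
        cos_pi_div_six, sin_pi_div_six]
      ring
    have hd : dd (rho (rho (sg (yy t)))) s = 2 * sin (s / 2) * e := by
      rw [dd_x3, he, ← sqrt_sq (show 0 ≤ 2 * sin (s / 2) by linarith), ← sqrt_mul (sq_nonneg _)]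
      congr 1
      rw [hYz]; ring
    have hq : qq (rho (rho (sg (yy t)))) s =
        R3 t * (sin (s / 2) * (2 * cos (s / 2) * cos (t / 2) + cos s * z)) := by
      rw [qq_x3, sin_eq_half s]
      conv_lhs => rw [hYz]
      ring
    have hqn : 0 ≤ 2 * cos (s / 2) * cos (t / 2) + cos s * z := by positivity
    have hw : w3 t = z * sin (s / 2) * (√3 * cos (t / 2) - sin (t / 2)) := by
      rw [w3, ← hYz]
    have hmain : R3 t * (2 * cos (s / 2) * cos (t / 2) + cos s * z) * e⁻¹ *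
        (625 / 54 * (z * (√3 * cos (t / 2) - sin (t / 2))) ^ 2 * (e⁻¹ ^ 2) ^ 2 + 1 / 8) ≤
        g3 (rho (rho (sg (yy t)))) s := by
      rw [g3_eq (norm_x3 t), hd, hq, hw]
      have h1 : R3 t * (sin (s / 2) * (2 * cos (s / 2) * cos (t / 2) + cos s * z)) *
          (2 * sin (s / 2) * e)⁻¹ *
          (3 * (z * sin (s / 2) * (√3 * cos (t / 2) - sin (t / 2))) ^ 2 *
            ((2 * sin (s / 2) * e)⁻¹ ^ 2) ^ 2 + 1 / 4) =
          R3 t * (2 * cos (s / 2) * cos (t / 2) + cos s * z) * e⁻¹ *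
          (3 / 32 / sin (s / 2) ^ 2 * (z * (√3 * cos (t / 2) - sin (t / 2))) ^ 2 *
            (e⁻¹ ^ 2) ^ 2 + 1 / 8) := by
        field_simp; ring
      rw [h1]
      have h2 : (625 / 54 : ℝ) ≤ 3 / 32 / sin (s / 2) ^ 2 := by
        rw [le_div_iff₀ (by positivity)]; nlinarith
      gcongr
    rw [e1, e2]
    linarith

end Pool.Agent.Lib.MP_55cb2c_co
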