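import Pool.Agent.Lib.MP_55cb2c_co.Ineq

/-! Behaviour of the kernel near a vertex. -/

namespace Pool.Agent.Lib.MP_55cb2c_co

open Real Set

lemma dd_ne_zero_of_norm' {x : ℂ} (hx : ‖x‖ ≠ 1) (s : ℝ) : dd x s ≠ 0 := by
  intro h
  rw [dd, dist_eq_zero] at h
  exact hx (h ▸ norm_yy s)

lemma hasDerivAt_kk' (x : ℂ) (s : ℝ) : HasDerivAt (kk x) (-g3 x s + d1 x s / 4) s := by
  by_cases hx : ‖x‖ = 1
  · have e : kk x = fun _ => 0 := funext fun s => kk_of_norm x s hx
    rw [g3_of_norm hx, e]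
    exact (hasDerivAt_const s (0 : ℝ)).congr_deriv (by ring)
  · refine (hasDerivAt_kk x s (dd_ne_zero_of_norm' hx s)).congr_deriv ?_
    unfold g3; ring

lemma continuous_kk (x : ℂ) : Continuous (kk x) :=
  continuous_iff_continuousAt.mpr fun s => (hasDerivAt_kk' x s).continuousAt

lemma hasDerivAt_KK (s t : ℝ) : HasDerivAt (fun s => KK s t) (-G3 s t + D1 s t / 4) s := by
  simp only [KK, G3, D1, osum]
  exact ((((((hasDerivAt_kk' _ s).add (hasDerivAt_kk' _ s)).add (hasDerivAt_kk' _ s)).add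
    (hasDerivAt_kk' _ s)).add (hasDerivAt_kk' _ s)).add (hasDerivAt_kk' _ s)).congr_deriv (by ring)

lemma continuous_KK (t : ℝ) : Continuous fun s => KK s t :=
  continuous_iff_continuousAt.mpr fun s => (hasDerivAt_KK s t).continuousAt

lemma small_mem {s : ℝ} (hs : s ∈ Icc (0 : ℝ) (1 / 100)) : s ∈ Icc 0 (π / 6) :=
  ⟨hs.1, by linarith [hs.2, pi_gt_three]⟩

lemma KK_anti {t : ℝ} (ht : t ∈ Icc 0 (π / 6)) (h : 1 / 100 ≤ t) :
    StrictAntiOn (fun s => KK s t) (Icc 0 (1 / 100)) := by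
  apply strictAntiOn_of_deriv_neg (convex_Icc _ _) (continuous_KK t).continuousOn
  intro s hs
  rw [interior_Icc] at hs
  have hs' := small_mem (Ioo_subset_Icc_self hs)
  rw [(hasDerivAt_KK s t).deriv]
  have h1 := I1 hs' ht (by linarith [hs.2])
  have h2 := I3 hs' ht hs.1 ((sin_le (by linarith [hs.1])).trans (by linarith [hs.2]))
    (by linarith [hs.2] : s < t).ne
  linarith

lemma kk_far {x : ℂ} (hx : ‖x‖ ≤ 1) {s : ℝ} (hs : 0 ≤ s) (h : ∀ u ∈ Icc 0 s, 1 / 2 ≤ dd x u) :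
    kk x s - kk x 0 ≤ 12 * s := by
  have := (convex_Icc 0 s).norm_image_sub_le_of_norm_hasDerivWithin_le (f := kk x) (C := 12)
    (f' := fun u => -(3 * kk x u * d1 x u / dd x u))
    (fun u hu => (hasDerivAt_kk x u (by linarith [h u hu])).hasDerivWithinAt)
    (fun u hu => ?_) (left_mem_Icc.mpr hs) (right_mem_Icc.mpr hs)
  · rw [Real.norm_eq_abs, Real.norm_eq_abs, sub_zero, abs_of_nonneg hs] at this
    exact (le_abs_self _).trans this
  · have h1 := h u hu
    have h2 := abs_d1_le_one x u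
    have h3 := kk_nonneg x u
    have h4 : kk x u ≤ 2 := by
      unfold kk
      rw [div_le_iff₀ (by positivity)]
      have h5 : (1 / 2 : ℝ) ^ 3 ≤ dd x u ^ 3 := by gcongr
      have h6 : 0 ≤ ‖x‖ ^ 2 := by positivity
      have h7 : ‖x‖ ^ 2 ≤ 1 := by nlinarith [norm_nonneg x]
      nlinarith
    rw [Real.norm_eq_abs, abs_neg, abs_div, abs_mul, abs_mul, abs_of_nonneg h3,
      abs_of_nonneg (dd_nonneg x u), div_le_iff₀ (by linarith), abs_of_pos (by norm_num)]
    nlinarith [abs_nonneg (d1 x u)]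

lemma dd_ge_norm (x : ℂ) (s : ℝ) : 1 - ‖x‖ ≤ dd x s := by
  rw [dd, dist_comm, dist_eq_norm, ← norm_yy s]
  exact norm_sub_norm_le _ _

lemma rho_zero : rho 0 = yy 0 := by apply Complex.ext <;> simp [rho, yy]

lemma dd_x4_zero (t : ℝ) : dd (rho (yy t)) 0 = 1 := by
  rw [dd, ← rho_zero, dist_rho, dist_zero_right, norm_yy]

lemma ell_bound {z κ : ℝ} (hz : 0 ≤ z) (hκ : 95 / 100 ≤ κ) :
    (√(1 + z ^ 2 + z * κ))⁻¹ ^ 3 ≤ 1 - 3 / 4 * min z 1 := by
  set e := √(1 + z ^ 2 + z * κ) with he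
  have h1 : e ^ 2 = 1 + z ^ 2 + z * κ := sq_sqrt (by positivity)
  have h2 : 1 + 47 / 100 * z ≤ e := le_sqrt_of_sq_le (by nlinarith)
  have h3 : 0 < e := by linarith
  have h4 : (1 + 95 / 100 * z + z ^ 2) * (1 + 47 / 100 * z) ≤ e ^ 3 := by
    rw [show e ^ 3 = e ^ 2 * e by ring]
    apply mul_le_mul (by nlinarith) h2 (by positivity) (by positivity)
  rw [inv_pow, inv_le_iff_one_le_mul₀ (by positivity)]
  rcases le_total z 1 with h | h
  · rw [min_eq_left h]
    have h5 : 1 ≤ (1 - 3 / 4 * z) * ((1 + 95 / 100 * z + z ^ 2) * (1 + 47 / 100 * z)) := by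
      have h6 : 0 ≤ 67 / 100 + 38 / 100 * z - 62 / 100 * z ^ 2 - 36 / 100 * z ^ 3 := by
        have : z ^ 2 ≤ z := by nlinarith
        have : z ^ 3 ≤ z := by nlinarith
        nlinarith
      nlinarith [mul_nonneg hz h6, pow_nonneg hz 2, pow_nonneg hz 3, pow_nonneg hz 4]
    exact h5.trans (mul_le_mul_of_nonneg_left h4 (by linarith))
  · rw [min_eq_right h]
    have h5 : (295 / 100 : ℝ) * (147 / 100) ≤ (1 + 95 / 100 * z + z ^ 2) * (1 + 47 / 100 * z) :=
      mul_le_mul (by nlinarith) (by linarith) (by norm_num) (by positivity)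
    linarith

lemma kk_x3 {s t : ℝ} (hs : s ∈ Icc 0 (π / 6)) (ht : t ∈ Icc 0 (π / 6)) (ht0 : 0 < t) :
    kk (rho (rho (sg (yy t)))) s = (√3 * cos (t / 2) - sin (t / 2)) ^ 2 / (8 * sin (t / 2)) *
      (√(1 + (sin (s / 2) / sin (t / 2)) ^ 2 + sin (s / 2) / sin (t / 2) * k3 s t))⁻¹ ^ 3 := by
  have hY0 : 0 < sin (t / 2) := half_pos ht ht0
  have hk := k3_nonneg hs ht
  have a1 := (half_bounds hs).1
  set z := sin (s / 2) / sin (t / 2) with hz
  have hz0 : 0 ≤ z := div_nonneg a1 hY0.le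
  have hXz : sin (s / 2) = z * sin (t / 2) := by rw [hz]; field_simp
  set e := √(1 + z ^ 2 + z * k3 s t) with he
  have he0 : 0 < e := sqrt_pos.mpr (by positivity)
  have hd : dd (rho (rho (sg (yy t)))) s = 2 * sin (t / 2) * e := by
    rw [dd_x3, he, ← sqrt_sq (show 0 ≤ 2 * sin (t / 2) by linarith), ← sqrt_mul (sq_nonneg _)]
    congr 1
    rw [hXz]; ring
  rw [kk_eq (norm_x3 t), hd, w3]
  field_simp
  ring

theorem I6 {s t : ℝ} (hs : s ∈ Icc (0 : ℝ) (1 / 100)) (ht : t ∈ Icc (0 : ℝ) (1 / 100))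
    (ht0 : 0 < t) : 55 / 100 * min s t ≤ t ^ 2 * (KK 0 t - KK s t) := by
  have hs' := small_mem hs
  have ht' := small_mem ht
  have h0' : (0 : ℝ) ∈ Icc 0 (π / 6) := ⟨le_rfl, by positivity⟩
  have hY0 : 0 < sin (t / 2) := half_pos ht' ht0
  have hY1 : sin (t / 2) ≤ t / 2 := sin_le (by linarith)
  have hX1 : sin (s / 2) ≤ s / 2 := sin_le (by linarith [hs.1])
  have hX2 : 999 / 1000 * (s / 2) ≤ sin (s / 2) := by
    have h1 := sin_ge_sub_cube (x := s / 2) (by linarith [hs.1])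
    have h2 : (s / 2) ^ 2 ≤ 1 / 1000 := by nlinarith [hs.1, hs.2]
    nlinarith [hs.1]
  obtain ⟨a1, -, -, a4, -⟩ := half_bounds hs'
  have ca : 999 / 1000 ≤ cos (s / 2) := by
    have := one_sub_sq_div_two_le_cos (x := s / 2); nlinarith [hs.1, hs.2]
  have cb : 999 / 1000 ≤ cos (t / 2) := by
    have := one_sub_sq_div_two_le_cos (x := t / 2); nlinarith [ht.1, ht.2]
  have cb1 := cos_le_one (t / 2)
  have hr := r3_gt
  have hr' := r3_lt
  have hk : 95 / 100 ≤ k3 s t := by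
    unfold k3
    have h1 : sin (s / 2) * cos (t / 2) ≤ 1 / 200 := by nlinarith [hs.2]
    have h2 : cos (s / 2) * sin (t / 2) ≤ 1 / 200 := by nlinarith [ht.2]
    have h3 : sin (s / 2) * sin (t / 2) ≤ 1 / 200 := by nlinarith [ht.2, hs.2]
    have h4 : 99 / 100 ≤ cos (s / 2) * cos (t / 2) := by nlinarith
    nlinarith
  have f4 := kk_far (x := rho (yy t)) (by rw [norm_x4' ht']; exact R3_le ht') hs.1 fun u hu => by
    have := abs_le.mp (abs_dd_sub_le (rho (yy t)) u 0)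
    rw [dd_x4_zero, sub_zero, abs_of_nonneg hu.1] at this
    linarith [hu.2, hs.2]
  have f5 := kk_far (x := rho (rho (yy t))) (by rw [norm_x5' ht']; linarith [ht.2]) hs.1
    fun u hu => by
      have := dd_ge_norm (rho (rho (yy t))) u
      rw [norm_x5' ht'] at this; linarith [ht.2]
  have f6 := kk_far (x := rho (sg (yy t))) (by rw [norm_x6' ht']; linarith [ht.2]) hs.1
    fun u hu => by
      have := dd_ge_norm (rho (sg (yy t))) u
      rw [norm_x6' ht'] at this; linarith [ht.2]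
  have e0 := kk_x3 h0' ht' ht0
  have es := kk_x3 hs' ht' ht0
  simp only [zero_div, sin_zero, zero_mul, add_zero, ne_eq, OfNat.ofNat_ne_zero, not_false_eq_true,
    zero_pow, sqrt_one, inv_one, one_pow, mul_one] at e0
  have hl := ell_bound (div_nonneg a1 hY0.le) hk
  set z := sin (s / 2) / sin (t / 2) with hz
  set v := (√3 * cos (t / 2) - sin (t / 2)) ^ 2 / (8 * sin (t / 2)) with hv
  have hv1 : 742 / 1000 ≤ t * v := by
    rw [hv, ← mul_div_assoc, le_div_iff₀ (by positivity)]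
    have h1 : 1723 / 1000 ≤ √3 * cos (t / 2) - sin (t / 2) := by nlinarith [ht.2]
    have h2 : (1723 / 1000 : ℝ) ^ 2 ≤ (√3 * cos (t / 2) - sin (t / 2)) ^ 2 := by gcongr
    nlinarith
  have hz1 : 999 / 1000 * min s t ≤ t * min z 1 := by
    rcases le_total z 1 with h | h
    · rw [min_eq_left h, hz, ← mul_div_assoc, le_div_iff₀ hY0]
      have h1 := min_le_left s t
      have h2 : 0 ≤ min s t := le_min hs.1 ht.1
      calc 999 / 1000 * min s t * sin (t / 2) ≤ 999 / 1000 * s * (t / 2) := by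
            gcongr; linarith [hs.1]
        _ = t * (999 / 1000 * (s / 2)) := by ring
        _ ≤ t * sin (s / 2) := by gcongr
    · rw [min_eq_right h]
      have h1 := min_le_right s t
      linarith
  have hm : t ^ 2 * s ≤ 1 / 10000 * min s t := by
    rcases le_total s t with h | h
    · rw [min_eq_left h]
      have : t ^ 2 ≤ 1 / 10000 := by nlinarith [ht.2]
      exact mul_le_mul_of_nonneg_right this hs.1
    · rw [min_eq_right h]
      have : t * s ≤ 1 / 10000 := by nlinarith [ht.2, hs.2]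
      nlinarith
  have hmin : 0 ≤ min s t := le_min hs.1 ht.1
  have hv0 : 0 ≤ v := by positivity
  have h3 : v * (3 / 4 * min z 1) ≤
      kk (rho (rho (sg (yy t)))) 0 - kk (rho (rho (sg (yy t)))) s := by
    rw [e0, es]
    nlinarith [mul_le_mul_of_nonneg_left hl hv0]
  have h4 : 742 / 1000 * (999 / 1000 * min s t) ≤ t * v * (t * min z 1) :=
    mul_le_mul hv1 hz1 (by positivity) (by positivity)
  have h5 : v * (3 / 4 * min z 1) - 36 * s ≤ KK 0 t - KK s t := by
    rw [KK_eq, KK_eq]; linarith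
  have h6 := mul_le_mul_of_nonneg_left h5 (sq_nonneg t)
  nlinarith

lemma KK_vertex (s : ℝ) : KK s 0 = 1 / 2 := by
  have h0 : (0 : ℝ) ∈ Icc 0 (π / 6) := ⟨le_rfl, by positivity⟩
  have hR : R3 0 = 1 := by simp [R3]
  have h5 : rho (rho (yy 0)) = 0 := by rw [← norm_eq_zero, norm_x5' h0]; simp
  have h6 : rho (sg (yy 0)) = 0 := by rw [← norm_eq_zero, norm_x6' h0]; simp
  have h : kk 0 s = 1 / 4 := by simp [kk, dd, norm_yy]
  rw [KK_eq, kk_of_norm _ _ ((norm_x3' h0).trans hR), kk_of_norm _ _ ((norm_x4' h0).trans hR),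
    h5, h6, h]
  norm_num

end Pool.Agent.Lib.MP_55cb2c_co
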