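import Pool.Agent.Lib.MP_55cb2c_co.ArcMeas

/-! Identification of the Reuleaux triangle and of its boundary; invariance under similarities. -/

namespace Pool.Agent.Lib.MP_55cb2c_co

open Set Real Metric
open scoped Pointwise

section sim

variable {X Y : Type} [MetricSpace X] [MetricSpace Y] {f : X → Y} {c : ℝ}

lemma rdv_image (hc : 0 ≤ c) (hf : ∀ x y, dist (f x) (f y) = c * dist x y) (E : Set X) :
    rdv (f '' E) = c * rdv E := by
  unfold rdv
  rw [← smul_eq_mul, ← Real.sSup_smul_of_nonneg hc]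
  congr 1
  have key : ∀ (n : ℕ) (x : Fin n → X),
      sInf ((fun y => (∑ i, dist (f (x i)) y) / (n : ℝ)) '' (f '' E)) =
        c • sInf ((fun y => (∑ i, dist (x i) y) / (n : ℝ)) '' E) := by
    intro n x
    rw [← Real.sInf_smul_of_nonneg hc, image_image, ← image_smul, image_image]
    congr 2
    funext y
    simp only [hf, ← Finset.mul_sum, smul_eq_mul]
    ring
  ext r
  constructor
  · rintro ⟨n, x, hn, hx, rfl⟩
    choose z hz hzx using hx
    refine ⟨_, ⟨n, z, hn, hz, rfl⟩, ?_⟩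
    simp only [← hzx]
    exact (key n z).symm
  · rintro ⟨_, ⟨n, x, hn, hx, rfl⟩, rfl⟩
    exact ⟨n, fun i => f (x i), hn, fun i => mem_image_of_mem f (hx i), (key n x).symm⟩

lemma avg_image (hc : 0 ≤ c) (hf : ∀ x y, dist (f x) (f y) = c * dist x y) (E : Set X) :
    avg (f '' E) = c * avg E := by
  unfold avg
  rw [← smul_eq_mul, ← Real.sSup_smul_of_nonneg hc]
  congr 1
  have key : ∀ (n : ℕ) (x : Fin n → X),
      (∑ i, ∑ j, dist (f (x i)) (f (x j))) / (n : ℝ) ^ 2 =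
        c • ((∑ i, ∑ j, dist (x i) (x j)) / (n : ℝ) ^ 2) := by
    intro n x
    simp only [hf, ← Finset.mul_sum, smul_eq_mul]
    ring
  ext r
  constructor
  · rintro ⟨n, x, hn, hx, rfl⟩
    choose z hz hzx using hx
    refine ⟨_, ⟨n, z, hn, hz, rfl⟩, ?_⟩
    simp only [← hzx]
    exact (key n z).symm
  · rintro ⟨_, ⟨n, x, hn, hx, rfl⟩, rfl⟩
    exact ⟨n, fun i => f (x i), hn, fun i => mem_image_of_mem f (hx i), (key n x).symm⟩

lemma diam_image_sim (hc : 0 < c) (hf : ∀ x y, dist (f x) (f y) = c * dist x y) {E : Set X}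
    (h : (univ : Set X).Nontrivial) : diam (f '' E) = c * diam E := by
  let g := Dilation.mkOfDistEq f ⟨⟨c, hc.le⟩, fun h => hc.ne' (congrArg Subtype.val h), hf⟩
  obtain ⟨x, -, y, -, hxy⟩ := h
  have h1 : (⟨c, hc.le⟩ : NNReal) = Dilation.ratio g :=
    Dilation.ratio_unique_of_dist_ne_zero (dist_ne_zero.mpr hxy) (hf x y)
  have h2 := Dilation.diam_image g E
  rw [← h1] at h2
  exact h2

end sim

/-- The solid Reuleaux triangle with vertices `0`, `1`, `e^{i pi/3}`. -/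
def TT : Set ℂ := closedBall 0 1 ∩ closedBall (yy 0) 1 ∩ closedBall (yy (π / 3)) 1

lemma rho_zero' : rho 0 = yy 0 := by apply Complex.ext <;> simp [rho, yy]
lemma rho_v1 : rho (yy 0) = yy (π / 3) := by
  apply Complex.ext <;> simp [rho, yy]; norm_num
lemma rho_v2 : rho (yy (π / 3)) = 0 := by rw [← rho_v1, ← rho_zero', rho3]
lemma sg_zero : sg 0 = 0 := by apply Complex.ext <;> simp [sg]
lemma sg_v1 : sg (yy 0) = yy (π / 3) := by rw [sg_yy, sub_zero]
lemma sg_v2 : sg (yy (π / 3)) = yy 0 := by rw [sg_yy, sub_self]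

lemma isClosed_TT : IsClosed TT := (isClosed_closedBall.inter isClosed_closedBall).inter
  isClosed_closedBall

lemma isCompact_TT : IsCompact TT :=
  ((isCompact_closedBall _ _).inter_right isClosed_closedBall).inter_right isClosed_closedBall

lemma mem_TT {x : ℂ} : x ∈ TT ↔
    dist x 0 ≤ 1 ∧ dist x (yy 0) ≤ 1 ∧ dist x (yy (π / 3)) ≤ 1 := by
  simp only [TT, mem_inter_iff, mem_closedBall, and_assoc]

lemma mem_frontier_TT {x : ℂ} : x ∈ frontier TT ↔
    (dist x 0 ≤ 1 ∧ dist x (yy 0) ≤ 1 ∧ dist x (yy (π / 3)) ≤ 1) ∧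
      (dist x 0 = 1 ∨ dist x (yy 0) = 1 ∨ dist x (yy (π / 3)) = 1) := by
  rw [isClosed_TT.frontier_eq, mem_sdiff, mem_TT]
  simp only [TT, interior_inter, interior_closedBall _ one_ne_zero, mem_inter_iff, mem_ball]
  constructor
  · rintro ⟨h, h'⟩
    refine ⟨h, ?_⟩
    by_contra hc
    push Not at hc
    exact h' ⟨⟨lt_of_le_of_ne h.1 hc.1, lt_of_le_of_ne h.2.1 hc.2.1⟩, lt_of_le_of_ne h.2.2 hc.2.2⟩
  · rintro ⟨h, h'⟩
    refine ⟨h, fun h'' => ?_⟩
    rcases h' with h' | h' | h' <;> linarith [h''.1.1, h''.1.2, h''.2]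

lemma rho_mem_frontier {x : ℂ} (hx : x ∈ frontier TT) : rho x ∈ frontier TT := by
  rw [mem_frontier_TT] at hx ⊢
  have e1 : dist (rho x) 0 = dist x (yy (π / 3)) := by rw [← dist_rho x, rho_v2]
  have e2 : dist (rho x) (yy 0) = dist x 0 := by rw [← dist_rho x, rho_zero']
  have e3 : dist (rho x) (yy (π / 3)) = dist x (yy 0) := by rw [← dist_rho x, rho_v1]
  rw [e1, e2, e3]; tauto

lemma sg_mem_frontier {x : ℂ} (hx : x ∈ frontier TT) : sg x ∈ frontier TT := by
  rw [mem_frontier_TT] at hx ⊢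
  have e1 : dist (sg x) 0 = dist x 0 := by rw [← dist_sg x, sg_zero]
  have e2 : dist (sg x) (yy 0) = dist x (yy (π / 3)) := by rw [← dist_sg x, sg_v2]
  have e3 : dist (sg x) (yy (π / 3)) = dist x (yy 0) := by rw [← dist_sg x, sg_v1]
  rw [e1, e2, e3]; tauto

lemma dist_yy_le_one {s t : ℝ} (h : |s - t| ≤ π / 3) : dist (yy t) (yy s) ≤ 1 := by
  have hpi := pi_pos
  rw [abs_le] at h
  rw [dist_yy]
  have h1 : sin ((s - t) / 2) ≤ 1 / 2 := by
    rw [← sin_pi_div_six]
    exact sin_le_sin_of_le_of_le_pi_div_two (by linarith) (by linarith) (by linarith)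
  have h2 : sin (-((s - t) / 2)) ≤ 1 / 2 := by
    rw [← sin_pi_div_six]
    exact sin_le_sin_of_le_of_le_pi_div_two (by linarith) (by linarith) (by linarith)
  rw [sin_neg] at h2
  have : |sin ((s - t) / 2)| ≤ 1 / 2 := abs_le.mpr ⟨by linarith, h1⟩
  linarith

lemma one_lt_dist_yy {s t : ℝ} (h : π / 3 < s - t) (h' : s - t < 5 * π / 3) :
    1 < dist (yy t) (yy s) := by
  have hpi := pi_pos
  rw [dist_yy]
  have h1 : 1 / 2 < sin ((s - t) / 2) := by
    rcases le_total ((s - t) / 2) (π / 2) with h2 | h2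
    · rw [← sin_pi_div_six]
      exact sin_lt_sin_of_lt_of_le_pi_div_two (by linarith) h2 (by linarith)
    · rw [← sin_pi_div_six, ← sin_pi_sub ((s - t) / 2)]
      exact sin_lt_sin_of_lt_of_le_pi_div_two (by linarith) (by linarith) (by linarith)
  linarith [le_abs_self (sin ((s - t) / 2))]

lemma mem_Gam_of_norm {x : ℂ} (hx : x ∈ frontier TT) (h : dist x 0 = 1) : x ∈ Gam := by
  have hpi := pi_pos
  rw [dist_zero_right] at h
  obtain ⟨⟨-, h1, h2⟩, -⟩ := mem_frontier_TT.mp hx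
  have ht := Complex.arg_mem_Ioc x
  rw [← yy_arg h] at h1 h2 ⊢
  apply yy_mem_Gam
  constructor
  · by_contra hc
    push Not at hc
    linarith [one_lt_dist_yy (s := π / 3) (t := Complex.arg x) (by linarith) (by linarith [ht.1])]
  · by_contra hc
    push Not at hc
    rw [dist_comm] at h1
    linarith [one_lt_dist_yy (s := Complex.arg x) (t := 0) (by linarith) (by linarith [ht.2])]

theorem frontier_TT : frontier TT = Gam := by
  have hpi := pi_pos
  ext x
  constructor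
  · intro hx
    obtain ⟨-, h | h | h⟩ := mem_frontier_TT.mp hx
    · exact mem_Gam_of_norm hx h
    · have := mem_Gam_of_norm (rho_mem_frontier (rho_mem_frontier hx))
        (by rw [← h, ← dist_rho x, ← dist_rho (rho x), rho_v1, rho_v2])
      have h2 := GG_mem_Gam this 1
      rwa [show GG 1 (rho (rho x)) = x from rho3 x] at h2
    · have := mem_Gam_of_norm (rho_mem_frontier hx) (by rw [← h, ← dist_rho x, rho_v2])
      have h2 := GG_mem_Gam this 2
      rwa [show GG 2 (rho x) = x from rho3 x] at h2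
  · rintro ⟨j, t, ht, rfl⟩
    have h : yy t ∈ frontier TT := by
      rw [mem_frontier_TT, dist_zero_right, norm_yy]
      exact ⟨⟨le_rfl, dist_yy_le_one (abs_le.mpr ⟨by linarith [ht.2], by linarith [ht.1]⟩),
        dist_yy_le_one (abs_le.mpr ⟨by linarith [ht.2], by linarith [ht.1]⟩)⟩, Or.inl rfl⟩
    fin_cases j
    · exact h
    · exact rho_mem_frontier h
    · exact rho_mem_frontier (rho_mem_frontier h)
    · exact sg_mem_frontier h
    · exact rho_mem_frontier (sg_mem_frontier h)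
    · exact rho_mem_frontier (rho_mem_frontier (sg_mem_frontier h))

lemma Gam_subset_TT : Gam ⊆ TT := by
  rw [← frontier_TT]; exact isClosed_TT.frontier_subset

lemma dist_v01 : dist (0 : ℂ) (yy 0) = 1 := by rw [dist_zero_left, norm_yy]
lemma dist_v02 : dist (0 : ℂ) (yy (π / 3)) = 1 := by rw [dist_zero_left, norm_yy]
lemma dist_v12 : dist (yy 0) (yy (π / 3)) = 1 := by
  rw [← dist_v01, ← dist_rho 0, rho_zero', rho_v1]

lemma v1_mem : yy 0 ∈ Gam := yy_mem_Gam ⟨le_rfl, by positivity⟩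
lemma v2_mem : yy (π / 3) ∈ Gam := yy_mem_Gam ⟨by positivity, le_rfl⟩
lemma v0_mem : (0 : ℂ) ∈ Gam := by
  have := GG_mem_Gam v2_mem 1
  rwa [show GG 1 (yy (π / 3)) = 0 from rho_v2] at this

lemma dist_sq_eq (x y : ℂ) : dist x y ^ 2 = (x.re - y.re) ^ 2 + (x.im - y.im) ^ 2 := by
  rw [dist_eq_norm, normsq]; simp

lemma TT_centroid {x : ℂ} (hx : x ∈ TT) : dist x ⟨1 / 2, √3 / 6⟩ ^ 2 ≤ 1 / 3 := by
  obtain ⟨h1, h2, h3⟩ := mem_TT.mp hx
  have a1 : dist x 0 ^ 2 ≤ 1 := by nlinarith [dist_nonneg (x := x) (y := 0)]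
  have a2 : dist x (yy 0) ^ 2 ≤ 1 := by nlinarith [dist_nonneg (x := x) (y := yy 0)]
  have a3 : dist x (yy (π / 3)) ^ 2 ≤ 1 := by nlinarith [dist_nonneg (x := x) (y := yy (π / 3))]
  rw [dist_sq_eq] at a1 a2 a3 ⊢
  simp only [yy, cos_zero, sin_zero, cos_pi_div_three, sin_pi_div_three, Complex.zero_re,
    Complex.zero_im] at a1 a2 a3 ⊢
  set u := x.re - 1 / 2 with hu
  set v := x.im - √3 / 6 with hv
  have hx1 : x.re = u + 1 / 2 := by rw [hu]; ring
  have hx2 : x.im = v + √3 / 6 := by rw [hv]; ring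
  rw [hx1, hx2] at a1 a2
  rw [hx2] at a3
  set w := √3 * v with hw
  have h3 := r3_sq
  have hw2 : w ^ 2 = 3 * v ^ 2 := by rw [hw, mul_pow, h3]
  set ρ := u ^ 2 + v ^ 2 with hρ
  have q1 : 0 ≤ 2 / 3 - ρ - u - w / 3 := by nlinarith
  have q2 : 0 ≤ 2 / 3 - ρ + u - w / 3 := by nlinarith
  have q3 : 0 ≤ 2 / 3 - ρ + 2 * w / 3 := by nlinarith
  have q4 : ρ ≤ 3 * (2 / 3 - ρ) ^ 2 := by
    nlinarith [mul_nonneg q1 q2, mul_nonneg q1 q3, mul_nonneg q2 q3]
  by_contra hc
  push Not at hc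
  nlinarith

lemma rdv_TT_lt : rdv TT < 2 / 3 := by
  have hg : (⟨1 / 2, √3 / 6⟩ : ℂ) ∈ TT := by
    have key : ∀ v ∈ Gam, dist (⟨1 / 2, √3 / 6⟩ : ℂ) v ≤ 1 := fun v hv => by
      have := TT_centroid (Gam_subset_TT hv)
      rw [dist_comm]
      nlinarith [dist_nonneg (x := v) (y := ⟨1 / 2, √3 / 6⟩)]
    exact mem_TT.mpr ⟨key _ v0_mem, key _ v1_mem, key _ v2_mem⟩
  refine lt_of_le_of_lt (rdv_le ⟨_, hg⟩ (3 / 5) fun n x hn hx => ⟨_, hg, ?_⟩) (by norm_num)
  rw [div_le_iff₀ (by exact_mod_cast hn)]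
  have : ∑ i, dist (x i) ⟨1 / 2, √3 / 6⟩ ≤ ∑ _i : Fin n, (3 / 5 : ℝ) :=
    Finset.sum_le_sum fun i _ => by
      have := TT_centroid (hx i)
      nlinarith [dist_nonneg (x := x i) (y := ⟨1 / 2, √3 / 6⟩)]
  simpa [mul_comm] using this

lemma le_avg_TT : 2 / 3 ≤ avg TT := by
  have := le_avg isCompact_TT ![0, yy 0, yy (π / 3)] (fun i => by
    fin_cases i
    · exact Gam_subset_TT v0_mem
    · exact Gam_subset_TT v1_mem
    · exact Gam_subset_TT v2_mem)
  simp only [Fin.sum_univ_three, Matrix.cons_val_zero, Matrix.cons_val_one, Matrix.cons_val_two,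
    Matrix.head_cons, Matrix.tail_cons, dist_self, dist_v01, dist_v02, dist_v12,
    dist_comm (yy 0) 0, dist_comm (yy (π / 3)) 0, dist_comm (yy (π / 3)) (yy 0),
    Fintype.card_fin] at this
  norm_num at this
  exact this

theorem exists_sim {A B C : EuclideanSpace ℝ (Fin 2)} {s : ℝ} (hs : 0 < s) (hAB : dist A B = s)
    (hBC : dist B C = s) (hAC : dist A C = s) :
    ∃ f : ℂ ≃ₜ EuclideanSpace ℝ (Fin 2), (∀ x y, dist (f x) (f y) = s * dist x y) ∧
      f '' TT = closedBall A s ∩ closedBall B s ∩ closedBall C s := by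
  let e := Complex.orthonormalBasisOneI.repr
  set a := e.symm A with ha
  set b := e.symm B with hb
  set c := e.symm C with hc
  have hab : ‖b - a‖ = s := by rw [← dist_eq_norm, dist_comm, e.symm.dist_map, hAB]
  have hbc : ‖c - b‖ = s := by rw [← dist_eq_norm, dist_comm, e.symm.dist_map, hBC]
  have hac : ‖c - a‖ = s := by rw [← dist_eq_norm, dist_comm, e.symm.dist_map, hAC]
  have hne : b - a ≠ 0 := by rw [← norm_ne_zero_iff, hab]; exact hs.ne'
  set w := (c - a) / (b - a) with hw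
  have hw1 : ‖w‖ = 1 := by rw [hw, norm_div, hac, hab, div_self hs.ne']
  have hw2 : ‖w - 1‖ = 1 := by
    rw [show w - 1 = (c - b) / (b - a) by rw [hw]; field_simp; ring, norm_div, hbc, hab,
      div_self hs.ne']
  have hw3 := normsq w
  have hw4 := normsq (w - 1)
  rw [hw1] at hw3
  rw [hw2] at hw4
  simp only [Complex.sub_re, Complex.one_re, Complex.sub_im, Complex.one_im] at hw4
  have hre : w.re = 1 / 2 := by nlinarith
  have him : (w.im - √3 / 2) * (w.im + √3 / 2) = 0 := by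
    rw [hre] at hw3; nlinarith [r3_sq]
  have key : ∃ g : ℂ ≃ₜ ℂ, (∀ x y, dist (g x) (g y) = dist x y) ∧ g 0 = 0 ∧ g (yy 0) = 1 ∧
      g (yy (π / 3)) = w := by
    rcases mul_eq_zero.mp him with h | h
    · refine ⟨Homeomorph.refl ℂ, fun _ _ => rfl, rfl, ?_, ?_⟩
      · apply Complex.ext <;> simp [yy]
      · apply Complex.ext <;> simp [yy, hre]; linarith
    · refine ⟨Complex.conjLIE.toHomeomorph, fun x y => Complex.conjLIE.dist_map x y, by simp, ?_, ?_⟩
      · apply Complex.ext <;> simp [yy]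
      · apply Complex.ext <;> simp [yy, hre]; linarith
  obtain ⟨g, hg, g0, g1, g2⟩ := key
  let f : ℂ ≃ₜ EuclideanSpace ℝ (Fin 2) :=
    g.trans ((Homeomorph.mulLeft₀ (b - a) hne).trans ((Homeomorph.addLeft a).trans e.toHomeomorph))
  have hf : ∀ x, f x = e (a + (b - a) * g x) := fun x => rfl
  have hd : ∀ x y, dist (f x) (f y) = s * dist x y := by
    intro x y
    rw [hf, hf, e.dist_map, dist_add_left, dist_eq_norm, ← mul_sub, norm_mul, hab, ← dist_eq_norm,
      hg]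
  have f0 : f 0 = A := by rw [hf, g0]; simp [ha]
  have f1 : f (yy 0) = B := by rw [hf, g1]; simp [hb]
  have f2 : f (yy (π / 3)) = C := by
    rw [hf, g2, hw, mul_div_cancel₀ _ hne]; simp [hc]
  refine ⟨f, hd, ?_⟩
  ext z
  obtain ⟨x, rfl⟩ := f.surjective z
  rw [f.injective.mem_set_image, mem_TT, ← f0, ← f1, ← f2]
  simp only [mem_inter_iff, mem_closedBall, hd, mul_le_iff_le_one_right hs, and_assoc]

end Pool.Agent.Lib.MP_55cb2c_co
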