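import Pool.Agent.Lib.MP_55cb2c_co.Energy
import Pool.Agent.Lib.MP_55cb2c_co.Geom

/-! Symmetric optimal measures on the Reuleaux curve. -/

namespace Pool.Agent.Lib.MP_55cb2c_co

open Set MeasureTheory Real

def IsSym (μ : Measure ℂ) : Prop := ∀ j, μ.map (GG j) = μ

lemma emb_GG (j : Fin 6) : MeasurableEmbedding (GG j) :=
  (isometry_GG j).isClosedEmbedding.measurableEmbedding

lemma Gam_nonempty : Gam.Nonempty := ⟨yy 0, yy_mem_Gam ⟨le_rfl, by positivity⟩⟩

variable {μ : Measure ℂ}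

lemma ae_mem_map (hμ : ∀ᵐ x ∂μ, x ∈ Gam) (j : Fin 6) : ∀ᵐ x ∂(μ.map (GG j)), x ∈ Gam := by
  rw [(emb_GG j).ae_map_iff]
  exact hμ.mono fun x hx => GG_mem_Gam hx j

lemma pot_map {i j : Fin 6} (h : ∀ x, GG i (GG j x) = x) (y : ℂ) :
    pot (μ.map (GG i)) y = pot μ (GG j y) := by
  unfold pot
  rw [(emb_GG i).integral_map]
  congr 1
  funext x
  rw [← (isometry_GG i).dist_eq x (GG j y), h]

noncomputable def symm (μ : Measure ℂ) : Measure ℂ := (6 : ENNReal)⁻¹ • ∑ j, μ.map (GG j)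

lemma isSym_symm (μ : Measure ℂ) : IsSym (symm μ) := by
  intro i
  choose k hk using GG_comp i
  obtain ⟨i', -, hi'⟩ := GG_inv i
  have hinj : Function.Injective k := by
    intro a b hab
    have h1 : ∀ x, GG a x = GG b x := fun x => by
      rw [← hi' (GG a x), hk a, hab, ← hk b, hi']
    have h2 := h1 0
    have h3 := h1 1
    have := r3_gt
    fin_cases a <;> fin_cases b <;>
      simp [GG, rho, sg, Complex.ext_iff] at h2 h3 ⊢ <;> nlinarith [r3_sq]
  have hbij := Finite.injective_iff_bijective.mp hinj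
  unfold symm
  rw [Measure.map_smul, Measure.map_finset_sum (emb_GG i).measurable.aemeasurable]
  congr 1
  rw [← (Equiv.ofBijective k hbij).sum_comp (fun j => μ.map (GG j))]
  refine Finset.sum_congr rfl fun j _ => ?_
  rw [Measure.map_map (emb_GG i).measurable (emb_GG j).measurable]
  congr 1
  funext x
  exact hk j x

instance isProb_map [IsProbabilityMeasure μ] (j : Fin 6) : IsProbabilityMeasure (μ.map (GG j)) :=
  Measure.isProbabilityMeasure_map (emb_GG j).measurable.aemeasurable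

instance isProb_symm [IsProbabilityMeasure μ] : IsProbabilityMeasure (symm μ) := by
  constructor
  simp only [symm, Measure.smul_apply, Measure.coe_finsetSum, Finset.sum_apply, measure_univ,
    Finset.sum_const, Finset.card_univ, Fintype.card_fin, smul_eq_mul, nsmul_eq_mul, mul_one]
  exact ENNReal.inv_mul_cancel (by norm_num) (by norm_num)

lemma ae_mem_symm (hμ : ∀ᵐ x ∂μ, x ∈ Gam) : ∀ᵐ x ∂(symm μ), x ∈ Gam := by
  unfold symm
  apply Measure.ae_smul_measure
  rw [ae_iff, Measure.coe_finsetSum, Finset.sum_apply]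
  exact Finset.sum_eq_zero fun j _ => ae_iff.mp (ae_mem_map hμ j)

lemma pot_symm [IsProbabilityMeasure μ] (hμ : ∀ᵐ x ∂μ, x ∈ Gam) (y : ℂ) :
    pot (symm μ) y = 6⁻¹ * ∑ j, pot (μ.map (GG j)) y := by
  unfold symm pot
  rw [integral_smul_measure, integral_finsetSum_measure fun j _ =>
    integrable_dist isCompact_Gam (ae_mem_map hμ j) y]
  simp

theorem exists_sym_primal : ∃ μ : Measure ℂ, IsProbabilityMeasure μ ∧ (∀ᵐ x ∂μ, x ∈ Gam) ∧
    IsSym μ ∧ ∀ y ∈ Gam, rdv Gam ≤ pot μ y := by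
  obtain ⟨μ, hp, hμ, h⟩ := exists_primal isCompact_Gam Gam_nonempty
  refine ⟨symm μ, inferInstance, ae_mem_symm hμ, isSym_symm μ, fun y hy => ?_⟩
  rw [pot_symm hμ]
  have : ∑ _j : Fin 6, rdv Gam ≤ ∑ j, pot (μ.map (GG j)) y := by
    refine Finset.sum_le_sum fun i _ => ?_
    obtain ⟨j, hj, -⟩ := GG_inv i
    rw [pot_map hj]
    exact h _ (GG_mem_Gam hy j)
  simp only [Finset.sum_const, Finset.card_univ, Fintype.card_fin, nsmul_eq_mul] at this
  push_cast at this
  linarith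

theorem exists_sym_dual : ∃ ν : Measure ℂ, IsProbabilityMeasure ν ∧ (∀ᵐ x ∂ν, x ∈ Gam) ∧
    IsSym ν ∧ ∀ y ∈ Gam, pot ν y ≤ rdv Gam := by
  obtain ⟨μ, hp, hμ, h⟩ := exists_dual isCompact_Gam Gam_nonempty
  refine ⟨symm μ, inferInstance, ae_mem_symm hμ, isSym_symm μ, fun y hy => ?_⟩
  rw [pot_symm hμ]
  have : ∑ j, pot (μ.map (GG j)) y ≤ ∑ _j : Fin 6, rdv Gam := by
    refine Finset.sum_le_sum fun i _ => ?_
    obtain ⟨j, hj, -⟩ := GG_inv i
    rw [pot_map hj]
    exact h _ (GG_mem_Gam hy j)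
  simp only [Finset.sum_const, Finset.card_univ, Fintype.card_fin, nsmul_eq_mul] at this
  push_cast at this
  linarith

lemma IsSym.integral_comp (h : IsSym μ) (j : Fin 6) (F : ℂ → ℝ) :
    ∫ x, F (GG j x) ∂μ = ∫ x, F x ∂μ := by
  rw [← (emb_GG j).integral_map, h j]

lemma IsSym.integrable_comp (h : IsSym μ) (j : Fin 6) {F : ℂ → ℝ} (hF : Integrable F μ) :
    Integrable (fun x => F (GG j x)) μ := by
  rw [← h j] at hF
  exact (emb_GG j).integrable_map_iff.mp hF

lemma IsSym.ae_comp (h : IsSym μ) {p : ℂ → Prop} (hp : ∀ᵐ x ∂μ, p x) :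
    ∀ᵐ x ∂μ, ∀ j, p (GG j x) := by
  rw [ae_all_iff]
  intro j
  rw [← h j] at hp
  exact (emb_GG j).ae_map_iff.mp hp

lemma IsSym.integrable_osum (h : IsSym μ) {F : ℂ → ℝ} (hF : Integrable F μ) :
    Integrable (osum F) μ := by
  have : osum F = fun x => ∑ j, F (GG j x) := funext (osum_eq F)
  rw [this]
  exact integrable_finsetSum _ fun j _ => h.integrable_comp j hF

lemma IsSym.integral_osum (h : IsSym μ) {F : ℂ → ℝ} (hF : Integrable F μ) :
    ∫ x, osum F x ∂μ = 6 * ∫ x, F x ∂μ := by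
  simp only [osum_eq]
  rw [integral_finsetSum _ fun j _ => h.integrable_comp j hF]
  simp [h.integral_comp]

lemma IsSym.pot_GG (h : IsSym μ) (j : Fin 6) (y : ℂ) : pot μ (GG j y) = pot μ y := by
  obtain ⟨i, -, hi⟩ := GG_inv j
  rw [← pot_map hi, h i]

end Pool.Agent.Lib.MP_55cb2c_co
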