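import Mathlib

/-! A test function for an Euler type inequality. -/

namespace Pool.Agent.Lib.MP_55cb2c_co

open Real Set MeasureTheory

noncomputable def t0 : ℝ := 1 / 100 * exp (-50)
noncomputable def LL (t : ℝ) : ℝ := log t - log t0
noncomputable def EE (t : ℝ) : ℝ := exp (-(LL t ^ 2 / 100))
noncomputable def Y1 (t : ℝ) : ℝ := EE t * (1 - LL t / 50)
noncomputable def tf (t : ℝ) : ℝ := EE t / t * (1 / 50 + LL t / 50 * (1 - LL t / 50))

lemma t0_pos : 0 < t0 := by unfold t0; positivity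

lemma t0_lt : t0 < 1 / 100 := by
  unfold t0
  have : exp (-50 : ℝ) < 1 := by rw [← exp_zero]; exact exp_lt_exp.mpr (by norm_num)
  linarith

lemma LL_t0 : LL t0 = 0 := sub_self _

lemma LL_top : LL (1 / 100) = 50 := by
  unfold LL t0
  rw [log_mul (by norm_num) (exp_pos _).ne', log_exp]; ring

lemma LL_mem {t : ℝ} (ht : t ∈ Icc t0 (1 / 100)) : LL t ∈ Icc (0 : ℝ) 50 := by
  constructor
  · exact sub_nonneg.mpr (log_le_log t0_pos ht.1)
  · rw [← LL_top]
    exact sub_le_sub_right (log_le_log (t0_pos.trans_le ht.1) ht.2) _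

lemma hasDerivAt_LL {t : ℝ} (ht : 0 < t) : HasDerivAt LL t⁻¹ t :=
  (hasDerivAt_log ht.ne').sub_const _

lemma hasDerivAt_EE {t : ℝ} (ht : 0 < t) : HasDerivAt EE (-(EE t * (LL t / 50) / t)) t := by
  have := ((((hasDerivAt_LL ht).pow 2).div_const 100).neg).exp
  refine this.congr_deriv ?_
  simp only [EE, Pi.neg_apply, Pi.pow_apply]
  field_simp
  ring

lemma hasDerivAt_Y1 {t : ℝ} (ht : 0 < t) : HasDerivAt Y1 (-tf t) t := by
  have := (hasDerivAt_EE ht).mul (((hasDerivAt_LL ht).div_const 50).const_sub 1)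
  refine this.congr_deriv ?_
  simp only [tf]
  field_simp
  ring

lemma hasDerivAt_Y0 {t : ℝ} (ht : 0 < t) :
    HasDerivAt (fun t => t * EE t - t * Y1 t) (tf t * t) t := by
  have := ((hasDerivAt_id t).mul (hasDerivAt_EE ht)).sub ((hasDerivAt_id t).mul (hasDerivAt_Y1 ht))
  refine this.congr_deriv ?_
  simp only [Y1, id]
  field_simp
  ring

lemma measurable_tf : Measurable tf := by
  unfold tf EE LL
  fun_prop

lemma continuousOn_tf : ContinuousOn tf (Icc t0 (1 / 100)) := by
  intro t ht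
  have h0 : 0 < t := t0_pos.trans_le ht.1
  have h1 := (hasDerivAt_LL h0).continuousAt
  have h2 := (hasDerivAt_EE h0).continuousAt
  apply ContinuousAt.continuousWithinAt
  unfold tf
  exact (h2.div continuousAt_id h0.ne').mul (continuousAt_const.add
    ((h1.div_const 50).mul (continuousAt_const.sub (h1.div_const 50))))

lemma tf_pos {t : ℝ} (ht : t ∈ Icc t0 (1 / 100)) : 0 < tf t := by
  have h0 : 0 < t := t0_pos.trans_le ht.1
  obtain ⟨h1, h2⟩ := LL_mem ht
  have h3 : 0 < EE t := exp_pos _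
  have h4 : 0 ≤ LL t / 50 * (1 - LL t / 50) := mul_nonneg (by linarith) (by linarith)
  unfold tf
  positivity

lemma integral_tf_min {t : ℝ} (ht : t ∈ Icc t0 (1 / 100)) :
    ∫ s in t0..(1 / 100), tf s * min s t = t * EE t := by
  have hc : ∀ {a b : ℝ}, a ∈ Icc t0 (1 / 100) → b ∈ Icc t0 (1 / 100) →
      ContinuousOn tf (uIcc a b) := fun ha hb => continuousOn_tf.mono (uIcc_subset_Icc ha hb)
  have h0 : t0 ∈ Icc t0 (1 / 100) := ⟨le_rfl, t0_lt.le⟩
  have h1 : (1 / 100 : ℝ) ∈ Icc t0 (1 / 100) := ⟨t0_lt.le, le_rfl⟩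
  have hm : Continuous fun s : ℝ => min s t := by fun_prop
  rw [← intervalIntegral.integral_add_adjacent_intervals (b := t) (f := fun s => tf s * min s t)
    ((hc h0 ht).mul hm.continuousOn).intervalIntegrable
    ((hc ht h1).mul hm.continuousOn).intervalIntegrable]
  have e1 : ∫ s in t0..t, tf s * min s t = ∫ s in t0..t, tf s * s := by
    refine intervalIntegral.integral_congr fun s hs => ?_
    rw [uIcc_of_le ht.1] at hs
    simp only [min_eq_left hs.2]
  have e2 : ∫ s in t..(1 / 100), tf s * min s t = ∫ s in t..(1 / 100), -(t * -tf s) := by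
    refine intervalIntegral.integral_congr fun s hs => ?_
    rw [uIcc_of_le ht.2] at hs
    simp only [min_eq_right hs.1]; ring
  rw [e1, e2, intervalIntegral.integral_eq_sub_of_hasDerivAt
    (f := fun t => t * EE t - t * Y1 t) (f' := fun s => tf s * s) (fun s hs => hasDerivAt_Y0 ?_)
    ((hc h0 ht).mul continuousOn_id).intervalIntegrable,
    intervalIntegral.integral_eq_sub_of_hasDerivAt
    (f := fun s => -(t * Y1 s)) (f' := fun s => -(t * -tf s)) (fun s hs => ((hasDerivAt_Y1 ?_).const_mul t).neg)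
    ((continuousOn_const.mul (hc ht h1).neg).neg).intervalIntegrable]
  · simp only [Y1, LL_t0, LL_top]; ring
  · exact t0_pos.trans_le (uIcc_subset_Icc ht h1 hs).1
  · exact t0_pos.trans_le (uIcc_subset_Icc h0 ht hs).1

lemma tf_le {t : ℝ} (ht : t ∈ Icc t0 (1 / 100)) :
    t ^ 2 * tf t ≤ 27 / 100 * ∫ s in t0..(1 / 100), tf s * min s t := by
  have h0 : 0 < t := t0_pos.trans_le ht.1
  have h3 : 0 < EE t := exp_pos _
  rw [integral_tf_min ht]
  have : t ^ 2 * tf t = t * EE t * (1 / 50 + LL t / 50 * (1 - LL t / 50)) := by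
    unfold tf; field_simp
  rw [this, mul_comm (27 / 100 : ℝ)]
  apply mul_le_mul_of_nonneg_left _ (by positivity)
  nlinarith [sq_nonneg (LL t / 50 - 1 / 2)]

end Pool.Agent.Lib.MP_55cb2c_co
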