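import Pool.Agent.Lib.MP_55cb2c_co.ArcMeas
import Pool.Agent.Lib.MP_55cb2c_co.Ineq2
import Pool.Agent.Lib.MP_55cb2c_co.Test

/-! No probability measure on the Reuleaux curve has a constant potential on the curve. -/

namespace Pool.Agent.Lib.MP_55cb2c_co

open Set MeasureTheory Real Filter Topology

noncomputable def tfi : ℝ → ℝ := (Icc t0 (1 / 100)).indicator tf

lemma tf_ii {g : ℝ → ℝ} (hg : Continuous g) :
    IntervalIntegrable (fun s => tf s * g s) volume t0 (1 / 100) := by
  apply ContinuousOn.intervalIntegrable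
  rw [uIcc_of_le t0_lt.le]
  exact continuousOn_tf.mul hg.continuousOn

lemma P_pos {t : ℝ} (ht : t ∈ Icc 0 (π / 6)) (ht0 : 0 < t) :
    2 * tfi t < ∫ s in t0..(1 / 100), tf s * (KK 0 t - KK s t) := by
  have hc : Continuous fun s => KK 0 t - KK s t := continuous_const.sub (continuous_KK t)
  have hm : Continuous fun s : ℝ => min s t := by fun_prop
  rcases le_or_gt t (1 / 100) with h | h
  · have h1 : 55 / 100 * ∫ s in t0..(1 / 100), tf s * min s t ≤
        t ^ 2 * ∫ s in t0..(1 / 100), tf s * (KK 0 t - KK s t) := by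
      rw [← intervalIntegral.integral_const_mul, ← intervalIntegral.integral_const_mul]
      refine intervalIntegral.integral_mono_on t0_lt.le ((tf_ii hm).const_mul _)
        ((tf_ii hc).const_mul _) fun s hs => ?_
      have h2 := I6 ⟨t0_pos.le.trans hs.1, hs.2⟩ ⟨ht0.le, h⟩ ht0
      have h3 := mul_le_mul_of_nonneg_left h2 (tf_pos hs).le
      linarith
    have h2 : 0 < ∫ s in t0..(1 / 100), tf s * min s t :=
      intervalIntegral.intervalIntegral_pos_of_pos_on (tf_ii hm) (fun s hs =>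
        mul_pos (tf_pos (Ioo_subset_Icc_self hs)) (lt_min (t0_pos.trans hs.1) ht0)) t0_lt
    have h3 : t ^ 2 * tfi t ≤ 27 / 100 * ∫ s in t0..(1 / 100), tf s * min s t := by
      by_cases h4 : t ∈ Icc t0 (1 / 100)
      · rw [tfi, indicator_of_mem h4]; exact tf_le h4
      · rw [tfi, indicator_of_notMem h4]; linarith
    have h5 : 0 < t ^ 2 := by positivity
    by_contra hc
    push Not at hc
    nlinarith [mul_le_mul_of_nonneg_left hc h5.le]
  · rw [tfi, indicator_of_notMem (fun h' => by linarith [h'.2]), mul_zero]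
    refine intervalIntegral.intervalIntegral_pos_of_pos_on (tf_ii hc) (fun s hs =>
        mul_pos (tf_pos (Ioo_subset_Icc_self hs)) ?_) t0_lt
    have h0 : 0 < s := t0_pos.trans hs.1
    exact sub_pos.mpr (KK_anti ht h.le ⟨le_rfl, by norm_num⟩ ⟨h0.le, hs.2.le⟩ h0)

lemma ext_Ioc {m₁ m₂ : Measure ℝ} [IsFiniteMeasure m₁] [IsFiniteMeasure m₂] {L : ℝ} (hL : 0 ≤ L)
    (h1 : m₁ (Icc 0 L)ᶜ = 0) (h2 : m₂ (Icc 0 L)ᶜ = 0)
    (h : ∀ β ∈ Icc 0 L, m₁.real (Iic β) = m₂.real (Iic β)) : m₁ = m₂ := by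
  have h' : ∀ β ∈ Icc 0 L, m₁ (Iic β) = m₂ (Iic β) := fun β hβ =>
    (ENNReal.toReal_eq_toReal_iff' (measure_ne_top _ _) (measure_ne_top _ _)).mp (h β hβ)
  refine Measure.ext_of_Iic _ _ fun β => ?_
  rcases lt_or_ge β 0 with hb | hb
  · have : Iic β ⊆ (Icc 0 L)ᶜ := fun s hs hs' => by linarith [hs'.1, mem_Iic.mp hs]
    rw [measure_mono_null this h1, measure_mono_null this h2]
  · rcases le_or_gt β L with hb' | hb'
    · exact h' β ⟨hb, hb'⟩
    · have key : ∀ m : Measure ℝ, m (Icc 0 L)ᶜ = 0 → m (Iic β) = m (Iic L) := by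
        intro m hm
        apply measure_congr
        have : ∀ᵐ s ∂m, s ∈ Icc 0 L := hm
        filter_upwards [this] with s hs
        exact propext ⟨fun _ => hs.2, fun _ => hs.2.trans hb'.le⟩
      rw [key _ h1, key _ h2]
      exact h' L ⟨hL, le_rfl⟩

lemma integral_sin_half {β : ℝ} : ∫ s in (0 : ℝ)..β, sin (s / 2) = 2 * (1 - cos (β / 2)) := by
  rw [intervalIntegral.integral_comp_div (f := sin) two_ne_zero]
  simp

lemma fatou_real {α : Type} [MeasurableSpace α] {μ : Measure α} {f : ℕ → α → ℝ} {g : α → ℝ}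
    (hf : ∀ n, Integrable (f n) μ) (h0 : ∀ n x, 0 ≤ f n x) (hg : Measurable g)
    (hg0 : ∀ x, 0 ≤ g x) (hlim : ∀ x, Tendsto (fun n => f n x) atTop (𝓝 (g x))) {C : ℝ}
    (hC : 0 ≤ C) (hb : ∀ n, ∫ x, f n x ∂μ ≤ C) : Integrable g μ ∧ ∫ x, g x ∂μ ≤ C := by
  have h1 : ∫⁻ x, ENNReal.ofReal (g x) ∂μ ≤ ENNReal.ofReal C := by
    calc ∫⁻ x, ENNReal.ofReal (g x) ∂μ
        = ∫⁻ x, liminf (fun n => ENNReal.ofReal (f n x)) atTop ∂μ :=
          lintegral_congr fun x => ((ENNReal.tendsto_ofReal (hlim x)).liminf_eq).symm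
      _ ≤ liminf (fun n => ∫⁻ x, ENNReal.ofReal (f n x) ∂μ) atTop :=
          lintegral_liminf_le' fun n => (hf n).aemeasurable.ennreal_ofReal
      _ ≤ ENNReal.ofReal C := by
          refine liminf_le_of_frequently_le' (Eventually.of_forall fun n => ?_).frequently
          rw [← ofReal_integral_eq_lintegral_ofReal (hf n) (Eventually.of_forall (h0 n))]
          exact ENNReal.ofReal_le_ofReal (hb n)
  have h2 : Integrable g μ := ⟨hg.aestronglyMeasurable,
    (hasFiniteIntegral_iff_ofReal (Eventually.of_forall hg0)).mpr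
      (h1.trans_lt ENNReal.ofReal_lt_top)⟩
  refine ⟨h2, ?_⟩
  rw [← ofReal_integral_eq_lintegral_ofReal h2 (Eventually.of_forall hg0)] at h1
  exact (ENNReal.ofReal_le_ofReal_iff hC).mp h1

variable {μ : Measure ℂ} [IsProbabilityMeasure μ]

lemma integral_gg_const (hμ : ∀ᵐ x ∂μ, x ∈ Gam) {a : ℝ} (ha : ∀ y ∈ Gam, pot μ y = a) {L : ℝ}
    (hL : L ∈ Icc 0 (π / 6)) {φ : ℝ → ℝ} (hφ : Measurable φ) {C : ℝ} (hC : ∀ s, |φ s| ≤ C) :
    ∫ x, gg L φ x ∂μ = a / 4 * ∫ s in Ioc 0 L, sin (s / 2) * φ s := by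
  have hpi := pi_pos
  have ha0 : 0 ≤ a := by
    rw [← ha _ (yy_mem_Gam ⟨le_rfl, by positivity⟩)]
    exact integral_nonneg fun _ => dist_nonneg
  have hw : Measurable fun s : ℝ => ENNReal.ofReal (a / 4 * sin (s / 2)) := by fun_prop
  have hi : ∀ {φ : ℝ → ℝ}, ∫ s, φ s ∂((volume.restrict (Ioc 0 L)).withDensity
      fun s : ℝ => ENNReal.ofReal (a / 4 * sin (s / 2))) =
      a / 4 * ∫ s in Ioc 0 L, sin (s / 2) * φ s := by
    intro φ
    rw [integral_withDensity_eq_integral_toReal_smul hw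
      (Eventually.of_forall fun _ => ENNReal.ofReal_lt_top), ← integral_const_mul]
    refine setIntegral_congr_fun measurableSet_Ioc fun s hs => ?_
    have := (half_bounds ⟨hs.1.le, hs.2.trans hL.2⟩).1
    simp only [smul_eq_mul]
    rw [ENNReal.toReal_ofReal (by positivity)]; ring
  have hfin := fin_mm hμ hL
  have hfin2 : IsFiniteMeasure ((volume.restrict (Ioc 0 L)).withDensity
      fun s : ℝ => ENNReal.ofReal (a / 4 * sin (s / 2))) :=
    isFiniteMeasure_withDensity_ofReal
      ((by fun_prop : Continuous fun s : ℝ => a / 4 * sin (s / 2)).integrableOn_Ioc).hasFiniteIntegral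
  rw [← integral_mm hμ hL hφ hC, ← hi]
  congr 1
  refine ext_Ioc hL.1 (measure_mono_null (compl_subset_compl.mpr Ioc_subset_Icc_self)
    (mm_compl μ L)) ?_ fun β hβ => ?_
  · apply withDensity_absolutelyContinuous
    exact measure_mono_null (compl_subset_compl.mpr Ioc_subset_Icc_self)
      (ae_restrict_mem measurableSet_Ioc)
  · rw [mm_Iic hμ hL hβ (ha _ (yy_mem_Gam ⟨le_rfl, by positivity⟩))
      (ha _ (yy_mem_Gam ⟨hβ.1, by linarith [hβ.2, hL.2]⟩)), ← integral_indicator_one measurableSet_Iic,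
      hi]
    · have : ∀ s, sin (s / 2) * (Iic β).indicator 1 s = (Iic β).indicator (fun s => sin (s / 2)) s := by
        intro s; by_cases h : s ∈ Iic β <;> simp [h]
      simp only [this]
      rw [setIntegral_indicator measurableSet_Iic, Ioc_inter_Iic, min_eq_right hβ.2,
        ← intervalIntegral.integral_of_le hβ.1, integral_sin_half]
      ring
    · intro h0
      have : Ioo 0 (π / 3) ∈ 𝓝 β := Ioo_mem_nhds h0 (by linarith [hβ.2, hL.2])
      filter_upwards [this] with s hs
      rw [ha _ (yy_mem_Gam (Ioo_subset_Icc_self hs)),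
        ha _ (yy_mem_Gam ⟨hβ.1, by linarith [hβ.2, hL.2]⟩)]

lemma kk_zero_le (hμ : ∀ᵐ x ∂μ, x ∈ Gam) {a : ℝ} (ha : ∀ y ∈ Gam, pot μ y = a) :
    Integrable (fun x => kk x 0) μ ∧ ∫ x, kk x 0 ∂μ ≤ a / 4 := by
  have hpi := pi_gt_three
  have ha0 : 0 ≤ a := by
    rw [← ha _ (yy_mem_Gam ⟨le_rfl, by positivity⟩)]
    exact integral_nonneg fun _ => dist_nonneg
  let u : ℕ → ℝ := fun n => 1 / 2 * (1 / ((n : ℝ) + 1))
  have hu0 : ∀ n, 0 < u n := fun n => by positivity
  have hu1 : ∀ n, u n ∈ Icc 0 (π / 6) := fun n => ⟨(hu0 n).le, by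
    have : 1 / ((n : ℝ) + 1) ≤ 1 := by
      rw [div_le_one (by positivity)]; linarith [Nat.cast_nonneg (α := ℝ) n]
    simp only [u]; linarith⟩
  have hu : Tendsto u atTop (𝓝 0) := by
    have := (tendsto_one_div_add_atTop_nhds_zero_nat (𝕜 := ℝ)).const_mul (1 / 2)
    rwa [mul_zero] at this
  have hw : ∀ n, 0 < ∫ s in Ioc 0 (u n), sin (s / 2) := fun n => by
    rw [← intervalIntegral.integral_of_le (hu0 n).le]
    exact intervalIntegral.intervalIntegral_pos_of_pos_on
      ((by fun_prop : Continuous fun s : ℝ => sin (s / 2)).intervalIntegrable _ _)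
      (fun s hs => half_pos ⟨hs.1.le, hs.2.le.trans (hu1 n).2⟩ hs.1) (hu0 n)
  refine fatou_real (f := fun n x => (∫ s in Ioc 0 (u n), sin (s / 2))⁻¹ *
      ∫ s in Ioc 0 (u n), sin (s / 2) * kk x s)
    (fun n => ((integrable_FF hμ (hu1 n)).integral_prod_left).const_mul _)
    (fun n x => mul_nonneg (inv_nonneg.mpr (hw n).le)
      (setIntegral_nonneg measurableSet_Ioc fun s hs => FF_nonneg (hu1 n) x hs))
    (measurable_kk.comp measurable_prodMk_right) (fun x => kk_nonneg x 0) (fun x => ?_)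
    (by positivity) fun n => ?_
  · have : ∀ n, ∃ c ∈ Icc 0 (u n), (∫ s in Ioc 0 (u n), sin (s / 2))⁻¹ *
        ∫ s in Ioc 0 (u n), sin (s / 2) * kk x s = kk x c := by
      intro n
      obtain ⟨c, hc, h⟩ := exists_eq_const_mul_intervalIntegral_of_nonneg (μ := volume)
        (a := 0) (b := u n) (f := kk x) (g := fun s => sin (s / 2)) (continuous_kk x).continuousOn
        ((by fun_prop : Continuous fun s : ℝ => sin (s / 2)).intervalIntegrable _ _)
        (fun s hs => by
          rw [uIoc_of_le (hu0 n).le] at hs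
          exact (half_bounds ⟨hs.1.le, hs.2.trans (hu1 n).2⟩).1)
      rw [uIcc_of_le (hu0 n).le] at hc
      refine ⟨c, hc, ?_⟩
      rw [intervalIntegral.integral_of_le (hu0 n).le,
        intervalIntegral.integral_of_le (hu0 n).le] at h
      simp only [mul_comm (sin _)]
      rw [h]
      field_simp [(hw n).ne']
    choose c hc h using this
    simp only [h]
    have hc0 : Tendsto c atTop (𝓝 0) :=
      squeeze_zero (fun n => (hc n).1) (fun n => (hc n).2) hu
    exact ((continuous_kk x).tendsto 0).comp hc0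
  · have h1 := integral_gg_const hμ ha (hu1 n) (φ := fun _ => 1) measurable_const (C := 1)
      (by simp)
    rw [integral_const_mul, inv_mul_le_iff₀ (hw n), mul_comm]
    simp only [mul_one] at h1
    rw [← h1]
    refine integral_mono (integrable_FF hμ (hu1 n)).integral_prod_left
      (integrable_gg hμ (hu1 n) measurable_const (C := 1) (by simp)) fun x => ?_
    simp only [gg, mul_one]
    refine le_add_of_nonneg_left (indicator_nonneg (fun x hx => ?_) x)
    linarith [(half_bounds ⟨hx.2.1.le, hx.2.2.trans (hu1 n).2⟩).1]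

noncomputable def tphi (s : ℝ) : ℝ := tfi s / sin (s / 2)

lemma measurable_tfi : Measurable tfi := measurable_tf.indicator measurableSet_Icc

lemma measurable_tphi : Measurable tphi := measurable_tfi.div (by fun_prop)

lemma tphi_bdd : ∃ C, ∀ s, |tphi s| ≤ C := by
  have hc : ContinuousOn (fun s => tf s / sin (s / 2)) (Icc t0 (1 / 100)) :=
    continuousOn_tf.div (by fun_prop) fun s hs =>
      (half_pos (small_mem ⟨t0_pos.le.trans hs.1, hs.2⟩) (t0_pos.trans_le hs.1)).ne'
  obtain ⟨C, hC⟩ := isCompact_Icc.exists_bound_of_continuousOn hc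
  refine ⟨max C 0, fun s => ?_⟩
  by_cases h : s ∈ Icc t0 (1 / 100)
  · rw [tphi, tfi, indicator_of_mem h]
    exact (hC s h).trans (le_max_left _ _)
  · rw [tphi, tfi, indicator_of_notMem h]; simp

lemma sin_mul_tphi {s : ℝ} (hs : s ∈ Ioc 0 (1 / 100 : ℝ)) : sin (s / 2) * tphi s = tfi s := by
  have := (half_pos (small_mem ⟨hs.1.le, hs.2⟩) hs.1).ne'
  unfold tphi; field_simp

lemma integral_tfi (g : ℝ → ℝ) :
    ∫ s in Ioc 0 (1 / 100 : ℝ), tfi s * g s = ∫ s in t0..(1 / 100), tf s * g s := by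
  have : ∀ s, tfi s * g s = (Icc t0 (1 / 100)).indicator (fun s => tf s * g s) s := by
    intro s
    by_cases h : s ∈ Icc t0 (1 / 100)
    · rw [tfi, indicator_of_mem h, indicator_of_mem h]
    · rw [tfi, indicator_of_notMem h, indicator_of_notMem h, zero_mul]
  simp only [this]
  rw [setIntegral_indicator measurableSet_Icc, intervalIntegral.integral_of_le t0_lt.le,
    ← integral_Icc_eq_integral_Ioc, inter_eq_right.mpr]
  exact fun s hs => ⟨t0_pos.trans_le hs.1, hs.2⟩

lemma gg_tphi (x : ℂ) : gg (1 / 100) tphi x =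
    (HL (1 / 100)).indicator (fun x => 2 * tfi (Complex.arg x)) x +
      ∫ s in t0..(1 / 100), tf s * kk x s := by
  unfold gg
  congr 1
  · by_cases h : x ∈ HL (1 / 100)
    · rw [indicator_of_mem h, indicator_of_mem h, mul_assoc, sin_mul_tphi h.2]
    · rw [indicator_of_notMem h, indicator_of_notMem h]
  · rw [← integral_tfi]
    refine setIntegral_congr_fun measurableSet_Ioc fun s hs => ?_
    show sin (s / 2) * kk x s * tphi s = tfi s * kk x s
    rw [← sin_mul_tphi hs]; ring

lemma R3_lt {t : ℝ} (ht : t ∈ Icc 0 (π / 6)) (h0 : 0 < t) : R3 t < 1 := by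
  have := half_pos ht h0
  have := cos_le_one (t / 2)
  have := r3_gt
  unfold R3; nlinarith

lemma osum_HL {L t : ℝ} (hL : L ∈ Ico 0 (π / 6)) (ht : t ∈ Icc 0 (π / 6)) (h0 : 0 < t)
    (F : ℂ → ℝ) : osum ((HL L).indicator F) (yy t) = (HL L).indicator F (yy t) := by
  have hpi := pi_pos
  have h3 := R3_lt ht h0
  have h5 := (half_bounds ht).2.1
  have n2 : sg (yy t) ∉ HL L := fun h => by
    have := h.2.2
    rw [sg_yy, arg_yy ⟨by linarith [ht.2], by linarith⟩] at this
    linarith [ht.2, hL.2]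
  have n3 : rho (rho (sg (yy t))) ∉ HL L := fun h => by
    have := h.1; rw [norm_x3' ht] at this; linarith
  have n4 : rho (yy t) ∉ HL L := fun h => by
    have := h.1; rw [norm_x4' ht] at this; linarith
  have n5 : rho (rho (yy t)) ∉ HL L := fun h => by
    have := h.1; rw [norm_x5' ht] at this; linarith
  have n6 : rho (sg (yy t)) ∉ HL L := fun h => by
    have := h.1; rw [norm_x6' ht] at this; linarith
  simp only [osum, indicator_of_notMem n2, indicator_of_notMem n3, indicator_of_notMem n4,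
    indicator_of_notMem n5, indicator_of_notMem n6, add_zero]

lemma osum_tf (x : ℂ) : osum (fun x => ∫ s in t0..(1 / 100), tf s * kk x s) x =
    ∫ s in t0..(1 / 100), tf s * osum (fun x => kk x s) x := by
  simp only [osum_eq, Finset.mul_sum]
  rw [intervalIntegral.integral_finsetSum fun j _ => tf_ii (continuous_kk _)]

lemma six_pot (hμ : ∀ᵐ x ∂μ, x ∈ Gam) (hs : IsSym μ) (s : ℝ) :
    ∫ x, osum (fun x => dd x s) x ∂μ = 6 * pot μ (yy s) :=
  hs.integral_osum (integrable_dist isCompact_Gam hμ _)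

lemma exists_sin_half {c : ℝ} (h0 : 0 ≤ c) (h1 : c ≤ 1 / 4) :
    ∃ s ∈ Icc 0 (π / 6), sin (s / 2) = c := by
  have hc : Continuous fun s : ℝ => sin (s / 2) := by fun_prop
  have h2 : 1 / 4 ≤ sin (π / 6 / 2) := by
    have h := cos_eq_half (π / 6)
    rw [cos_pi_div_six] at h
    have := r3_lt
    have := (half_bounds (s := π / 6) ⟨by positivity, le_rfl⟩).1
    by_contra hc
    push Not at hc
    nlinarith
  exact intermediate_value_Icc (by positivity) hc.continuousOn ⟨by simpa using h0, h1.trans h2⟩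

theorem no_const (hμ : ∀ᵐ x ∂μ, x ∈ Gam) (hs : IsSym μ) {a : ℝ} (ha : ∀ y ∈ Gam, pot μ y = a) :
    False := by
  have hpi := pi_pos
  have hL : (1 / 100 : ℝ) ∈ Icc 0 (π / 6) := small_mem ⟨by norm_num, le_rfl⟩
  have hL' : (1 / 100 : ℝ) ∈ Ico 0 (π / 6) := ⟨by norm_num, by linarith [pi_gt_three]⟩
  have h0' : (0 : ℝ) ∈ Icc 0 (π / 6) := ⟨le_rfl, by positivity⟩
  obtain ⟨C, hC⟩ := tphi_bdd
  obtain ⟨hk1, hk2⟩ := kk_zero_le hμ ha
  set c := ∫ s in t0..(1 / 100), tf s * 1 with hc
  have hc0 : 0 ≤ c := intervalIntegral.integral_nonneg t0_lt.le fun s hs => by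
    linarith [tf_pos hs]
  have h1 : ∫ x, gg (1 / 100) tphi x ∂μ = a / 4 * c := by
    rw [integral_gg_const hμ ha hL measurable_tphi hC, hc, ← integral_tfi]
    congr 1
    exact setIntegral_congr_fun measurableSet_Ioc fun s hs => by
      simp only [sin_mul_tphi hs, mul_one]
  let F : ℂ → ℝ := fun x => c * kk x 0 - gg (1 / 100) tphi x
  have hF : Integrable F μ := (hk1.const_mul c).sub (integrable_gg hμ hL measurable_tphi hC)
  have h2 : ∫ x, osum F x ∂μ ≤ 0 := by
    rw [hs.integral_osum hF, integral_sub (hk1.const_mul c)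
      (integrable_gg hμ hL measurable_tphi hC), h1, integral_const_mul]
    nlinarith [mul_le_mul_of_nonneg_left hk2 hc0]
  have h3 : ∀ x, osum F x = (∫ s in t0..(1 / 100), tf s *
      (osum (fun x => kk x 0) x - osum (fun x => kk x s) x)) -
      osum ((HL (1 / 100)).indicator (fun x => 2 * tfi (Complex.arg x))) x := by
    intro x
    have hK : Continuous fun s => osum (fun x => kk x s) x := by
      simp only [osum_eq]
      exact continuous_finsetSum _ fun j _ => continuous_kk _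
    simp only [mul_sub]
    rw [intervalIntegral.integral_sub (tf_ii continuous_const) (tf_ii hK), ← osum_tf,
      intervalIntegral.integral_mul_const]
    simp only [F, gg_tphi, osum, hc, mul_one]
    ring
  have h4 : ∀ t ∈ Icc 0 (π / 6), 0 < t → 0 < osum F (yy t) := by
    intro t ht h0
    have h5 := P_pos ht h0
    have h6 : (HL (1 / 100)).indicator (fun x => 2 * tfi (Complex.arg x)) (yy t) ≤ 2 * tfi t := by
      have h7 : 0 ≤ tfi t := indicator_nonneg (fun s hs => (tf_pos hs).le) t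
      by_cases h : yy t ∈ HL (1 / 100)
      · rw [indicator_of_mem h, arg_yy ⟨by linarith, by linarith [ht.2]⟩]
      · rw [indicator_of_notMem h]; linarith
    rw [h3, osum_HL hL' ht h0]
    unfold KK at h5
    linarith
  have h5 : 0 ≤ osum F (yy 0) := by
    rw [h3]
    have e1 : ∀ s, osum (fun x => kk x s) (yy 0) = 1 / 2 := KK_vertex
    have e2 : ∀ x ∈ HL (1 / 100), x ∈ Gam → ∀ j, x ≠ GG j (yy 0) := by
      rintro x hx - j rfl
      have h1 := hx.1
      have h2 := hx.2
      have a0 : Complex.arg (yy 0) = 0 := arg_yy ⟨by linarith, by linarith⟩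
      have a1 : Complex.arg (yy (π / 3)) = π / 3 := arg_yy ⟨by linarith, by linarith⟩
      have v3 : sg (yy 0) = yy (π / 3) := by rw [sg_yy, sub_zero]
      have v1 : rho (yy 0) = yy (π / 3) := by
        apply Complex.ext <;> simp [rho, yy]; norm_num
      have v2 : rho (yy (π / 3)) = 0 := by
        rw [← v1, ← rho_zero, rho3]
      have := pi_gt_three
      fin_cases j <;> simp [GG, v1, v2, v3, rho_zero, a0, a1] at h1 h2 <;> linarith [h2.2]
    have e3 : osum ((HL (1 / 100)).indicator (fun x => 2 * tfi (Complex.arg x))) (yy 0) = 0 := by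
      rw [osum_eq]
      exact Finset.sum_eq_zero fun j _ => indicator_of_notMem (fun h =>
        e2 _ h (GG_mem_Gam (yy_mem_Gam ⟨le_rfl, by positivity⟩) j) j rfl) _
    rw [e3]; simp [e1]
  have h6 : 0 ≤ᵐ[μ] osum F := by
    filter_upwards [hμ] with x hx
    obtain ⟨t, ht, -, h⟩ := osum_of_mem hx
    rw [h]
    rcases ht.1.eq_or_lt with h0 | h0
    · rw [← h0]; exact h5
    · exact (h4 t ht h0).le
  have h7 := (integral_eq_zero_iff_of_nonneg_ae h6 (hs.integrable_osum hF)).mp
    (le_antisymm h2 (integral_nonneg_of_ae h6))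
  have h8 : ∀ s ∈ Icc 0 (π / 6), DD s 0 = 6 * a := by
    intro s hs'
    rw [← ha _ (yy_mem_Gam ⟨hs'.1, by linarith [hs'.2]⟩), ← six_pot hμ hs]
    have : ∀ᵐ x ∂μ, osum (fun x => dd x s) x = DD s 0 := by
      filter_upwards [hμ, h7] with x hx hx0
      obtain ⟨t, ht, -, h⟩ := osum_of_mem hx
      rcases ht.1.eq_or_lt with h0 | h0
      · rw [h, ← h0]; rfl
      · have := h4 t ht h0
        rw [← h, hx0] at this
        exact absurd this (lt_irrefl _)
    rw [integral_congr_ae this]; simp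
  obtain ⟨s, hs', hs1⟩ := exists_sin_half (c := 25 / 100) (by norm_num) (by norm_num)
  have h9 := J1 hs' h0' hs1 (by simp; norm_num)
  have h10 := h8 0 h0'
  rw [h8 s hs', ← h10, DD_zero h0'] at h9
  simp at h9
  linarith

theorem rdv_lt_avg_Gam : rdv Gam < avg Gam := by
  by_contra hc
  push Not at hc
  obtain ⟨μ, hp, hμ, hs, h⟩ := exists_sym_primal
  have h1 : rdv Gam ≤ en μ := by
    have : ∫ _y, rdv Gam ∂μ ≤ ∫ y, pot μ y ∂μ :=
      integral_mono_ae (integrable_const _)
        (integrable_of_cont isCompact_Gam hμ (continuous_pot isCompact_Gam hμ))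
        (hμ.mono fun y hy => h y hy)
    simpa [en] using this
  exact no_const hμ hs (a := rdv Gam) fun y hy =>
    le_antisymm ((pot_le_avg isCompact_Gam hμ (hc.trans h1) hy).trans hc) (h y hy)

end Pool.Agent.Lib.MP_55cb2c_co
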